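import Mathlib

/-!
# Burn: automorphisms of a finite `p`-group acting trivially modulo the Frattini subgroup

PROOF.  Let `n = orderOf σ` (finite group `MulAut T`).  If `n` is not a power of `p` there is a prime `q ≠ p` with
`q ∣ n`; `ρ = σ^(n/q)` has order `q` and also satisfies `x⁻¹ * ρ x ∈ frattini T` (iterate; `frattini T` is
characteristic).  For every `x`, `ρ` maps the coset `x (frattini T)` to itself; it has `p`-power cardinality, and the
group generated by `ρ` has prime order `q`, so the number of fixed points in the coset is `≡ |frattini T|` mod `q`, nonzero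
(`IsPGroup.card_modEq_card_fixedPoints` for the `q`-group `zpowers ρ` acting on the coset).  So every coset of the Frattini subgroup
contains a fixed point of `ρ`: the subgroup `F` of fixed points satisfies `F ⊔ frattini T = ⊤`, so `F = ⊤`
(`frattini_nongenerating`), `ρ = 1`, contradiction.
-/

namespace Pool.Agent.PHI

theorem Burn_pow {T : Type*} [Group T] (σ : MulAut T) (h : ∀ x : T, x⁻¹ * σ x ∈ frattini T)
    (m : ℕ) (x : T) : x⁻¹ * (σ ^ m) x ∈ frattini T := by
  induction m with
  | zero => simp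
  | succ m ih =>
    have e : x⁻¹ * (σ ^ (m + 1)) x = (x⁻¹ * (σ ^ m) x) * (((σ ^ m) x)⁻¹ * σ ((σ ^ m) x)) := by
      rw [pow_succ', MulAut.mul_apply]
      group
    rw [e]
    exact mul_mem ih (h _)

theorem Burn_fix {T : Type*} [Group T] [Finite T] {p q : ℕ} (hp : p.Prime) (hq : q.Prime)
    (hne : q ≠ p) (hT : IsPGroup p T) (ρ : MulAut T) (h : ∀ x : T, x⁻¹ * ρ x ∈ frattini T)
    (hρ : ρ ^ q = 1) (x : T) : ∃ y ∈ frattini T, ρ (x * y) = x * y := by
  classical
  have : Fact q.Prime := ⟨hq⟩
  have : Fact p.Prime := ⟨hp⟩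
  have : Fintype (frattini T) := Fintype.ofFinite _
  have hch : ∀ y ∈ frattini T, ρ y ∈ frattini T := by
    intro y hy
    have h1 : ρ y = y * (y⁻¹ * ρ y) := by group
    rw [h1]
    exact mul_mem hy (h y)
  have hmem : ∀ y ∈ frattini T, x⁻¹ * ρ (x * y) ∈ frattini T := by
    intro y hy
    rw [map_mul, ← mul_assoc]
    exact mul_mem (h x) (hch y hy)
  let f : Function.End (frattini T) := fun y => ⟨x⁻¹ * ρ (x * y), hmem y y.2⟩
  have hf : ∀ (m : ℕ) (y : frattini T), (((f ^ m) y : frattini T) : T) = x⁻¹ * (ρ ^ m) (x * y) := by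
    intro m
    induction m with
    | zero =>
      intro y
      show (y : T) = x⁻¹ * (x * y)
      group
    | succ m ih =>
      intro y
      have e1 : (f ^ (m + 1)) y = f ((f ^ m) y) := by
        rw [pow_succ']
        rfl
      rw [e1]
      show x⁻¹ * ρ (x * (((f ^ m) y : frattini T) : T)) = _
      rw [ih, pow_succ', MulAut.mul_apply]
      congr 2
      group
  have hf1 : f ^ q ^ 1 = 1 := by
    funext y
    apply Subtype.ext
    rw [hf, pow_one, hρ]
    show x⁻¹ * (x * (y : T)) = y
    group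
  have hmod := Equiv.Perm.card_fixedPoints_modEq (f := f) hf1
  obtain ⟨k, hk⟩ := IsPGroup.iff_card.mp (hT.to_subgroup (frattini T))
  have hnd : ¬ q ∣ Fintype.card (frattini T) := by
    rw [← Nat.card_eq_fintype_card, hk]
    intro hd
    exact hne ((Nat.prime_dvd_prime_iff_eq hq hp).1 (hq.dvd_of_dvd_pow hd))
  have hpos : 0 < Fintype.card f.fixedPoints := by
    rcases Nat.eq_zero_or_pos (Fintype.card f.fixedPoints) with h0 | h0
    · rw [h0] at hmod
      exact absurd ((Nat.modEq_zero_iff_dvd).1 hmod) hnd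
    · exact h0
  obtain ⟨⟨y, hy⟩⟩ := Fintype.card_pos_iff.1 hpos
  refine ⟨y, y.2, ?_⟩
  have h2 : f y = y := hy
  have h3 : x⁻¹ * ρ (x * y) = (y : T) := congrArg Subtype.val h2
  exact inv_mul_eq_iff_eq_mul.1 h3

theorem Burn_one {T : Type*} [Group T] [Finite T] {p q : ℕ} (hp : p.Prime) (hq : q.Prime)
    (hne : q ≠ p) (hT : IsPGroup p T) (ρ : MulAut T) (h : ∀ x : T, x⁻¹ * ρ x ∈ frattini T)
    (hρ : ρ ^ q = 1) : ρ = 1 := by
  let F : Subgroup T :=
    { carrier := {x | ρ x = x}
      mul_mem' := by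
        intro a b ha hb
        show ρ (a * b) = a * b
        rw [map_mul, show ρ a = a from ha, show ρ b = b from hb]
      one_mem' := map_one ρ
      inv_mem' := by
        intro a ha
        show ρ a⁻¹ = a⁻¹
        rw [map_inv, show ρ a = a from ha] }
  have hsup : F ⊔ frattini T = ⊤ := by
    rw [eq_top_iff]
    intro x _
    obtain ⟨y, hy, hxy⟩ := Burn_fix hp hq hne hT ρ h hρ x
    have e : x = (x * y) * y⁻¹ := by group
    rw [e]
    exact mul_mem (Subgroup.mem_sup_left hxy) (Subgroup.mem_sup_right (inv_mem hy))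
  have htop := frattini_nongenerating hsup
  ext x
  have : x ∈ F := by rw [htop]; exact Subgroup.mem_top x
  exact this

theorem pow_eq_one_of_frattini {T : Type*} [Group T] [Finite T] {p : ℕ} (hp : p.Prime)
    (hT : IsPGroup p T) (σ : MulAut T) (h : ∀ x : T, x⁻¹ * σ x ∈ frattini T) :
    ∃ k : ℕ, σ ^ p ^ k = 1 := by
  have hfin : Finite (MulAut T) := Finite.of_injective (fun f : MulAut T => (f : T → T))
    (fun a b hab => MulEquiv.ext fun x => congrFun hab x)
  have hpos : orderOf σ ≠ 0 := (orderOf_pos σ).ne'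
  have hall : ∀ {q : ℕ}, q.Prime → q ∣ orderOf σ → q = p := by
    intro q hq hd
    by_contra hne
    obtain ⟨m, hm⟩ := hd
    have h1 : (σ ^ m) ^ q = 1 := by
      rw [← pow_mul, mul_comm, ← hm, pow_orderOf_eq_one]
    have h2 := Burn_one hp hq hne hT (σ ^ m) (Burn_pow σ h m) h1
    have h3 := orderOf_dvd_of_pow_eq_one h2
    have hm0 : 0 < m := by
      rcases Nat.eq_zero_or_pos m with h0 | h0
      · rw [h0, mul_zero] at hm
        exact absurd hm hpos
      · exact h0
    have h4 := Nat.le_of_dvd hm0 h3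
    rw [hm] at h4
    have h5 := hq.two_le
    nlinarith
  exact ⟨_, by
    rw [← Nat.eq_prime_pow_of_unique_prime_dvd hpos hall]
    exact pow_orderOf_eq_one σ⟩

end Pool.Agent.PHI
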