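import Mathlib

/-!
# CharQ: characteristic quotients seeing all homomorphisms to a finite group

PROOF.  `K = ⨅ τ : P →* T, τ.ker`.  The set `P →* T` is finite since `P` is generated by a finite set `S` and
`τ ↦ τ|S` is injective; so `K` has finite index (`Subgroup.finiteIndex_iInf`, `Subgroup.finiteIndex_ker`).  It is
characteristic: precomposition with an automorphism permutes the homs.  If `T` is a `p`-group: the element `x` of `P ⧸ K`
satisfies `x^(|T|) = 1` (every `τ` kills `y^(|T|)`, `pow_card_eq_one'`), and `|T|` is a power of `p`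
(`IsPGroup.iff_card`), so `P ⧸ K` is a `p`-group.
(Compare module `Core`, which is the case `T = Perm (π ⧸ K)`.)
-/

namespace Pool.Agent.PHI

theorem exists_char_quot {P : Type*} [Group P] [Group.FG P] (T : Type*) [Group T] [Finite T] :
    ∃ K : Subgroup P, ∃ _ : K.Characteristic, K.FiniteIndex ∧ (∀ τ : P →* T, K ≤ τ.ker) ∧
      ∀ p : ℕ, p.Prime → IsPGroup p T → ∀ x : P, ∃ k : ℕ, x ^ p ^ k ∈ K := by
  classical
  obtain ⟨S, hS, hfin⟩ := Group.fg_iff.mp (inferInstance : Group.FG P)
  have hSf : Finite S := hfin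
  have hhom : Finite (P →* T) := by
    apply Finite.of_injective (β := S → T) (fun f s => f s.1)
    intro f g hfg
    have h1 : Set.EqOn f g S := fun s hs => congrFun hfg ⟨s, hs⟩
    have h2 := MonoidHom.eqOn_closure h1
    rw [hS] at h2
    ext1 x
    exact h2 (Subgroup.mem_top x)
  refine ⟨⨅ f : P →* T, f.ker, ?_, ?_, fun τ => iInf_le _ τ, ?_⟩
  · rw [Subgroup.characteristic_iff_le_comap]
    intro φ x hx
    rw [Subgroup.mem_comap, Subgroup.mem_iInf]
    intro f
    rw [Subgroup.mem_iInf] at hx
    have := hx (f.comp φ.toMonoidHom)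
    rw [MonoidHom.mem_ker] at this ⊢
    exact this
  · apply Subgroup.finiteIndex_iInf
    intro f
    infer_instance
  · intro p hp hT x
    have hpf : Fact p.Prime := ⟨hp⟩
    obtain ⟨k, hk⟩ := IsPGroup.iff_card.mp hT
    refine ⟨k, ?_⟩
    rw [Subgroup.mem_iInf]
    intro f
    rw [MonoidHom.mem_ker, map_pow, ← hk]
    exact pow_card_eq_one'

end Pool.Agent.PHI
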