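import Pool.Agent.PHI.DefsF
import Pool.Agent.PHI.Burn
import Pool.Agent.PHI.CharQ

/-!
# AutRes: `Aut P` is virtually residually `p` for f.g. residually `p` groups `P`

PROOF.  Let `P₁ = commutator P ⊔ closure {x^p}`: characteristic, and `P ⧸ P₁` is a finitely generated abelian group of
exponent dividing `p`, so finite.  `R = {α : MulAut P | ∀ x, x⁻¹ * α x ∈ P₁}` is a subgroup: the kernel of the action on
the finite group `P ⧸ P₁`, so it has finite index.
Let `α ∈ R`, `α ≠ 1`: there is `x` with `y = x⁻¹ * α x ≠ 1`.  By `ResPf` there is `K₀` normal of index `p^k`, `y ∉ K₀`.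
Let `K` be the intersection of the kernels of all homs `P → P ⧸ K₀` (finitely many, `P` is f.g.): a characteristic subgroup,
of finite index, `K ≤ K₀`, and `T = P ⧸ K` is a finite `p`-group (module `CharQ`: `exists_char_quot`).  `MulAut P` acts on `T`:
`c : MulAut P →* MulAut T`.  `c α ≠ 1`.  For `β ∈ R`: `t⁻¹ * (c β) t` is in the image of `P₁` in `T`, contained in
`frattini T` (maximal subgroups of the finite `p`-group `T` are normal of index `p`, so they contain commutators and `p`-th
powers), so `c β` has order a power of `p` (`pow_eq_one_of_frattini`).  So the image of `R` in `MulAut T` is a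
finite `p`-group and `L = ker c` restricted to `R` has `p`-power index in `R` and does not contain `α`.
-/

namespace Pool.Agent.PHI

/-- The action of the automorphism group on the quotient by a characteristic subgroup. -/
noncomputable def AutRes_c {P : Type*} [Group P] (K : Subgroup P) [hK : K.Characteristic] :
    MulAut P →* MulAut (P ⧸ K) where
  toFun α := QuotientGroup.congr K K α (Subgroup.characteristic_iff_map_eq.1 hK α)
  map_one' := by
    ext x
    induction x using QuotientGroup.induction_on with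
    | H z => rfl
  map_mul' α β := by
    ext x
    induction x using QuotientGroup.induction_on with
    | H z => rfl

theorem AutRes_c_mk {P : Type*} [Group P] (K : Subgroup P) [hK : K.Characteristic] (α : MulAut P)
    (x : P) : AutRes_c K α (x : P ⧸ K) = ((α x : P) : P ⧸ K) := rfl

/-- maximal subgroups of finite `p`-groups have index `p` -/
theorem AutRes_index {T : Type*} [Group T] [Finite T] {p : ℕ} (hp : p.Prime) (hT : IsPGroup p T)
    (M : Subgroup T) (hM : IsCoatom M) : M.index = p := by
  have : Fact p.Prime := ⟨hp⟩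
  obtain ⟨n, hn⟩ := IsPGroup.iff_card.mp hT
  obtain ⟨m, hm⟩ := IsPGroup.iff_card.mp (hT.to_subgroup M)
  have hmul := M.card_mul_index
  have hlt : m < n := by
    rcases lt_or_ge m n with h | h
    · exact h
    · exfalso
      apply hM.1
      apply Subgroup.eq_top_of_card_eq
      apply le_antisymm (Subgroup.card_le_card_group M)
      rw [hm, hn]
      exact Nat.pow_le_pow_right hp.pos h
  obtain ⟨H, hH, hMH⟩ := Sylow.exists_subgroup_card_pow_prime_le p (G := T) (n := m) (m := n - 1)
    (by rw [hn]; exact pow_dvd_pow p (by omega)) M hm (by omega)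
  have hHne : H ≠ ⊤ := by
    intro h
    rw [h, Subgroup.card_top, hn] at hH
    have := Nat.pow_right_injective hp.two_le hH
    omega
  have hHM : H = M := by
    rcases eq_or_lt_of_le hMH with h | h
    · exact h.symm
    · exact absurd (hM.2 H h) hHne
  rw [hHM] at hH
  have h1 : p ^ (n - 1) * M.index = p ^ (n - 1) * p := by
    rw [← hH, hmul, hn, hH, ← pow_succ]
    congr 1
    omega
  exact Nat.eq_of_mul_eq_mul_left (pow_pos hp.pos _) h1

theorem virtResP_mulAut {P : Type*} [Group P] [Group.FG P] {p : ℕ} (hp : p.Prime)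
    (h : ResPf p P) : VirtResP p (MulAut P) := by
  have : Fact p.Prime := ⟨hp⟩
  have : NeZero p := ⟨hp.ne_zero⟩
  obtain ⟨K₁, hK₁, hfi₁, hker₁, -⟩ := exists_char_quot (P := P) (Multiplicative (ZMod p))
  have hfin₁ : Finite (P ⧸ K₁) := Subgroup.finite_quotient_of_finiteIndex
  have hfinA₁ : Finite (MulAut (P ⧸ K₁)) :=
    Finite.of_injective (fun f : MulAut (P ⧸ K₁) => (f : (P ⧸ K₁) → (P ⧸ K₁)))
      (fun a b hab => MulEquiv.ext fun x => congrFun hab x)
  refine ⟨(AutRes_c K₁).ker, inferInstance, ?_⟩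
  rintro ⟨α, hα⟩ hne
  have hR : ∀ β ∈ (AutRes_c K₁).ker, ∀ x : P, x⁻¹ * β x ∈ K₁ := by
    intro β hβ x
    rw [MonoidHom.mem_ker] at hβ
    have h1 : AutRes_c K₁ β (x : P ⧸ K₁) = (x : P ⧸ K₁) := by rw [hβ]; rfl
    rw [AutRes_c_mk] at h1
    exact QuotientGroup.eq.1 h1.symm
  have hα1 : α ≠ 1 := by
    intro h1
    apply hne
    exact Subtype.ext h1
  obtain ⟨x, hx⟩ : ∃ x, x⁻¹ * α x ≠ 1 := by
    by_contra hcon
    push Not at hcon
    apply hα1
    ext x
    have := hcon x
    rw [inv_mul_eq_one] at this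
    exact this.symm
  obtain ⟨K₀, hK₀, ⟨k₀, hk₀⟩, hxK₀⟩ := h _ hx
  have hfi₀ : K₀.FiniteIndex := ⟨by rw [hk₀]; exact pow_ne_zero _ hp.ne_zero⟩
  have hfin₀ : Finite (P ⧸ K₀) := Subgroup.finite_quotient_of_finiteIndex
  have hT₀ : IsPGroup p (P ⧸ K₀) := IsPGroup.iff_card.mpr ⟨k₀, by rw [← hk₀]; rfl⟩
  obtain ⟨K, hK, hfi, hker, hpow⟩ := exists_char_quot (P := P) (P ⧸ K₀)
  have hfinT : Finite (P ⧸ K) := Subgroup.finite_quotient_of_finiteIndex
  have hT : IsPGroup p (P ⧸ K) := by
    intro t
    induction t using QuotientGroup.induction_on with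
    | H z =>
      obtain ⟨k, hk⟩ := hpow p hp hT₀ z
      refine ⟨k, ?_⟩
      have : ((z ^ p ^ k : P) : P ⧸ K) = 1 := (QuotientGroup.eq_one_iff _).2 hk
      exact this
  have hxK : x⁻¹ * α x ∉ K := by
    intro h1
    have h2 := hker (QuotientGroup.mk' K₀) h1
    rw [QuotientGroup.ker_mk'] at h2
    exact hxK₀ h2
  have hfr : ∀ β ∈ (AutRes_c K₁).ker, ∀ t : P ⧸ K, t⁻¹ * (AutRes_c K β) t ∈ frattini (P ⧸ K) := by
    intro β hβ t
    induction t using QuotientGroup.induction_on with
    | H z =>
      rw [frattini, Order.radical]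
      simp only [Subgroup.mem_iInf]
      intro M hM
      have hMc : IsCoatom M := hM
      have hnil : Group.IsNilpotent (P ⧸ K) := hT.isNilpotent
      have hMn : M.Normal := Subgroup.NormalizerCondition.normal_of_coatom M
        Group.normalizerCondition_of_isNilpotent hMc
      have hMi := AutRes_index hp hT M hMc
      have e : (P ⧸ K) ⧸ M ≃* Multiplicative (ZMod p) :=
        mulEquivOfPrimeCardEq (p := p) hMi (by simp)
      have h3 := hker₁ ((e.toMonoidHom.comp (QuotientGroup.mk' M)).comp (QuotientGroup.mk' K))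
        (hR β hβ z)
      rw [MonoidHom.mem_ker] at h3
      have h4 : e (QuotientGroup.mk' M (QuotientGroup.mk' K (z⁻¹ * β z))) = e 1 := by
        rw [map_one]
        exact h3
      have h5 := e.injective h4
      exact (QuotientGroup.eq_one_iff _).1 h5
  set c : (AutRes_c K₁).ker →* MulAut (P ⧸ K) := (AutRes_c K).comp (AutRes_c K₁).ker.subtype with hc
  have hfinA : Finite (MulAut (P ⧸ K)) :=
    Finite.of_injective (fun f : MulAut (P ⧸ K) => (f : (P ⧸ K) → (P ⧸ K)))
      (fun a b hab => MulEquiv.ext fun x => congrFun hab x)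
  have hrange : IsPGroup p c.range := by
    rintro ⟨_, ⟨β, rfl⟩⟩
    obtain ⟨k, hk⟩ := pow_eq_one_of_frattini hp hT (c β) (hfr β.1 β.2)
    exact ⟨k, Subtype.ext hk⟩
  obtain ⟨k, hk⟩ := IsPGroup.iff_card.mp hrange
  refine ⟨c.ker, inferInstance, ⟨k, by rw [Subgroup.index_ker, hk]⟩, ?_⟩
  intro h1
  rw [MonoidHom.mem_ker] at h1
  apply hxK
  have h2 : AutRes_c K α (x : P ⧸ K) = (x : P ⧸ K) := by
    have : AutRes_c K α = 1 := h1
    rw [this]
    rfl
  rw [AutRes_c_mk] at h2
  exact QuotientGroup.eq.1 h2.symm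

end Pool.Agent.PHI
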