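import Mathlib

/-!
# TFfac: the factors of the upper central series of a torsion-free group are torsion-free

PROOF.  Induction on `i`; write `Z i = upperCentralSeries H i`.  `i = 0`: `x^m ∈ Z 0 = ⊥`, so `x = 1`.
Step `i = j + 1`: `x ∈ Z (j+2)`, `x^m ∈ Z (j+1)`.  Let `y : H` and `c = x y x⁻¹ y⁻¹ ∈ Z (j+1)`
(`mem_upperCentralSeries_succ_iff`).  Modulo `Z j` the element `c` is central, so
`x^m y x^(-m) y⁻¹ ≡ c^m mod Z j` (induction on `m`: `x (x^m y x^(-m)) x⁻¹ = x (c^m y) x⁻¹ ≡ c^m c y`); the left side is in `Z j`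
because `x^m ∈ Z (j+1)`.  So `c^m ∈ Z j`, `c ∈ Z (j+1)`, and by the induction hypothesis `c ∈ Z j`.  As `y` was
arbitrary, `x ∈ Z (j+1)`.
(Work in the quotient group `H ⧸ Z j`.)
-/

namespace Pool.Agent.PHI

/-- if `c` commutes with everything and `x y = c y x`, then `x^m y = c^m y x^m` -/
theorem TFfac_pow {K : Type*} [Group K] {x y c : K} (hc : ∀ g, c * g = g * c)
    (h : x * y = c * y * x) (m : ℕ) : x ^ m * y = c ^ m * y * x ^ m := by
  induction m with
  | zero => simp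
  | succ m ih =>
    have hcm : x * c ^ m = c ^ m * x := by
      have : Commute c x := hc x
      exact ((this.symm).pow_right m).eq
    calc x ^ (m + 1) * y = x * (x ^ m * y) := by rw [pow_succ', mul_assoc]
      _ = x * (c ^ m * y * x ^ m) := by rw [ih]
      _ = (x * c ^ m) * y * x ^ m := by group
      _ = c ^ m * (x * y) * x ^ m := by rw [hcm]; group
      _ = c ^ m * (c * y * x) * x ^ m := by rw [h]
      _ = c ^ (m + 1) * y * x ^ (m + 1) := by
          rw [pow_succ c m, pow_succ' x m]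
          group

theorem mem_upperCentralSeries_of_pow_mem {H : Type*} [Group H]
    (htf : ∀ x : H, ∀ m : ℕ, 0 < m → x ^ m = 1 → x = 1) (i : ℕ) (x : H)
    (hx : x ∈ Subgroup.upperCentralSeries H (i + 1)) (m : ℕ) (hm : 0 < m)
    (hxm : x ^ m ∈ Subgroup.upperCentralSeries H i) :
    x ∈ Subgroup.upperCentralSeries H i := by
  induction i generalizing x with
  | zero =>
    rw [Subgroup.upperCentralSeries_zero, Subgroup.mem_bot] at hxm ⊢
    exact htf x m hm hxm
  | succ j ih =>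
    rw [Subgroup.mem_upperCentralSeries_succ_iff] at hx hxm ⊢
    intro y
    have hc := hx y
    refine ih _ hc ?_
    -- the quotient by `Z j`
    set Z := Subgroup.upperCentralSeries H j with hZ
    have hcen : ∀ g : H, ((x * y * x⁻¹ * y⁻¹ : H) : H ⧸ Z) * (g : H ⧸ Z) =
        (g : H ⧸ Z) * ((x * y * x⁻¹ * y⁻¹ : H) : H ⧸ Z) := by
      intro g
      rw [Subgroup.mem_upperCentralSeries_succ_iff] at hc
      have h1 := hc g
      rw [← QuotientGroup.eq_one_iff] at h1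
      have h2 : ((x * y * x⁻¹ * y⁻¹ : H) : H ⧸ Z) * (g : H ⧸ Z) *
          ((x * y * x⁻¹ * y⁻¹ : H) : H ⧸ Z)⁻¹ * (g : H ⧸ Z)⁻¹ = 1 := h1
      rw [mul_inv_eq_one, mul_inv_eq_iff_eq_mul] at h2
      exact h2
    have hxy : ((x : H ⧸ Z)) * (y : H ⧸ Z) =
        ((x * y * x⁻¹ * y⁻¹ : H) : H ⧸ Z) * (y : H ⧸ Z) * (x : H ⧸ Z) := by
      rw [← QuotientGroup.mk_mul, ← QuotientGroup.mk_mul, ← QuotientGroup.mk_mul]
      congr 1
      group
    have hcen' : ∀ g : H ⧸ Z, ((x * y * x⁻¹ * y⁻¹ : H) : H ⧸ Z) * g =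
        g * ((x * y * x⁻¹ * y⁻¹ : H) : H ⧸ Z) := by
      intro g
      obtain ⟨g, rfl⟩ := QuotientGroup.mk_surjective g
      exact hcen g
    have hpow := TFfac_pow hcen' hxy m
    have h3 := hxm y
    rw [← QuotientGroup.eq_one_iff] at h3
    have h4 : (x : H ⧸ Z) ^ m * (y : H ⧸ Z) * ((x : H ⧸ Z) ^ m)⁻¹ * (y : H ⧸ Z)⁻¹ = 1 := h3
    rw [mul_inv_eq_one, mul_inv_eq_iff_eq_mul] at h4
    rw [h4, mul_assoc] at hpow
    have h5 : ((x * y * x⁻¹ * y⁻¹ : H) : H ⧸ Z) ^ m = 1 := by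
      have h6 := hpow.symm
      exact mul_eq_right.1 h6
    rw [← QuotientGroup.eq_one_iff]
    exact h5

end Pool.Agent.PHI
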