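import Pool.Agent.PHI.Clos
import Pool.Agent.PHI.TFfac

/-!
# CentI: `N` acts trivially on the factors of the upper central series of `N₀`

Compare module `Cent` (the case of abelian `N₀`, `i = 0`), whose proof is the model.
Notation: `Z i = (upperCentralSeries N₀ i).map N₀.subtype`, normal in `N` (characteristic in the normal subgroup `N₀`).

PROOF.  Let `g ∈ N`, `b ∈ Z (i+1)` and suppose `c = g b g⁻¹ b⁻¹ ∉ Z i`.  (`c ∈ Z (i+1)`.)  Let `s = N₀.index > 0`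
(`g^s ∈ N₀`), `p > s` a prime, `R` with `Res p R`, `m = R.index > 0` (`x^m ∈ R` for all `x ∈ N`).
CLAIM: for every admissible `L` there is `z ∈ Z i` with `z⁻¹ c^m ∈ L`.  Given the claim, `c^m ∈ Z i` by `mem_of_closed`
(`c^m ∈ R ⊓ N₀`), and `c ∈ Z i` by `mem_upperCentralSeries_of_pow_mem` in `N₀`: contradiction.
Proof of the claim.  `X = N ⧸ L` is nilpotent, `V` = image of `Z i` in `X` (normal), `Y = X ⧸ V` nilpotent, `π : N → Y` the
projection (`Y = N ⧸ (Z i ⊔ L)`).  The image `A` of `Z (i+1)` in `Y` is abelian and centralised by the image of `N₀`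
(commutators of `Z (i+1)` with `N₀` lie in `Z i`).  So on `A` conjugation by `π g` is an automorphism `γ` with `γ^s = 1`; put
`t = γ - 1` (additive notation), `A' = {m • t a : a ∈ A}`: this is the image of elements `(g b' g⁻¹ b'⁻¹)^m ∈ R`
(`b' ∈ Z (i+1)`; `π` of it is `(t a)^m`), so `A'` is a `p`-group, `p ∤ s`.  For `u = m • t a ∈ A'`:
`Σ_{j<s} γ^j u = m • (γ^s - 1) a = 0` and `γ^j - 1 = t Σ_{l<j} γ^l`, so `s • u = t(u')` with
`u' = - Σ_{j<s} Σ_{l<j} γ^l u ∈ A'` (`A'` is `γ`-invariant).  Since `p ∤ s`, `A' = s A' = t(A')`, i.e. every element of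
`A'` is a commutator `[π g, u']`, `u' ∈ A'`; by induction `A' ≤ lowerCentralSeries Y n` for all `n`, so `A' = 1`.  In
particular `π (c^m) = 1`, i.e. `c^m ∈ Z i ⊔ L`.
-/

namespace Pool.Agent.PHI

theorem CentI_exp {M : Type*} [CommGroup M] (T : M →* M) (γ : M → M) (hγ : ∀ w, γ w = T w * w)
    (n : ℕ) (x : M) : ∃ z : M, γ^[n] x = x * T x ^ n * T (T z) := by
  induction n with
  | zero => exact ⟨1, by simp⟩
  | succ n ih =>
    obtain ⟨z, hz⟩ := ih
    refine ⟨x ^ n * T z * z, ?_⟩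
    rw [Function.iterate_succ_apply', hz, hγ]
    simp only [map_mul, map_pow]
    rw [pow_succ]
    ac_rfl

/-- the main identity -/
theorem CentI_key {N : Type*} [Group N] (A : Subgroup N) [A.Normal]
    (hab : ∀ x ∈ A, ∀ y ∈ A, x * y = y * x) (g : N) (s m : ℕ)
    (hs : ∀ x ∈ A, g ^ s * x = x * g ^ s) (x : N)
    (hx : x ∈ A) : ∃ z ∈ A, ((g * x * g⁻¹ * x⁻¹) ^ m) ^ s =
      g * (g * z * g⁻¹ * z⁻¹) ^ m * g⁻¹ * ((g * z * g⁻¹ * z⁻¹) ^ m)⁻¹ := by
  let inst : CommGroup A :=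
    { (inferInstance : Group A) with
      mul_comm := fun a b => Subtype.ext (hab a.1 a.2 b.1 b.2) }
  let C : A →* A :=
    { toFun := fun w => ⟨g * w.1 * g⁻¹, ‹A.Normal›.conj_mem _ w.2 g⟩
      map_one' := Subtype.ext (by simp)
      map_mul' := fun a b => Subtype.ext (by simp) }
  let T : A →* A :=
    { toFun := fun w => C w * w⁻¹
      map_one' := by rw [map_one, inv_one, mul_one]
      map_mul' := fun a b => by
        rw [map_mul, mul_inv]
        exact mul_mul_mul_comm _ _ _ _ }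
  have hT : ∀ w, T w = C w * w⁻¹ := fun w => rfl
  have hTc : ∀ w : A, ((T w : A) : N) = g * w.1 * g⁻¹ * w.1⁻¹ := fun w => rfl
  have hC : ∀ w, C w = T w * w := fun w => by rw [hT, inv_mul_cancel_right]
  obtain ⟨z, hz⟩ := CentI_exp T C hC s ⟨x, hx⟩
  have hit : ∀ n : ℕ, ∀ w : A, ((C^[n] w : A) : N) = g ^ n * w.1 * (g ^ n)⁻¹ := by
    intro n w
    induction n with
    | zero => simp
    | succ n ih =>
      rw [Function.iterate_succ_apply']
      show g * ((C^[n] w : A) : N) * g⁻¹ = _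
      rw [ih, pow_succ']
      group
  have hfix : C^[s] ⟨x, hx⟩ = ⟨x, hx⟩ := by
    apply Subtype.ext
    rw [hit, hs _ hx]
    group
  rw [hfix] at hz
  have h1 : T ⟨x, hx⟩ ^ s * T (T z) = 1 := by
    have h2 : (⟨x, hx⟩ : A) * (T ⟨x, hx⟩ ^ s * T (T z)) = ⟨x, hx⟩ * 1 := by
      rw [mul_one, ← mul_assoc]
      exact hz.symm
    exact mul_left_cancel h2
  have h3 : T ⟨x, hx⟩ ^ s = T (T z⁻¹) := by
    rw [map_inv, map_inv]
    exact eq_inv_of_mul_eq_one_left h1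
  have h4 : (T ⟨x, hx⟩ ^ m) ^ s = T (T z⁻¹ ^ m) := by
    rw [← pow_mul, mul_comm m s, pow_mul, h3, map_pow]
  refine ⟨(z⁻¹ : A).1, (z⁻¹ : A).2, ?_⟩
  have h5 := congrArg (fun w : A => (w : N)) h4
  have e1 : (((T ⟨x, hx⟩ ^ m) ^ s : A) : N) = ((g * x * g⁻¹ * x⁻¹) ^ m) ^ s := rfl
  have e2 : ((T (T z⁻¹ ^ m) : A) : N) = g * (g * (z⁻¹ : A).1 * g⁻¹ * (z⁻¹ : A).1⁻¹) ^ m * g⁻¹ *
    ((g * (z⁻¹ : A).1 * g⁻¹ * (z⁻¹ : A).1⁻¹) ^ m)⁻¹ := rfl
  rw [← e1, ← e2]
  exact h5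

/-- the argument in the nilpotent quotient -/
theorem CentI_quot {Y : Type*} [Group Y] (hnil : Group.IsNilpotent Y) (A : Subgroup Y) [A.Normal]
    (hab : ∀ x ∈ A, ∀ y ∈ A, x * y = y * x) (g : Y) (s m p : ℕ) (hp : p.Prime) (hs0 : s ≠ 0)
    (hps : s < p) (hs : ∀ x ∈ A, g ^ s * x = x * g ^ s)
    (hpow : ∀ x ∈ A, ∃ k : ℕ, ((g * x * g⁻¹ * x⁻¹) ^ m) ^ (p ^ k) = 1) (x : Y) (hx : x ∈ A) :
    (g * x * g⁻¹ * x⁻¹) ^ m = 1 := by
  set B : Set Y := {u | ∃ x ∈ A, u = (g * x * g⁻¹ * x⁻¹) ^ m} with hB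
  set F : Subgroup Y := Subgroup.closure B with hF
  have hFc : F ≤ ⁅F, (⊤ : Subgroup Y)⁆ := by
    rw [hF, Subgroup.closure_le]
    rintro _ ⟨x, hx, rfl⟩
    rw [← hF]
    obtain ⟨z, hz, hk⟩ := CentI_key A hab g s m hs x hx
    obtain ⟨k, hk2⟩ := hpow x hx
    set u := (g * x * g⁻¹ * x⁻¹) ^ m with hu
    have hcop : Nat.Coprime s (orderOf u) := by
      have h1 : orderOf u ∣ p ^ k := orderOf_dvd_of_pow_eq_one hk2
      have h2 : Nat.Coprime s (p ^ k) := by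
        apply Nat.Coprime.pow_right
        rw [Nat.coprime_comm, hp.coprime_iff_not_dvd]
        intro h3
        have := Nat.le_of_dvd (Nat.pos_of_ne_zero hs0) h3
        omega
      exact h2.coprime_dvd_right h1
    obtain ⟨j, hj⟩ := exists_pow_eq_self_of_coprime hcop
    have hcm : u ^ s ∈ ⁅F, (⊤ : Subgroup Y)⁆ := by
      rw [hk, Subgroup.commutator_comm]
      have hv : (g * z * g⁻¹ * z⁻¹) ^ m ∈ F := Subgroup.subset_closure ⟨z, hz, rfl⟩
      have := Subgroup.commutator_mem_commutator (Subgroup.mem_top g) hv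
      rw [commutatorElement_def] at this
      exact this
    have := Subgroup.pow_mem _ hcm j
    rw [hj] at this
    exact this
  have hlcs : ∀ n : ℕ, F ≤ (⊤ : Subgroup Y).lowerCentralSeries n := by
    intro n
    induction n with
    | zero => exact le_top
    | succ n ih =>
      rw [Subgroup.lowerCentralSeries_succ]
      exact hFc.trans (Subgroup.commutator_mono ih le_rfl)
  obtain ⟨n, hn⟩ := Subgroup.nilpotent_iff_lowerCentralSeries.mp hnil
  have hbot := hlcs n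
  rw [hn, le_bot_iff] at hbot
  have hy : (g * x * g⁻¹ * x⁻¹) ^ m ∈ F := Subgroup.subset_closure ⟨x, hx, rfl⟩
  rw [hbot, Subgroup.mem_bot] at hy
  exact hy

theorem commutator_mem {N : Type*} [Group N] (N₀ : Subgroup N) [N₀.Normal] [N₀.FiniteIndex]
    (htf : ∀ x ∈ N₀, ∀ m : ℕ, 0 < m → x ^ m = 1 → x = 1)
    (h : ∀ p : ℕ, p.Prime → ∃ R : Subgroup N, Res p R) (i : ℕ) (g b : N)
    (hb : b ∈ (Subgroup.upperCentralSeries N₀ (i + 1)).map N₀.subtype) :
    g * b * g⁻¹ * b⁻¹ ∈ (Subgroup.upperCentralSeries N₀ i).map N₀.subtype := by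
  set Z1 : Subgroup N := (Subgroup.upperCentralSeries N₀ (i + 1)).map N₀.subtype with hZ1
  set Z0 : Subgroup N := (Subgroup.upperCentralSeries N₀ i).map N₀.subtype with hZ0
  have hZ1n : Z1.Normal := ConjAct.normal_of_characteristic_of_normal
  have hZ0n : Z0.Normal := ConjAct.normal_of_characteristic_of_normal
  have hZ1N : ∀ a ∈ Z1, a ∈ N₀ := by
    rintro _ ⟨a, _, rfl⟩
    exact a.2
  have hcomm : ∀ a ∈ Z1, ∀ n ∈ N₀, a * n * a⁻¹ * n⁻¹ ∈ Z0 := by
    rintro _ ⟨a, ha, rfl⟩ n hn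
    have h1 := Subgroup.mem_upperCentralSeries_succ_iff.1 ha ⟨n, hn⟩
    exact ⟨_, h1, rfl⟩
  have hcZ1 : g * b * g⁻¹ * b⁻¹ ∈ Z1 := Z1.mul_mem (hZ1n.conj_mem _ hb g) (Z1.inv_mem hb)
  have hs0 : N₀.index ≠ 0 := Subgroup.FiniteIndex.index_ne_zero
  obtain ⟨p, hps, hp⟩ := Nat.exists_infinite_primes (N₀.index + 1)
  obtain ⟨R, hR⟩ := h p hp
  obtain ⟨hRn, hRf, -⟩ := hR.1
  have hm0 : R.index ≠ 0 := hRf.index_ne_zero
  have hcm : (g * b * g⁻¹ * b⁻¹) ^ R.index ∈ Z0 := by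
    refine mem_of_closed N₀ R hR i _ (Subgroup.pow_index_mem R _)
      (N₀.pow_mem (hZ1N _ hcZ1) _) ?_
    intro L hLn hLf hpg hnil
    have hZLn : (Z0 ⊔ L).Normal := inferInstance
    set f := QuotientGroup.mk' (Z0 ⊔ L) with hf
    have hfZ : ∀ a ∈ Z0, f a = 1 := fun a ha =>
      (QuotientGroup.eq_one_iff a).2 (Subgroup.mem_sup_left ha)
    have hfL : ∀ a ∈ L, f a = 1 := fun a ha =>
      (QuotientGroup.eq_one_iff a).2 (Subgroup.mem_sup_right ha)
    have hYn : Group.IsNilpotent (N ⧸ (Z0 ⊔ L)) := by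
      have h1 : Function.Surjective (QuotientGroup.lift L f hfL) := by
        intro y
        obtain ⟨x, rfl⟩ := QuotientGroup.mk_surjective y
        exact ⟨(x : N ⧸ L), rfl⟩
      exact Group.nilpotent_of_surjective _ h1
    have hfc : ∀ a ∈ Z1, ∀ n ∈ N₀, f a * f n = f n * f a := by
      intro a ha n hn
      have h1 := hfZ _ (hcomm a ha n hn)
      rw [map_mul, map_mul, map_mul, map_inv, map_inv, mul_inv_eq_one, mul_inv_eq_iff_eq_mul] at h1
      exact h1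
    have hAn : (Z1.map f).Normal := hZ1n.map f (QuotientGroup.mk'_surjective _)
    have hfin := CentI_quot hYn (Z1.map f) (by
        rintro _ ⟨x, hx, rfl⟩ _ ⟨y, hy, rfl⟩
        exact hfc x hx y (hZ1N y hy)) (f g) N₀.index R.index p hp hs0 (by omega) (by
        rintro _ ⟨x, hx, rfl⟩
        rw [← map_pow]
        exact (hfc x hx _ (Subgroup.pow_index_mem N₀ g)).symm) (by
        rintro _ ⟨x, hx, rfl⟩
        have hmem : QuotientGroup.mk' L ((g * x * g⁻¹ * x⁻¹) ^ R.index) ∈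
            R.map (QuotientGroup.mk' L) := ⟨_, Subgroup.pow_index_mem R _, rfl⟩
        obtain ⟨k, hk⟩ := hpg ⟨_, hmem⟩
        refine ⟨k, ?_⟩
        have h1 : (QuotientGroup.mk' L) (((g * x * g⁻¹ * x⁻¹) ^ R.index) ^ (p ^ k)) = 1 :=
          congrArg Subtype.val hk
        have h2 := hfL _ ((QuotientGroup.eq_one_iff _).1 h1)
        rw [map_pow, map_pow, map_mul, map_mul, map_mul, map_inv, map_inv] at h2
        exact h2) (f b) ⟨b, hb, rfl⟩
    rw [← map_inv, ← map_inv, ← map_mul, ← map_mul, ← map_mul, ← map_pow] at hfin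
    have hmem := (QuotientGroup.eq_one_iff _).1 hfin
    rw [← SetLike.mem_coe, Subgroup.mul_normal] at hmem
    obtain ⟨z, hz, l, hl, hzl⟩ := hmem
    refine ⟨z, hz, ?_⟩
    have h3 : z * l = (g * b * g⁻¹ * b⁻¹) ^ R.index := hzl
    rw [← h3, inv_mul_cancel_left]
    exact hl
  obtain ⟨x, hx, hxc⟩ := hcZ1
  obtain ⟨y, hy, hyc⟩ := hcm
  have hxy : x ^ R.index = y := by
    apply Subtype.ext
    have h1 : (x : N) = g * b * g⁻¹ * b⁻¹ := hxc
    have h2 : (y : N) = (g * b * g⁻¹ * b⁻¹) ^ R.index := hyc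
    rw [h2, ← h1]
    rfl
  refine ⟨x, ?_, hxc⟩
  refine mem_upperCentralSeries_of_pow_mem ?_ i x hx R.index (Nat.pos_of_ne_zero hm0) ?_
  · intro w k hk hwk
    apply Subtype.ext
    exact htf w w.2 k hk (congrArg Subtype.val hwk)
  · rw [hxy]
    exact hy

end Pool.Agent.PHI
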