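import Pool.Agent.PHI.DefsF

/-!
# Clos: the upper central series of `N₀` is closed

Notation: `Z i = (upperCentralSeries N₀ i).map N₀.subtype ≤ N`.  THEOREM: let `R` satisfy `Res p R`.  If
`y ∈ R ⊓ N₀` and for every `L` as in `Res` (normal, of finite index, `R.map (mk' L)` a `p`-group, `N ⧸ L` nilpotent) there is
`z ∈ Z i` with `z⁻¹ y ∈ L`, then `y ∈ Z i`.

PROOF.  Induction on `i`, for all `y`.  `i = 0`: `z = 1`, so `y ∈ L` for all these `L`; if `y ≠ 1` then `Res p R` gives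
such an `L` with `y ∉ L`, contradiction; so `y = 1`.
`i + 1`: let `x ∈ N₀`; we show `y' = y x y⁻¹ x⁻¹ ∈ Z i` (this for all `x` gives `y ∈ Z (i+1)` by
`mem_upperCentralSeries_succ_iff` in the group `N₀`).  `y' ∈ R ⊓ N₀` (`R` is normal).  Let `L` be admissible and
`z ∈ Z (i+1)` with `z⁻¹ y ∈ L`; then `z' = z x z⁻¹ x⁻¹ ∈ Z i` and `z'⁻¹ y' ∈ L` (`L` normal: modulo `L`, `y = z`).  By the
induction hypothesis `y' ∈ Z i`.
-/

namespace Pool.Agent.PHI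

theorem mem_of_closed {N : Type*} [Group N] {p : ℕ} (N₀ R : Subgroup N) (hR : Res p R) (i : ℕ)
    (y : N) (hy : y ∈ R) (hy0 : y ∈ N₀)
    (h : ∀ L : Subgroup N, ∀ _ : L.Normal, L.FiniteIndex →
      IsPGroup p (R.map (QuotientGroup.mk' L)) → Group.IsNilpotent (N ⧸ L) →
      ∃ z ∈ (Subgroup.upperCentralSeries N₀ i).map N₀.subtype, z⁻¹ * y ∈ L) :
    y ∈ (Subgroup.upperCentralSeries N₀ i).map N₀.subtype := by
  induction i generalizing y with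
  | zero =>
    have hy1 : y = 1 := by
      by_contra hne
      obtain ⟨L, hL, hfi, hyL, hp, hnil⟩ := hR.2 y hy hne
      obtain ⟨z, hz, hzy⟩ := h L hL hfi hp hnil
      rw [Subgroup.upperCentralSeries_zero, Subgroup.map_bot, Subgroup.mem_bot] at hz
      subst hz
      apply hyL
      simpa using hzy
    subst hy1
    exact Subgroup.one_mem _
  | succ i ih =>
    obtain ⟨hRn, -, -⟩ := hR.1
    refine ⟨⟨y, hy0⟩, ?_, rfl⟩
    show (⟨y, hy0⟩ : N₀) ∈ Subgroup.upperCentralSeries N₀ (i + 1)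
    rw [Subgroup.mem_upperCentralSeries_succ_iff]
    rintro ⟨x, hx⟩
    have hy'0 : y * x * y⁻¹ * x⁻¹ ∈ N₀ :=
      N₀.mul_mem (N₀.mul_mem (N₀.mul_mem hy0 hx) (N₀.inv_mem hy0)) (N₀.inv_mem hx)
    have hy'R : y * x * y⁻¹ * x⁻¹ ∈ R := by
      have h1 : x * y⁻¹ * x⁻¹ ∈ R := hRn.conj_mem _ (R.inv_mem hy) x
      have h2 := R.mul_mem hy h1
      simpa [mul_assoc] using h2
    have key := ih (y * x * y⁻¹ * x⁻¹) hy'R hy'0 (by
      intro L hL hfi hp hnil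
      obtain ⟨z, hz, hzy⟩ := h L hL hfi hp hnil
      obtain ⟨⟨z0, hz0⟩, hz1, rfl⟩ := hz
      have hz2 : (⟨z0, hz0⟩ : N₀) ∈ Subgroup.upperCentralSeries N₀ (i + 1) := hz1
      rw [Subgroup.mem_upperCentralSeries_succ_iff] at hz2
      refine ⟨z0 * x * z0⁻¹ * x⁻¹, ⟨_, hz2 ⟨x, hx⟩, rfl⟩, ?_⟩
      have hzy' : z0⁻¹ * y ∈ L := hzy
      have e1 : ((z0 : N) : N ⧸ L) = (y : N ⧸ L) := QuotientGroup.eq.2 hzy'
      rw [← QuotientGroup.eq]
      simp only [QuotientGroup.mk_mul, QuotientGroup.mk_inv, e1])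
    obtain ⟨⟨w, hw⟩, hw1, hw2⟩ := key
    have hw3 : w = y * x * y⁻¹ * x⁻¹ := hw2
    subst hw3
    exact hw1

end Pool.Agent.PHI
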