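import Pool.Agent.PHI.DefsB

/-!
# ResP: finite quotients in which a finite index subgroup becomes a `p`-group

PROOF.  Let `R₀` be the finite index subgroup of `VirtResP p M` and `R = R₀.normalCore` (normal, finite index, `≤ R₀`).
Let `a ∈ R`, `a ≠ 1`, `L ≤ R₀` normal in `R₀` of index `p^k` with `a ∉ L`.  `L' = L.map R₀.subtype` has finite index
in `M`; `X = M ⧸ L'.normalCore` is finite, `f` the projection.  `a ∉ L'` so `f a ≠ 1`.
For `r ∈ R`: `r^(p^k) ∈ L'.normalCore`: for every `x ∈ M`, `x r x⁻¹ ∈ R ≤ R₀`, so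
`(x r x⁻¹)^(p^k) ∈ L'` (`Subgroup.pow_index_mem` in the group `R₀`), that is `x r^(p^k) x⁻¹ ∈ L'`.
So `R.map f` is a `p`-group.
-/

namespace Pool.Agent.PHI

theorem exists_quot {M : Type*} [Group M] {p : ℕ} (hp : p.Prime) (h : VirtResP p M) :
    ∃ R : Subgroup M, R.Normal ∧ R.FiniteIndex ∧ ∀ a ∈ R, a ≠ 1 →
      ∃ L : Subgroup M, ∃ _ : L.Normal, L.FiniteIndex ∧ a ∉ L ∧
        IsPGroup p (R.map (QuotientGroup.mk' L)) := by
  obtain ⟨R₀, hR₀, h'⟩ := h
  have := hR₀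
  refine ⟨R₀.normalCore, inferInstance, inferInstance, ?_⟩
  intro a ha ha1
  have haR : a ∈ R₀ := R₀.normalCore_le ha
  have ha2 : (⟨a, haR⟩ : R₀) ≠ 1 := fun h => ha1 (congrArg Subtype.val h)
  obtain ⟨L, hLn, ⟨k, hk⟩, haL⟩ := h' ⟨a, haR⟩ ha2
  have := hLn
  have hLf : L.FiniteIndex := ⟨by rw [hk]; exact pow_ne_zero _ hp.ne_zero⟩
  have hL'f : (L.map R₀.subtype).FiniteIndex := by
    constructor
    rw [Subgroup.index_map_subtype]
    exact mul_ne_zero Subgroup.FiniteIndex.index_ne_zero Subgroup.FiniteIndex.index_ne_zero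
  refine ⟨(L.map R₀.subtype).normalCore, inferInstance, inferInstance, ?_, ?_⟩
  · intro h1
    have h2 := (L.map R₀.subtype).normalCore_le h1
    obtain ⟨b, hb, hba⟩ := h2
    apply haL
    have h3 : b = ⟨a, haR⟩ := Subtype.ext hba
    rwa [← h3]
  · rintro ⟨_, r, hr, rfl⟩
    refine ⟨k, ?_⟩
    apply Subtype.ext
    show (QuotientGroup.mk' (L.map R₀.subtype).normalCore r) ^ p ^ k = 1
    rw [← map_pow, ← MonoidHom.mem_ker, QuotientGroup.ker_mk']
    intro x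
    have hx : x * r * x⁻¹ ∈ R₀ := hr x
    have h4 : (⟨x * r * x⁻¹, hx⟩ : R₀) ^ p ^ k ∈ L := by
      rw [← hk]
      exact Subgroup.pow_index_mem L _
    refine ⟨_, h4, ?_⟩
    show (x * r * x⁻¹) ^ p ^ k = x * r ^ p ^ k * x⁻¹
    exact conj_pow

end Pool.Agent.PHI
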