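import Pool.Agent.PHI.VirtN
import Pool.Agent.PHI.ResP

/-!
# FinOver: the strong nilpotency property passes to finite index overgroups

PROOF.  Let `G ≤ Γ`, `N ≤ G` with `FN N`.
(1) For each prime `p` there is `R ≤ N` with `Res p R` (as subgroup of the group `N`): take `R' ≤ Γ` from `exists_quot` (module
`ResP`) and `R = R'.comap j`, `j = G.subtype.comp N.subtype : N →* Γ` injective.  For `L' ≤ Γ` normal of finite index and
`L = L'.comap j`, the quotient `N ⧸ L` is isomorphic to the image of `N` under `f : G →* Γ ⧸ L'`, which is nilpotent by `FN N`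
(compare module `QuoN`; `Γ ⧸ L'` is finite).  In the same way `N ⧸ R` is nilpotent; `R.map (mk' L)` is a `p`-group because
`R'.map (mk' L')` is (compare the proof of `mainB`, file `MainB.lean`).
(2) Let `R₂, R₃ ≤ Γ` be the subgroups `R'` of `exists_quot` for `p = 2, 3`, and
`Δ = (Γ₀ ⊓ R₂ ⊓ R₃).normalCore`: normal, of finite index in `Γ`, `Δ ≤ Γ₀`.  `Δ` is torsion-free: if `a ∈ Δ`, `a ≠ 1`, has finite
order, then some power `b ≠ 1` of `a` has prime order `q`; `q ≠ 2` or `q ≠ 3`, say `q ≠ p ∈ {2,3}`; there is a finite quotient in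
which `b` survives and `R_p` becomes a `p`-group: the image of `b` has order `q` and a power of `p`, contradiction.
(3) Let `N₀ = Δ.comap j ≤ N`: normal, finite index, torsion-free.  `N₀` is nilpotent: let `G₁ = (Δ ⊓ G) ≤ Γ₀`, as a subgroup
`G₁'` of `Γ₀` and `N₁ ≤ G₁'` the subgroup corresponding to `N ⊓ Δ`.  `FN N₁`: let `f : G₁' →* X`, `X` finite; its kernel
corresponds to a finite index subgroup `K` of `G` (as `G₁` has finite index in `G`); let `K' = K.normalCore` (in `G`), normal of finite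
index in `G`, contained in the kernel.  The image of `N` in `G ⧸ K'` is nilpotent by `FN N` and the image of `N₁` under `f` is a
quotient of (the image of `N₁` in `G ⧸ K'`), a subgroup of it.  By the hypothesis `h : Strong Γ₀`, `N₁` is nilpotent, and
`N₀ ≃* N₁`.
(4) `isNilpotent_of_virt` gives that `N` is nilpotent.
-/

namespace Pool.Agent.PHI

universe u

theorem finOver_nilp_of_ker {A X Y : Type*} [Group A] [Group X] [Group Y] (g : A →* Y)
    (f : A →* X) (hk : g.ker ≤ f.ker) (hn : Group.IsNilpotent g.range) :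
    Group.IsNilpotent f.range := by
  have h1 : Group.IsNilpotent (A ⧸ g.ker) :=
    Group.nilpotent_of_mulEquiv (QuotientGroup.quotientKerEquivRange g).symm
  let φ : A ⧸ g.ker →* f.range := QuotientGroup.lift g.ker f.rangeRestrict (by
    intro x hx
    have h2 : x ∈ f.ker := hk hx
    exact Subtype.ext h2)
  have hφ : Function.Surjective φ := by
    intro y
    obtain ⟨x, hx⟩ := f.rangeRestrict_surjective y
    exact ⟨(x : A ⧸ g.ker), hx⟩
  exact Group.nilpotent_of_surjective φ hφ

theorem finOver_quot {Γ : Type u} [Group Γ] (G : Subgroup Γ) (N : Subgroup G) (hN : FN N)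
    (L : Subgroup Γ) [L.Normal] [L.FiniteIndex] :
    Group.IsNilpotent (N ⧸ (L.comap (G.subtype.comp N.subtype))) := by
  let f : G →* Γ ⧸ L := (QuotientGroup.mk' L).comp G.subtype
  have hfin : Finite (Γ ⧸ L) := Subgroup.finite_quotient_of_finiteIndex
  have hN' : Group.IsNilpotent (N.map f) := hN _ f
  let σ : N →* N.map f := f.subgroupMap N
  have hσ : Function.Surjective σ := f.subgroupMap_surjective N
  have hker : σ.ker = L.comap (G.subtype.comp N.subtype) := by
    ext x
    rw [MonoidHom.mem_ker, Subgroup.mem_comap]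
    have h1 : σ x = 1 ↔ f (x : G) = 1 := by
      rw [Subtype.ext_iff]
      rfl
    rw [h1]
    show ((QuotientGroup.mk' L) (G.subtype (x : G))) = 1 ↔ _
    rw [QuotientGroup.mk'_apply, QuotientGroup.eq_one_iff]
    rfl
  have e : N ⧸ (L.comap (G.subtype.comp N.subtype)) ≃* N.map f :=
    (QuotientGroup.quotientMulEquivOfEq hker.symm).trans
      (QuotientGroup.quotientKerEquivOfSurjective σ hσ)
  exact Group.nilpotent_of_mulEquiv e.symm

theorem finOver_comap {G M : Type*} [Group G] [Group M] (f : G →* M) (R : Subgroup M)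
    [R.FiniteIndex] : (R.comap f).FiniteIndex := by
  constructor
  rw [Subgroup.index_comap]
  exact (inferInstance : (R.subgroupOf f.range).FiniteIndex).index_ne_zero

theorem finOver_res {Γ : Type u} [Group Γ] (G : Subgroup Γ) (N : Subgroup G) (hN : FN N)
    {p : ℕ} (hp : p.Prime) (h3 : VirtResP p Γ) : ∃ R : Subgroup N, Res p R := by
  obtain ⟨R, hRn, hRf, hR⟩ := exists_quot hp h3
  have := hRn
  have := hRf
  have hGinj : Function.Injective G.subtype := G.subtype_injective
  have hNinj : Function.Injective N.subtype := N.subtype_injective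
  have hinj : Function.Injective (G.subtype.comp N.subtype) := hGinj.comp hNinj
  refine ⟨R.comap (G.subtype.comp N.subtype),
    ⟨inferInstance, finOver_comap _ _, finOver_quot G N hN R⟩, ?_⟩
  intro a ha ha1
  have ha1' : (G.subtype.comp N.subtype) a ≠ 1 := by
    intro h0
    apply ha1
    apply hinj
    rw [h0, map_one]
  obtain ⟨L, hLn, hLf, haL, hLp⟩ := hR _ ha ha1'
  have := hLn
  have := hLf
  refine ⟨L.comap (G.subtype.comp N.subtype), inferInstance, finOver_comap _ _, haL, ?_,
    finOver_quot G N hN L⟩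
  rintro ⟨_, r, hr, rfl⟩
  obtain ⟨k, hk⟩ := hLp ⟨QuotientGroup.mk' L ((G.subtype.comp N.subtype) r),
    ⟨(G.subtype.comp N.subtype) r, hr, rfl⟩⟩
  refine ⟨k, ?_⟩
  have hk' : (QuotientGroup.mk' L) (((G.subtype.comp N.subtype) r) ^ p ^ k) = 1 := by
    have := congrArg Subtype.val hk
    simpa using this
  have hk2 : ((G.subtype.comp N.subtype) r) ^ p ^ k ∈ L := by
    rwa [← MonoidHom.mem_ker, QuotientGroup.ker_mk'] at hk'
  apply Subtype.ext
  have hk3 : r ^ p ^ k ∈ L.comap (G.subtype.comp N.subtype) := by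
    rw [Subgroup.mem_comap, map_pow]
    exact hk2
  have : (QuotientGroup.mk' (L.comap (G.subtype.comp N.subtype))) (r ^ p ^ k) = 1 := by
    rw [← MonoidHom.mem_ker, QuotientGroup.ker_mk']
    exact hk3
  simpa using this

/-- An element of prime order `q` does not lie in a subgroup as in `exists_quot`, `p ≠ q`. -/
theorem finOver_prime {Γ : Type u} [Group Γ] {p q : ℕ} (hp : p.Prime) (hq : q.Prime)
    (hpq : p ≠ q) (R : Subgroup Γ) (hR : ∀ a ∈ R, a ≠ 1 →
      ∃ L : Subgroup Γ, ∃ _ : L.Normal, L.FiniteIndex ∧ a ∉ L ∧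
        IsPGroup p (R.map (QuotientGroup.mk' L))) (b : Γ) (hb : b ∈ R) (hbq : b ^ q = 1) :
    b = 1 := by
  by_contra hb1
  obtain ⟨L, hLn, hLf, hbL, hLp⟩ := hR b hb hb1
  have := hLn
  obtain ⟨k, hk⟩ := hLp ⟨QuotientGroup.mk' L b, ⟨b, hb, rfl⟩⟩
  have hk' : (QuotientGroup.mk' L b) ^ p ^ k = 1 := by
    have := congrArg Subtype.val hk
    simpa using this
  have hq' : (QuotientGroup.mk' L b) ^ q = 1 := by
    rw [← map_pow, hbq, map_one]
  have hco : Nat.Coprime (p ^ k) q := Nat.Coprime.pow_left k ((Nat.coprime_primes hp hq).mpr hpq)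
  have h1 : orderOf (QuotientGroup.mk' L b) ∣ 1 := by
    rw [← hco]
    exact Nat.dvd_gcd (orderOf_dvd_of_pow_eq_one hk') (orderOf_dvd_of_pow_eq_one hq')
  have h2 : QuotientGroup.mk' L b = 1 := by
    rw [← orderOf_eq_one_iff]
    exact Nat.dvd_one.mp h1
  apply hbL
  rwa [← MonoidHom.mem_ker, QuotientGroup.ker_mk'] at h2

theorem finOver_torsionFree {Γ : Type u} [Group Γ] (Γ₀ : Subgroup Γ) [Γ₀.FiniteIndex]
    (hr : ∀ p : ℕ, p.Prime → VirtResP p Γ) :
    ∃ D : Subgroup Γ, D.Normal ∧ D.FiniteIndex ∧ D ≤ Γ₀ ∧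
      ∀ x ∈ D, ∀ m : ℕ, 0 < m → x ^ m = 1 → x = 1 := by
  obtain ⟨R2, hn2, hf2, hR2⟩ := exists_quot Nat.prime_two (hr 2 Nat.prime_two)
  obtain ⟨R3, hn3, hf3, hR3⟩ := exists_quot Nat.prime_three (hr 3 Nat.prime_three)
  have := hf2
  have := hf3
  have hle : (Γ₀ ⊓ R2 ⊓ R3).normalCore ≤ Γ₀ ⊓ R2 ⊓ R3 := Subgroup.normalCore_le _
  refine ⟨(Γ₀ ⊓ R2 ⊓ R3).normalCore, inferInstance, inferInstance,
    fun x hx => (hle hx).1.1, ?_⟩
  intro x hx m hm hxm
  by_contra hx1
  have hfin : IsOfFinOrder x := isOfFinOrder_iff_pow_eq_one.mpr ⟨m, hm, hxm⟩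
  have hn : orderOf x ≠ 1 := by
    rw [Ne, orderOf_eq_one_iff]
    exact hx1
  obtain ⟨q, hq, c, hc⟩ := Nat.exists_prime_and_dvd hn
  have hpos : 0 < orderOf x := hfin.orderOf_pos
  have hc0 : 0 < c := by
    rcases Nat.eq_zero_or_pos c with h0 | h0
    · rw [h0, mul_zero] at hc
      omega
    · exact h0
  have hbq : (x ^ c) ^ q = 1 := by
    rw [← pow_mul, mul_comm c q, ← hc, pow_orderOf_eq_one]
  have hb1 : x ^ c ≠ 1 := by
    intro h0
    have h1 := Nat.le_of_dvd hc0 (orderOf_dvd_of_pow_eq_one h0)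
    rw [hc] at h1
    have h2 := hq.two_le
    nlinarith
  have hbD := hle (Subgroup.pow_mem _ hx c)
  by_cases hq2 : q = 2
  · exact hb1 (finOver_prime Nat.prime_three hq (by omega) R3 hR3 _ hbD.2 hbq)
  · exact hb1 (finOver_prime Nat.prime_two hq (fun h => hq2 h.symm) R2 hR2 _ hbD.1.2 hbq)

theorem finOver_nilp {Γ : Type u} [Group Γ] (Γ₀ : Subgroup Γ) [Γ₀.FiniteIndex]
    (h : Strong Γ₀) (D : Subgroup Γ) (hD : D ≤ Γ₀) (G : Subgroup Γ) (N : Subgroup G)
    (hN : FN N) : Group.IsNilpotent (D.comap (G.subtype.comp N.subtype)) := by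
  -- the subgroup `N₁` of `G ⊓ Γ₀`
  let G₁ : Subgroup Γ₀ := G.subgroupOf Γ₀
  let ι : G₁ →* G :=
    { toFun := fun x => ⟨((x : Γ₀) : Γ), x.2⟩
      map_one' := rfl
      map_mul' := fun _ _ => rfl }
  let N₁ : Subgroup G₁ := (N ⊓ D.comap G.subtype).comap ι
  have hFN : FN N₁ := by
    intro X _ _ f
    let KΓ : Subgroup Γ := (f.ker.map G₁.subtype).map Γ₀.subtype
    have hfk : f.ker.FiniteIndex := inferInstance
    -- finite index in `G`
    have hKG : (KΓ.subgroupOf G).FiniteIndex := by
      constructor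
      show KΓ.relIndex G ≠ 0
      have h1 : KΓ ≤ Γ₀ ⊓ G := by
        rintro _ ⟨_, ⟨x, -, rfl⟩, rfl⟩
        exact ⟨(x : Γ₀).2, x.2⟩
      have h2 : KΓ.relIndex (Γ₀ ⊓ G) ≠ 0 := by
        have h3 : (f.ker.map G₁.subtype).relIndex G₁ = f.ker.index := by
          show ((f.ker.map G₁.subtype).subgroupOf G₁).index = _
          congr 1
          ext x
          rw [Subgroup.mem_subgroupOf]
          constructor
          · rintro ⟨y, hy, hyx⟩
            have : y = x := Subtype.ext hyx
            rw [← this]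
            exact hy
          · intro hx
            exact ⟨x, hx, rfl⟩
        have h4 : G₁.map Γ₀.subtype = Γ₀ ⊓ G := by
          ext x
          constructor
          · rintro ⟨y, hy, rfl⟩
            exact ⟨y.2, hy⟩
          · rintro ⟨h5, h6⟩
            exact ⟨⟨x, h5⟩, h6, rfl⟩
        have h5 : ((f.ker.map G₁.subtype).map Γ₀.subtype).relIndex (G₁.map Γ₀.subtype) =
            (f.ker.map G₁.subtype).relIndex G₁ :=
          Subgroup.relIndex_map_map_of_injective _ _ Γ₀.subtype_injective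
        rw [← h4]
        show ((f.ker.map G₁.subtype).map Γ₀.subtype).relIndex (G₁.map Γ₀.subtype) ≠ 0
        rw [h5, h3]
        exact hfk.index_ne_zero
      have h3 : (Γ₀ ⊓ G).relIndex G ≠ 0 := by
        rw [Subgroup.inf_relIndex_right]
        exact (inferInstance : (Γ₀.subgroupOf G).FiniteIndex).index_ne_zero
      exact Subgroup.relIndex_ne_zero_trans h2 h3
    let K' : Subgroup G := (KΓ.subgroupOf G).normalCore
    have hK'n : K'.Normal := Subgroup.normalCore_normal _
    have hK'f : K'.FiniteIndex := by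
      have := hKG
      exact Subgroup.finiteIndex_normalCore _
    have hfin : Finite (G ⧸ K') := Subgroup.finite_quotient_of_finiteIndex
    have h1 : Group.IsNilpotent (N.map (QuotientGroup.mk' K')) := hN _ (QuotientGroup.mk' K')
    let g : G₁ →* G ⧸ K' := (QuotientGroup.mk' K').comp ι
    have hgf : g.ker ≤ f.ker := by
      intro x hx
      have h2 : ι x ∈ K' := by
        rw [← QuotientGroup.ker_mk' K']
        exact hx
      have h3 : ι x ∈ KΓ.subgroupOf G := Subgroup.normalCore_le _ h2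
      obtain ⟨_, ⟨y, hy, rfl⟩, hyx⟩ := h3
      have h4 : y = x := by
        apply Subtype.ext
        apply Subtype.ext
        exact hyx
      rw [← h4]
      exact hy
    have h2 : N₁.map g ≤ N.map (QuotientGroup.mk' K') := by
      rintro _ ⟨x, hx, rfl⟩
      exact ⟨ι x, hx.1, rfl⟩
    have h3 : Group.IsNilpotent (N₁.map g) := by
      have := Subgroup.isNilpotent ((N₁.map g).subgroupOf (N.map (QuotientGroup.mk' K')))
      exact Group.nilpotent_of_mulEquiv (Subgroup.subgroupOfEquivOfLe h2)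
    have h4 : (g.comp N₁.subtype).range = N₁.map g := by
      rw [MonoidHom.range_comp, Subgroup.range_subtype]
    have h5 : (f.comp N₁.subtype).range = N₁.map f := by
      rw [MonoidHom.range_comp, Subgroup.range_subtype]
    rw [← h5]
    apply finOver_nilp_of_ker (g.comp N₁.subtype) (f.comp N₁.subtype)
    · intro x hx
      exact hgf hx
    · rw [h4]
      exact h3
  have hnil : Group.IsNilpotent N₁ := h G₁ N₁ hFN
  let ψ : (D.comap (G.subtype.comp N.subtype)) →* N₁ :=
    { toFun := fun x => ⟨⟨⟨(((x : N) : G) : Γ), hD x.2⟩, ((x : N) : G).2⟩,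
        ⟨(x : N).2, x.2⟩⟩
      map_one' := rfl
      map_mul' := fun _ _ => rfl }
  have hψ : Function.Injective ψ := by
    intro x y hxy
    have h1 : (((x : N) : G) : Γ) = (((y : N) : G) : Γ) :=
      congrArg (fun z : N₁ => (((z : G₁) : Γ₀) : Γ)) hxy
    exact Subtype.ext (Subtype.ext (Subtype.ext h1))
  have := Subgroup.isNilpotent ψ.range
  exact Group.nilpotent_of_mulEquiv (MonoidHom.ofInjective hψ).symm

theorem strong_of_finiteIndex {Γ : Type u} [Group Γ] (Γ₀ : Subgroup Γ) [Γ₀.FiniteIndex]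
    (h : Strong Γ₀) (hr : ∀ p : ℕ, p.Prime → VirtResP p Γ) : Strong Γ := by
  intro G N hN
  obtain ⟨D, hDn, hDf, hD, htf⟩ := finOver_torsionFree Γ₀ hr
  have := hDn
  have := hDf
  have h1 := finOver_nilp Γ₀ h D hD G N hN
  have h2 : (D.comap (G.subtype.comp N.subtype)).FiniteIndex := finOver_comap _ _
  refine isNilpotent_of_virt (D.comap (G.subtype.comp N.subtype)) h1 ?_
    (fun p hp => finOver_res G N hN hp (hr p hp))
  intro x hx m hm hxm
  have h3 : (G.subtype.comp N.subtype) x = 1 := by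
    apply htf _ hx m hm
    rw [← map_pow, hxm, map_one]
  have hinj : Function.Injective (G.subtype.comp N.subtype) :=
    G.subtype_injective.comp N.subtype_injective
  apply hinj
  rw [h3, map_one]

end Pool.Agent.PHI
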