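import Mathlib

/-!
# PingP: a free group of infinite rank in the level `c` congruence subgroup of `SL(2, ℤ)`, `c ≥ 6`

Same as module `Ping` (which is the case `c = 6`, level `3`; take its proof as model): generators
`a i = T^i L T^(-i)`, `L = !![1, 0; c, 1]`, i.e. `a i = !![1 + c i, -c i^2; c, 1 - c i]`, equal to `1` modulo `c`.
Ping-pong with the same sets `X i`, `Y i` (with `t = x - i y` the generator `a i` is `t ↦ t`, `y ↦ y + c t`).
Then the reduction to `ZMod p` is trivial for `p ∣ c` (take `c = 6 * p`).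
-/

namespace Pool.Agent.PHI

open Matrix MatrixGroups

/-- the generators -/
def PingP_a (c : ℤ) (i : ℕ) : SL(2, ℤ) :=
  ⟨!![1 + c * (i : ℤ), -c * (i : ℤ) ^ 2; c, 1 - c * (i : ℤ)], by
    rw [Matrix.det_fin_two_of]; ring⟩

theorem PingP_a00 (c : ℤ) (i : ℕ) : (PingP_a c i) 0 0 = 1 + c * (i : ℤ) := rfl
theorem PingP_a01 (c : ℤ) (i : ℕ) : (PingP_a c i) 0 1 = -c * (i : ℤ) ^ 2 := rfl
theorem PingP_a10 (c : ℤ) (i : ℕ) : (PingP_a c i) 1 0 = c := rfl
theorem PingP_a11 (c : ℤ) (i : ℕ) : (PingP_a c i) 1 1 = 1 - c * (i : ℤ) := rfl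

/-- the sets `X i` -/
def PingP_X (i : ℕ) : Set SL(2, ℤ) :=
  {g | g 1 0 ≠ 0 ∧ 0 ≤ 2 * g 1 0 * (g 0 0 - i * g 1 0) ∧
    2 * g 1 0 * (g 0 0 - i * g 1 0) < g 1 0 ^ 2}

/-- the sets `Y i` -/
def PingP_Y (i : ℕ) : Set SL(2, ℤ) :=
  {g | -(g 1 0 ^ 2) < 2 * g 1 0 * (g 0 0 - i * g 1 0) ∧ 2 * g 1 0 * (g 0 0 - i * g 1 0) < 0}

theorem PingP_key (c t y : ℤ) (hc : 6 ≤ c) (h0 : ¬ (t = 0 ∧ y = 0))
    (h : ¬ (-(y ^ 2) < 2 * y * t ∧ 2 * y * t < 0)) :
    y + c * t ≠ 0 ∧ 0 ≤ 2 * (y + c * t) * t ∧ 2 * (y + c * t) * t < (y + c * t) ^ 2 := by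
  have hpos : 0 < y ^ 2 + t ^ 2 := by
    by_contra hc
    push Not at hc
    have h1 : y = 0 := by nlinarith [sq_nonneg y, sq_nonneg t]
    have h2 : t = 0 := by nlinarith [sq_nonneg y, sq_nonneg t]
    exact h0 ⟨h2, h1⟩
  have hk : -(2 * t ^ 2) ≤ y * t := by
    by_cases h1 : 0 ≤ 2 * y * t
    · nlinarith [sq_nonneg t]
    · push Not at h1
      have h2 : 2 * y * t ≤ -(y ^ 2) := by
        by_contra hc
        push Not at hc
        exact h ⟨hc, h1⟩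
      by_contra hc
      push Not at hc
      nlinarith [sq_nonneg (y + 2 * t)]
  have ht : 0 ≤ t ^ 2 := sq_nonneg t
  have hy : 0 ≤ y ^ 2 := sq_nonneg y
  have h3 : 2 * (y + c * t) * t < (y + c * t) ^ 2 := by
    have e : (y + c * t) ^ 2 - 2 * (y + c * t) * t =
        y ^ 2 + (2 * c - 2) * (y * t + 2 * t ^ 2) + (c * (c - 6) + 4) * t ^ 2 := by ring
    have p1 : 0 ≤ (2 * c - 2) * (y * t + 2 * t ^ 2) :=
      mul_nonneg (by linarith) (by linarith)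
    have p2 : t ^ 2 ≤ (c * (c - 6) + 4) * t ^ 2 := by
      have : 0 ≤ c * (c - 6) := mul_nonneg (by linarith) (by linarith)
      nlinarith
    linarith
  have h2 : 0 ≤ 2 * (y + c * t) * t := by
    have e : 2 * (y + c * t) * t = 2 * (y * t + 2 * t ^ 2) + (2 * c - 4) * t ^ 2 := by ring
    have p2 : 0 ≤ (2 * c - 4) * t ^ 2 := mul_nonneg (by linarith) ht
    linarith
  refine ⟨?_, h2, h3⟩
  intro h4
  rw [h4] at h3
  simp at h3

theorem PingP_key' (c t y : ℤ) (hc : 6 ≤ c) (h0 : ¬ (t = 0 ∧ y = 0))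
    (h : ¬ (y ≠ 0 ∧ 0 ≤ 2 * y * t ∧ 2 * y * t < y ^ 2)) :
    -((y - c * t) ^ 2) < 2 * (y - c * t) * t ∧ 2 * (y - c * t) * t < 0 := by
  have hpos : 0 < y ^ 2 + t ^ 2 := by
    by_contra hc
    push Not at hc
    have h1 : y = 0 := by nlinarith [sq_nonneg y, sq_nonneg t]
    have h2 : t = 0 := by nlinarith [sq_nonneg y, sq_nonneg t]
    exact h0 ⟨h2, h1⟩
  have hk : y * t ≤ 2 * t ^ 2 ∧ y * t < 6 * t ^ 2 := by
    by_cases hy : y = 0
    · subst hy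
      have : 0 < t ^ 2 := by simpa using hpos
      constructor <;> nlinarith
    by_cases h1 : 2 * y * t < 0
    · constructor <;> nlinarith [sq_nonneg t]
    · push Not at h1
      have h2 : y ^ 2 ≤ 2 * y * t := by
        by_contra hc
        push Not at hc
        exact h ⟨hy, h1, hc⟩
      have h3 : y * t ≤ 2 * t ^ 2 := by
        by_contra hc
        push Not at hc
        nlinarith [sq_nonneg (y - 2 * t)]
      refine ⟨h3, ?_⟩
      have h4 : 0 < t ^ 2 := by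
        rcases (sq_nonneg t).lt_or_eq with h5 | h5
        · exact h5
        · have h6 : t = 0 := by
            exact pow_eq_zero_iff (two_ne_zero) |>.1 h5.symm
          subst h6
          nlinarith [sq_nonneg y]
      nlinarith
  have ht : 0 ≤ t ^ 2 := sq_nonneg t
  have hy : 0 ≤ y ^ 2 := sq_nonneg y
  constructor
  · have e : (y - c * t) ^ 2 + 2 * (y - c * t) * t =
        y ^ 2 + (2 * c - 2) * (2 * t ^ 2 - y * t) + (c * (c - 6) + 4) * t ^ 2 := by ring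
    have p1 : 0 ≤ (2 * c - 2) * (2 * t ^ 2 - y * t) :=
      mul_nonneg (by linarith) (by linarith [hk.1])
    have p2 : t ^ 2 ≤ (c * (c - 6) + 4) * t ^ 2 := by
      have : 0 ≤ c * (c - 6) := mul_nonneg (by linarith) (by linarith)
      nlinarith
    linarith
  · have e : 2 * (y - c * t) * t = 2 * (y * t - 6 * t ^ 2) - 2 * ((c - 6) * t ^ 2) := by ring
    have p2 : 0 ≤ (c - 6) * t ^ 2 := mul_nonneg (by linarith) ht
    linarith [hk.2]

theorem PingP_ne (i : ℕ) (g : SL(2, ℤ)) : ¬ (g 0 0 - i * g 1 0 = 0 ∧ g 1 0 = 0) := by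
  rintro ⟨h1, h2⟩
  have h3 := g.det_coe
  rw [Matrix.det_fin_two] at h3
  rw [h2] at h1 h3
  simp at h1
  rw [h1] at h3
  simp at h3

theorem PingP_mul (c : ℤ) (i : ℕ) (g : SL(2, ℤ)) :
    (PingP_a c i * g) 1 0 = g 1 0 + c * (g 0 0 - i * g 1 0) ∧
    (PingP_a c i * g) 0 0 - i * (PingP_a c i * g) 1 0 = g 0 0 - i * g 1 0 := by
  have h1 : (PingP_a c i * g) 1 0 = g 1 0 + c * (g 0 0 - i * g 1 0) := by
    rw [Matrix.SpecialLinearGroup.coe_mul, Matrix.mul_apply, Fin.sum_univ_two, PingP_a10, PingP_a11]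
    ring
  have h2 : (PingP_a c i * g) 0 0 = (1 + c * (i : ℤ)) * g 0 0 + -c * (i : ℤ) ^ 2 * g 1 0 := by
    rw [Matrix.SpecialLinearGroup.coe_mul, Matrix.mul_apply, Fin.sum_univ_two, PingP_a00, PingP_a01]
  refine ⟨h1, ?_⟩
  rw [h1, h2]
  ring

theorem PingP_inv_mul (c : ℤ) (i : ℕ) (g : SL(2, ℤ)) :
    ((PingP_a c i)⁻¹ * g) 1 0 = g 1 0 - c * (g 0 0 - i * g 1 0) ∧
    ((PingP_a c i)⁻¹ * g) 0 0 - i * ((PingP_a c i)⁻¹ * g) 1 0 = g 0 0 - i * g 1 0 := by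
  have h := PingP_mul c i ((PingP_a c i)⁻¹ * g)
  rw [mul_inv_cancel_left] at h
  obtain ⟨h1, h2⟩ := h
  refine ⟨?_, h2.symm⟩
  rw [← h2] at h1
  linarith

theorem PingP_apart {i j : ℕ} (hij : i ≠ j) {y A : ℤ} (hy : 0 < y ^ 2)
    (h1 : -(y ^ 2) < A - (A + 2 * ((i : ℤ) - j) * y ^ 2))
    (h2 : A - (A + 2 * ((i : ℤ) - j) * y ^ 2) < y ^ 2) : False := by
  rcases lt_or_gt_of_ne hij with h | h
  · have h3 : (i : ℤ) - j ≤ -1 := by omega
    nlinarith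
  · have h3 : (1 : ℤ) ≤ (i : ℤ) - j := by omega
    nlinarith

theorem exists_free_embedding_mod (p : ℕ) (hp : p.Prime) :
    ∃ η : FreeGroup ℕ →* SL(2, ℤ), Function.Injective η ∧
      ∀ w, Matrix.SpecialLinearGroup.map (Int.castRingHom (ZMod p)) (η w) = 1 := by
  have hp1 : (1 : ℤ) ≤ p := by exact_mod_cast hp.one_lt.le
  have hc6 : (6 : ℤ) ≤ 6 * (p : ℤ) := by linarith
  refine ⟨FreeGroup.lift (PingP_a (6 * (p : ℤ))), ?_, ?_⟩
  · refine FreeGroup.injective_lift_of_ping_pong (α := SL(2, ℤ)) (PingP_a (6 * (p : ℤ))) PingP_X PingP_Y ?_ ?_ ?_ ?_ ?_ ?_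
    · intro i
      refine ⟨⟨!![(i : ℤ), -1; 1, 0], by rw [Matrix.det_fin_two_of]; ring⟩, ?_⟩
      show (1 : ℤ) ≠ 0 ∧ 0 ≤ 2 * (1 : ℤ) * ((i : ℤ) - i * 1) ∧ 2 * (1 : ℤ) * ((i : ℤ) - i * 1) < 1 ^ 2
      simp
    · intro i j hij
      rw [Function.onFun, Set.disjoint_left]
      rintro g ⟨hy, h1, h2⟩ ⟨-, h3, h4⟩
      have hy2 : 0 < g 1 0 ^ 2 := by positivity
      refine PingP_apart hij hy2 (A := 2 * g 1 0 * (g 0 0 - i * g 1 0)) ?_ ?_
      · have : 2 * g 1 0 * (g 0 0 - i * g 1 0) + 2 * ((i : ℤ) - j) * g 1 0 ^ 2 =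
          2 * g 1 0 * (g 0 0 - j * g 1 0) := by ring
        rw [this]; linarith
      · have : 2 * g 1 0 * (g 0 0 - i * g 1 0) + 2 * ((i : ℤ) - j) * g 1 0 ^ 2 =
          2 * g 1 0 * (g 0 0 - j * g 1 0) := by ring
        rw [this]; linarith
    · intro i j hij
      rw [Function.onFun, Set.disjoint_left]
      rintro g ⟨h1, h2⟩ ⟨h3, h4⟩
      have hy2 : 0 < g 1 0 ^ 2 := by linarith
      refine PingP_apart hij hy2 (A := 2 * g 1 0 * (g 0 0 - i * g 1 0)) ?_ ?_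
      · have : 2 * g 1 0 * (g 0 0 - i * g 1 0) + 2 * ((i : ℤ) - j) * g 1 0 ^ 2 =
          2 * g 1 0 * (g 0 0 - j * g 1 0) := by ring
        rw [this]; linarith
      · have : 2 * g 1 0 * (g 0 0 - i * g 1 0) + 2 * ((i : ℤ) - j) * g 1 0 ^ 2 =
          2 * g 1 0 * (g 0 0 - j * g 1 0) := by ring
        rw [this]; linarith
    · intro i j
      rw [Set.disjoint_left]
      rintro g ⟨hy, h1, h2⟩ ⟨h3, h4⟩
      have hy2 : 0 < g 1 0 ^ 2 := by positivity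
      have : 2 * g 1 0 * (g 0 0 - i * g 1 0) - 2 * g 1 0 * (g 0 0 - j * g 1 0) =
          2 * (((j : ℤ) - i) * g 1 0 ^ 2) := by ring
      have h5 : 0 < ((j : ℤ) - i) * g 1 0 ^ 2 := by linarith
      have h6 : ((j : ℤ) - i) * g 1 0 ^ 2 < g 1 0 ^ 2 := by linarith
      have h7 : 0 < (j : ℤ) - i := pos_of_mul_pos_left h5 hy2.le
      nlinarith
    · intro i
      rintro _ ⟨g, hg, rfl⟩
      have h1 := PingP_key (6 * (p : ℤ)) (g 0 0 - i * g 1 0) (g 1 0) hc6 (PingP_ne i g) hg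
      obtain ⟨h2, h3⟩ := PingP_mul (6 * (p : ℤ)) i g
      show PingP_a (6 * (p : ℤ)) i * g ∈ PingP_X i
      simp only [PingP_X, Set.mem_ofPred_eq]
      rw [h3, h2]
      exact h1
    · intro i
      rintro _ ⟨g, hg, rfl⟩
      have h1 := PingP_key' (6 * (p : ℤ)) (g 0 0 - i * g 1 0) (g 1 0) hc6 (PingP_ne i g) hg
      obtain ⟨h2, h3⟩ := PingP_inv_mul (6 * (p : ℤ)) i g
      show (PingP_a (6 * (p : ℤ)) i)⁻¹ * g ∈ PingP_Y i
      simp only [PingP_Y, Set.mem_ofPred_eq]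
      rw [h3, h2]
      exact h1
  · have h : (Matrix.SpecialLinearGroup.map (Int.castRingHom (ZMod p))).comp
        (FreeGroup.lift (PingP_a (6 * (p : ℤ)))) = 1 := by
      ext1 i
      have h6 : ((6 * (p : ℤ) : ℤ) : ZMod p) = 0 := by
        push_cast
        rw [ZMod.natCast_self, mul_zero]
      have hm : ∀ r s : Fin 2, ((Matrix.SpecialLinearGroup.map (Int.castRingHom (ZMod p)))
          (PingP_a (6 * (p : ℤ)) i)) r s = ((PingP_a (6 * (p : ℤ)) i r s : ℤ) : ZMod p) :=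
        fun r s => rfl
      ext r s
      rw [MonoidHom.comp_apply, FreeGroup.lift_apply_of, hm]
      fin_cases r <;> fin_cases s
      · show ((PingP_a (6 * (p : ℤ)) i 0 0 : ℤ) : ZMod p) = 1
        rw [PingP_a00, Int.cast_add, Int.cast_mul, h6, Int.cast_one, zero_mul, add_zero]
      · show ((PingP_a (6 * (p : ℤ)) i 0 1 : ℤ) : ZMod p) = 0
        rw [PingP_a01, Int.cast_mul, Int.cast_neg, h6, neg_zero, zero_mul]
      · show ((PingP_a (6 * (p : ℤ)) i 1 0 : ℤ) : ZMod p) = 0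
        rw [PingP_a10, h6]
      · show ((PingP_a (6 * (p : ℤ)) i 1 1 : ℤ) : ZMod p) = 1
        rw [PingP_a11, Int.cast_sub, Int.cast_mul, h6, Int.cast_one, zero_mul, sub_zero]
    intro w
    exact DFunLike.congr_fun h w

end Pool.Agent.PHI
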