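import Pool.Agent.PHI.DefsF
import Pool.Agent.PHI.PingP

/-!
# NiceP: residually free groups are residually `p` for every prime `p`, and torsion-free

PROOF.  Let `x ≠ 1` in `P`, `ξ : P →* FreeGroup ℕ` with `ξ x ≠ 1`, `η` the embedding of `exists_free_embedding_mod`.
`A = η (ξ x) ≠ 1`.  Choose `k ≥ 1` such that `A` is not `1` modulo `p^k` (some entry of `A - 1` is a nonzero integer, not
divisible by all powers of `p`).  Let `τ : P →* SL(2, ZMod (p^k))` be the composition; `K = ker τ` is normal of finite index and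
`x ∉ K`.  The image of `τ` is a `p`-group: if `B ≡ 1` mod `p` (integral matrix) then `B^(p^j) ≡ 1` mod `p^(j+1)` (induction
on `j`: if `C = 1 + p^(j+1) E` then `C^p = 1 + p^(j+2) E'`, binomial theorem), so every element of the image has order dividing
`p^(k-1)`; `K.index = Nat.card (range τ)` is a power of `p` (`IsPGroup.iff_card`).
-/

namespace Pool.Agent.PHI

open Matrix MatrixGroups

theorem NiceP.step (p j : ℕ) (X E : Matrix (Fin 2) (Fin 2) ℤ)
    (h : X - 1 = ((p : ℤ) ^ (j + 1)) • E) :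
    ∃ E' : Matrix (Fin 2) (Fin 2) ℤ, X ^ p - 1 = ((p : ℤ) ^ (j + 2)) • E' := by
  have h1 : ∀ i : ℕ, ∃ F : Matrix (Fin 2) (Fin 2) ℤ, X ^ i = 1 + (p : ℤ) • F := by
    intro i
    induction i with
    | zero => exact ⟨0, by simp⟩
    | succ i ih =>
      obtain ⟨F, hF⟩ := ih
      have hX : X = 1 + (p : ℤ) • (((p : ℤ) ^ j) • E) := by
        rw [smul_smul, ← pow_succ', ← h]; abel
      refine ⟨((p : ℤ) ^ j) • E + F * X, ?_⟩
      rw [pow_succ, hF, add_mul, one_mul, smul_mul_assoc, smul_add, ← add_assoc]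
      congr 1
  choose F hF using h1
  have h2 : ∑ i ∈ Finset.range p, X ^ i = (p : ℤ) • (1 + ∑ i ∈ Finset.range p, F i) := by
    rw [Finset.sum_congr rfl (fun i _ => hF i), Finset.sum_add_distrib, ← Finset.smul_sum, smul_add]
    congr 1
    simp
  refine ⟨(1 + ∑ i ∈ Finset.range p, F i) * E, ?_⟩
  rw [← geom_sum_mul, h2, h, smul_mul_smul_comm, ← pow_succ']

theorem NiceP.pow (p : ℕ) (X E : Matrix (Fin 2) (Fin 2) ℤ)
    (h : X - 1 = (p : ℤ) • E) (j : ℕ) :
    ∃ E' : Matrix (Fin 2) (Fin 2) ℤ, X ^ (p ^ j) - 1 = ((p : ℤ) ^ (j + 1)) • E' := by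
  induction j with
  | zero => exact ⟨E, by simpa using h⟩
  | succ j ih =>
    obtain ⟨E', hE'⟩ := ih
    obtain ⟨E'', hE''⟩ := NiceP.step p j _ E' hE'
    exact ⟨E'', by rw [pow_succ, pow_mul]; exact hE''⟩

theorem Nice.resPf {P : Type*} [Group P] (hP : Nice P) {p : ℕ} (hp : p.Prime) : ResPf p P := by
  intro x hx
  obtain ⟨ξ, hξ⟩ := hP.resFree x hx
  obtain ⟨η, hη, hmod⟩ := exists_free_embedding_mod p hp
  have hA : η (ξ x) ≠ 1 := by
    intro h
    exact hξ (hη (by rw [h, map_one]))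
  have hent : ∃ i j, ((η (ξ x) : SL(2, ℤ)) : Matrix (Fin 2) (Fin 2) ℤ) i j -
      (1 : Matrix (Fin 2) (Fin 2) ℤ) i j ≠ 0 := by
    by_contra hcon
    push Not at hcon
    apply hA
    ext i j
    have := hcon i j
    rw [sub_eq_zero] at this
    simpa using this
  obtain ⟨i, j, hij⟩ := hent
  set z := ((η (ξ x) : SL(2, ℤ)) : Matrix (Fin 2) (Fin 2) ℤ) i j -
      (1 : Matrix (Fin 2) (Fin 2) ℤ) i j with hz
  obtain ⟨k, hk⟩ : ∃ k : ℕ, ¬ ((p : ℤ) ^ (k + 1) ∣ z) := by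
    refine ⟨z.natAbs, fun hd => ?_⟩
    have h1 := Int.natAbs_dvd_natAbs.mpr hd
    have h2 := Nat.le_of_dvd (Int.natAbs_pos.mpr hij) h1
    rw [Int.natAbs_pow, Int.natAbs_natCast] at h2
    have h3 : z.natAbs + 1 < p ^ (z.natAbs + 1) := Nat.lt_pow_self hp.one_lt
    omega
  have : Fact p.Prime := ⟨hp⟩
  have : NeZero (p ^ (k + 1)) := ⟨pow_ne_zero _ hp.ne_zero⟩
  let τ : P →* SL(2, ZMod (p ^ (k + 1))) :=
    (Matrix.SpecialLinearGroup.map (Int.castRingHom (ZMod (p ^ (k + 1))))).comp (η.comp ξ)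
  have hfin : Finite SL(2, ZMod (p ^ (k + 1))) := inferInstance
  have hpg : IsPGroup p τ.range := by
    rintro ⟨_, y, rfl⟩
    refine ⟨k, ?_⟩
    apply Subtype.ext
    show (τ y) ^ p ^ k = 1
    rw [← map_pow]
    set B := η (ξ y) with hB
    have hB1 : ∃ E : Matrix (Fin 2) (Fin 2) ℤ, (B : Matrix (Fin 2) (Fin 2) ℤ) - 1 = (p : ℤ) • E := by
      have h1 := hmod (ξ y)
      have h2 : ∀ a b, ∃ e : ℤ, (B : Matrix (Fin 2) (Fin 2) ℤ) a b -
          (1 : Matrix (Fin 2) (Fin 2) ℤ) a b = (p : ℤ) * e := by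
        intro a b
        have h3 := congrArg (fun M : SL(2, ZMod p) => (M : Matrix (Fin 2) (Fin 2) (ZMod p)) a b) h1
        have h4 : ((((B : Matrix (Fin 2) (Fin 2) ℤ) a b -
          (1 : Matrix (Fin 2) (Fin 2) ℤ) a b : ℤ)) : ZMod p) = 0 := by
          have h5 : (((B : Matrix (Fin 2) (Fin 2) ℤ) a b : ℤ) : ZMod p) =
              (1 : Matrix (Fin 2) (Fin 2) (ZMod p)) a b := by
            simpa [Matrix.SpecialLinearGroup.map_apply_coe, RingHom.mapMatrix_apply] using h3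
          push_cast
          rw [h5, sub_eq_zero]
          simp [Matrix.one_apply]
        exact (ZMod.intCast_zmod_eq_zero_iff_dvd _ _).mp h4
      choose e he using h2
      refine ⟨Matrix.of e, ?_⟩
      ext a b
      rw [Matrix.sub_apply, he a b]
      simp
    obtain ⟨E, hE⟩ := hB1
    obtain ⟨E', hE'⟩ := NiceP.pow p _ E hE k
    have h6 : ((B ^ p ^ k : SL(2, ℤ)) : Matrix (Fin 2) (Fin 2) ℤ) = 1 + ((p : ℤ) ^ (k + 1)) • E' := by
      rw [Matrix.SpecialLinearGroup.coe_pow, ← hE']; abel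
    have h7 : τ (y ^ p ^ k) =
        Matrix.SpecialLinearGroup.map (Int.castRingHom (ZMod (p ^ (k + 1)))) (B ^ p ^ k) := by
      show Matrix.SpecialLinearGroup.map _ (η (ξ (y ^ p ^ k))) = _
      rw [map_pow, map_pow]
    rw [h7]
    ext a b
    rw [Matrix.SpecialLinearGroup.map_apply_coe, RingHom.mapMatrix_apply, h6, Matrix.map_apply]
    have h8 : ((p : ZMod (p ^ (k + 1))) ^ (k + 1)) = 0 := by
      rw [← Nat.cast_pow]; exact ZMod.natCast_self _
    rw [Matrix.add_apply, Matrix.smul_apply, smul_eq_mul, map_add, map_mul, map_pow]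
    simp only [eq_intCast, Int.cast_natCast, h8, zero_mul, add_zero]
    simp [Matrix.one_apply]
  refine ⟨τ.ker, inferInstance, ?_, ?_⟩
  · obtain ⟨n, hn⟩ := IsPGroup.iff_card.mp hpg
    exact ⟨n, by rw [Subgroup.index_ker]; exact hn⟩
  · intro hmem
    rw [MonoidHom.mem_ker] at hmem
    apply hk
    have h3 := congrArg (fun M : SL(2, ZMod (p ^ (k + 1))) =>
      (M : Matrix (Fin 2) (Fin 2) (ZMod (p ^ (k + 1)))) i j) hmem
    have h5 : ((((η (ξ x) : SL(2, ℤ)) : Matrix (Fin 2) (Fin 2) ℤ) i j : ℤ) : ZMod (p ^ (k + 1))) =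
              (1 : Matrix (Fin 2) (Fin 2) (ZMod (p ^ (k + 1)))) i j := by
      simpa [τ, Matrix.SpecialLinearGroup.map_apply_coe, RingHom.mapMatrix_apply] using h3
    have h4 : ((z : ℤ) : ZMod (p ^ (k + 1))) = 0 := by
      rw [hz]
      push_cast
      rw [h5, sub_eq_zero]
      simp [Matrix.one_apply]
    have h9 := (ZMod.intCast_zmod_eq_zero_iff_dvd _ _).mp h4
    exact_mod_cast h9

end Pool.Agent.PHI
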