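import Pool.Agent.PHI.ResCl
import Pool.Agent.PHI.AutRes
import Pool.Agent.PHI.NiceP

/-!
# NiceRes: `VirtResP` for extensions with nice kernel

PROOF.  The homomorphism `Γ → MulAut P × (Γ ⧸ P)`, `γ ↦ (conjugation by γ, γ P)` (`MulAut.conjNormal`, `MonoidHom.prod`) is
injective: an element of the kernel lies in `P` and commutes with `P`, so it is `1` (`Nice.center`).  `MulAut P` is
`VirtResP p` by `virtResP_mulAut` and `Nice.resPf`; use `VirtResP.prod` and `VirtResP.of_injective`.
-/

namespace Pool.Agent.PHI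

theorem VirtResP.of_nice {Γ : Type*} [Group Γ] {p : ℕ} (hp : p.Prime) (P : Subgroup Γ) [P.Normal]
    (hP : Nice P) (h : VirtResP p (Γ ⧸ P)) : VirtResP p Γ := by
  have : Group.FG P := hP.fg
  have h1 : VirtResP p (MulAut P) := virtResP_mulAut hp (hP.resPf hp)
  let f : Γ →* MulAut P × (Γ ⧸ P) := (MulAut.conjNormal (H := P)).prod (QuotientGroup.mk' P)
  refine VirtResP.of_injective hp f ?_ (VirtResP.prod hp h1 h)
  rw [injective_iff_map_eq_one]
  intro a ha
  have ha1 : MulAut.conjNormal (H := P) a = 1 := congrArg Prod.fst ha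
  have ha2 : QuotientGroup.mk' P a = 1 := congrArg Prod.snd ha
  have haP : a ∈ P := (QuotientGroup.eq_one_iff a).mp ha2
  have hc := hP.center ⟨a, haP⟩ (fun y => by
    have h2 := congrArg (fun φ : MulAut P => ((φ y : P) : Γ)) ha1
    have h3 : a * (y : Γ) * a⁻¹ = y := by simpa [MulAut.conjNormal_apply] using h2
    apply Subtype.ext
    show a * (y : Γ) = y * a
    exact mul_inv_eq_iff_eq_mul.mp h3)
  exact congrArg Subtype.val hc

end Pool.Agent.PHI
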