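import Pool.Agent.PHI.Defs

/-!
# PhiN: the image of `Φ_f(G)` in a finite group is nilpotent

PROOF.  Replace `X` by the range of `f` (`f.rangeRestrict` is surjective; the image in `X` is isomorphic to the
image in the range: `Subgroup.map_map`, `nilpotent_of_mulEquiv`, or `Group.IsNilpotent` of a subgroup of
a nilpotent group).  For surjective `f`: for every coatom `M` of `Subgroup X` the preimage `M.comap f` is a coatom
(`isCoatom_comap_of_surjective` in Mathlib/Algebra/Group/Subgroup/Order.lean) and has finite index (`X` finite), so
`PhiF G ≤ M.comap f`.  Hence `(PhiF G).map f ≤ frattini X` (the infimum of the coatoms, see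
Mathlib/GroupTheory/Frattini.lean), which is nilpotent by `frattini_nilpotent`, and subgroups of
nilpotent groups are nilpotent.
-/

namespace Pool.Agent.PHI

theorem PhiN_surj {G X : Type*} [Group G] [Group X] [Finite X] (f : G →* X)
    (hf : Function.Surjective f) : (PhiF G).map f ≤ frattini X := by
  rw [frattini, Order.radical]
  refine le_iInf₂ fun M hM => ?_
  rw [Subgroup.map_le_iff_le_comap]
  have h1 : IsCoatom (M.comap f) := Subgroup.isCoatom_comap_of_surjective hf hM
  have : (M.comap f).FiniteIndex := by
    constructor
    rw [Subgroup.index_comap_of_surjective M hf]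
    exact Subgroup.FiniteIndex.index_ne_zero
  exact (iInf_le _ (M.comap f)).trans ((iInf_le _ h1).trans (iInf_le _ this))

theorem map_phiF_isNilpotent {G X : Type*} [Group G] [Group X] [Finite X] (f : G →* X) :
    Group.IsNilpotent ((PhiF G).map f) := by
  have h1 := PhiN_surj f.rangeRestrict f.rangeRestrict_surjective
  have h2 : Group.IsNilpotent (frattini f.range) := frattini_nilpotent
  have h3 : Group.IsNilpotent ((PhiF G).map f.rangeRestrict) := by
    have := Subgroup.isNilpotent (((PhiF G).map f.rangeRestrict).subgroupOf (frattini f.range))
    exact Group.nilpotent_of_mulEquiv (Subgroup.subgroupOfEquivOfLe h1)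
  have h4 : (PhiF G).map f = ((PhiF G).map f.rangeRestrict).map f.range.subtype := by
    rw [Subgroup.map_map]
    rfl
  rw [h4]
  exact Group.nilpotent_of_mulEquiv
    (((PhiF G).map f.rangeRestrict).equivMapOfInjective f.range.subtype
      (Subgroup.subtype_injective _))

end Pool.Agent.PHI
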