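import Pool.Agent.PHI.FExt
import Pool.Agent.PHI.FinOver
import Pool.Agent.PHI.NiceRes
import Pool.Agent.PHI.PhiN

/-!
# ClsMain: nilpotency of `Φ_f(G)` for all subgroups of the groups of the class `Cls`
-/

namespace Pool.Agent.PHI

universe u

/-- `FN` passes to images. -/
theorem FN.map {G G' : Type u} [Group G] [Group G'] {N : Subgroup G} (hN : FN N) (f : G →* G') :
    FN (N.map f) := by
  intro X _ _ g
  rw [Subgroup.map_map]
  exact hN X (g.comp f)

theorem fn_phiF (G : Type u) [Group G] : FN (PhiF G) :=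
  fun _ _ _ f => map_phiF_isNilpotent f

/-- Transport of nilpotency of images to a subgroup of the image group. -/
theorem strong_image {Γ Δ : Type u} [Group Γ] [Group Δ] (q : Γ →* Δ) (h : Strong Δ)
    (G : Subgroup Γ) (N : Subgroup G) (hN : FN N) :
    Group.IsNilpotent ((N.map G.subtype).map q) := by
  have h1 : FN (N.map (q.subgroupMap G)) := hN.map _
  have h2 := h (G.map q) (N.map (q.subgroupMap G)) h1
  have h3 : (N.map G.subtype).map q = (N.map (q.subgroupMap G)).map (G.map q).subtype := by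
    rw [Subgroup.map_map, Subgroup.map_map]
    rfl
  rw [h3]
  exact Group.nilpotent_of_surjective ((G.map q).subtype.subgroupMap (N.map (q.subgroupMap G)))
    ((G.map q).subtype.subgroupMap_surjective _)

theorem strong_of_nice {Γ : Type u} [Group Γ] (P : Subgroup Γ) [P.Normal] (hP : Nice P)
    (h : Strong (Γ ⧸ P)) : Strong Γ :=
  fun G N hN => isNilpotent_of_nice_FN P hP G N hN (strong_image (QuotientGroup.mk' P) h G N hN)

theorem strong_of_injective {Γ Δ : Type u} [Group Γ] [Group Δ] (q : Γ →* Δ)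
    (hq : Function.Injective q) (h : Strong Δ) : Strong Γ := by
  intro G N hN
  have h1 := strong_image q h G N hN
  have hinj : Function.Injective (q.comp G.subtype) := hq.comp G.subtype_injective
  rw [Subgroup.map_map] at h1
  exact Group.nilpotent_of_mulEquiv (N.equivMapOfInjective _ hinj).symm

theorem strong_of_trivial {Γ : Type u} [Group Γ] (h : ∀ x : Γ, x = 1) : Strong Γ := by
  intro G N _
  have : Subsingleton N := ⟨fun a b => by
    apply Subtype.ext
    apply Subtype.ext
    rw [h (a : G), h (b : G)]⟩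
  exact Group.isNilpotent_of_subsingleton

theorem virtResP_of_trivial {Γ : Type u} [Group Γ] (p : ℕ) (h : ∀ x : Γ, x = 1) :
    VirtResP p Γ := by
  refine ⟨⊤, inferInstance, ?_⟩
  intro a ha
  exfalso
  apply ha
  apply Subtype.ext
  rw [h (a : Γ)]
  rfl

theorem Cls.main {Γ : Type u} [Group Γ] (h : Cls Γ) :
    Strong Γ ∧ ∀ p : ℕ, p.Prime → VirtResP p Γ := by
  induction h with
  | triv Γ h => exact ⟨strong_of_trivial h, fun p _ => virtResP_of_trivial p h⟩
  | nice Γ P hP _ ih =>
    exact ⟨strong_of_nice P hP ih.1, fun p hp => VirtResP.of_nice hp P hP (ih.2 p hp)⟩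
  | fin Γ Γ₀ _ ih =>
    have h1 : ∀ p : ℕ, p.Prime → VirtResP p Γ := fun p hp => VirtResP.of_finiteIndex Γ₀ (ih.2 p hp)
    exact ⟨strong_of_finiteIndex Γ₀ ih.1 h1, h1⟩
  | sub Γ Γ' f hf _ ih =>
    exact ⟨strong_of_injective f hf ih.1, fun p hp => VirtResP.of_injective hp f hf (ih.2 p hp)⟩

theorem mainF {Γ : Type u} [Group Γ] (Z : Subgroup Γ) [Z.Normal] (hZ : Z ≤ Subgroup.center Γ)
    (h : Cls (Γ ⧸ Z)) (G : Subgroup Γ) : Group.IsNilpotent (PhiF G) := by
  have h1 := strong_image (QuotientGroup.mk' Z) h.main.1 G (PhiF G) (fn_phiF G)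
  rw [Subgroup.map_map] at h1
  set f : G →* Γ ⧸ Z := (QuotientGroup.mk' Z).comp G.subtype with hf
  refine Subgroup.isNilpotent_of_ker_le_center (f.subgroupMap (PhiF G)) ?_
  intro x hx
  rw [MonoidHom.mem_ker] at hx
  have h2 : f (x : G) = 1 := congrArg Subtype.val hx
  have h3 : ((x : G) : Γ) ∈ Z := by
    have : (QuotientGroup.mk' Z) ((x : G) : Γ) = 1 := h2
    rwa [← MonoidHom.mem_ker, QuotientGroup.ker_mk'] at this
  rw [Subgroup.mem_center_iff]
  intro y
  apply Subtype.ext
  apply Subtype.ext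
  have h4 := (Subgroup.mem_center_iff.1 (hZ h3)) ((y : G) : Γ)
  exact h4

end Pool.Agent.PHI
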