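import Mathlib

/-!
# Core: a characteristic subgroup of finite index inside a finite index subgroup

PROOF.  Let `Q = Equiv.Perm (π ⧸ K)`, a finite group, and `L = ⨅ f : π →* Q, f.ker`.  The set `π →* Q` is finite,
because `π` is generated by a finite set `S` and `f ↦ f|S` is injective (`MonoidHom.eq_of_eqOn_dense` or
`MonoidHom.eqOn_closure`), so `L` has finite index (`Subgroup.finiteIndex_iInf`, `Subgroup.finiteIndex_ker`).
`L` is characteristic: for an automorphism `φ`, `f ↦ f.comp φ` permutes the homs
(`Subgroup.characteristic_iff_comap_eq` / `_le_comap`).  `L ≤ K`: take `f = MulAction.toPermHom π (π ⧸ K)`, whose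
kernel is the normal core (`Subgroup.normalCore_eq_ker`), contained in `K`.
-/

namespace Pool.Agent.PHI

theorem exists_characteristic_le {π : Type*} [Group π] [Group.FG π] (K : Subgroup π)
    [K.FiniteIndex] : ∃ L : Subgroup π, L ≤ K ∧ L.Characteristic ∧ L.FiniteIndex := by
  classical
  obtain ⟨S, hS, hfin⟩ := Group.fg_iff.mp (inferInstance : Group.FG π)
  have hQ : Finite (Equiv.Perm (π ⧸ K)) := inferInstance
  have hSf : Finite S := hfin
  have hhom : Finite (π →* Equiv.Perm (π ⧸ K)) := by
    apply Finite.of_injective (β := S → Equiv.Perm (π ⧸ K)) (fun f s => f s.1)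
    intro f g hfg
    have h1 : Set.EqOn f g S := fun s hs => congrFun hfg ⟨s, hs⟩
    have h2 := MonoidHom.eqOn_closure h1
    rw [hS] at h2
    ext1 x
    exact h2 (Subgroup.mem_top x)
  refine ⟨⨅ f : π →* Equiv.Perm (π ⧸ K), f.ker, ?_, ?_, ?_⟩
  · refine (iInf_le _ (MulAction.toPermHom π (π ⧸ K))).trans ?_
    rw [← Subgroup.normalCore_eq_ker]
    exact Subgroup.normalCore_le K
  · rw [Subgroup.characteristic_iff_le_comap]
    intro φ x hx
    rw [Subgroup.mem_comap, Subgroup.mem_iInf]
    intro f
    rw [Subgroup.mem_iInf] at hx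
    have := hx (f.comp φ.toMonoidHom)
    rw [MonoidHom.mem_ker] at this ⊢
    exact this
  · apply Subgroup.finiteIndex_iInf
    intro f
    infer_instance

end Pool.Agent.PHI
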