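import Mathlib

/-!
# Cpt: the compactness argument
-/

namespace Pool.Agent.PHI

open Polynomial Filter Topology

theorem Cpt_factor (x : ℂ) (hx : 1 < ‖x‖) (ℓ : ℕ) (hℓ : 2 ≤ ℓ) (φ : ℕ → ℕ) (hφ : StrictMono φ) (q : ℕ)
    (hq : 0 < q) :
    Tendsto (fun k => ‖(cyclotomic q ℂ).eval (x ^ (ℓ ^ (φ k)))‖) atTop atTop := by
  apply Polynomial.tendsto_norm_atTop _ (degree_cyclotomic_pos q ℂ hq)
  simp only [norm_pow]
  exact (tendsto_pow_atTop_atTop_of_one_lt hx).comp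
    ((tendsto_pow_atTop_atTop_of_one_lt (by omega : 1 < ℓ)).comp hφ.tendsto_atTop)

theorem norm_le_one_of_bounded {ι : Type*} [Fintype ι] (a : ι → ℂ) (ℓ : ℕ) (hℓ : 2 ≤ ℓ)
    (S : Finset ℕ) (hS : ∀ q ∈ S, q.Prime) (hcard : Fintype.card ι < S.card) (c : ℕ → ℝ)
    (h : ∀ q ∈ S, ∀ k : ℕ, ∏ i, ‖(cyclotomic q ℂ).eval (a i ^ (ℓ ^ k))‖ ≤ c q) (i : ι) :
    ‖a i‖ ≤ 1 := by
  classical
  by_contra hi
  have hi0 : 1 < ‖a i‖ := not_le.mp hi
  let b : ℕ → ι → ℂ := fun k j => if ‖a j‖ ≤ 1 then a j ^ (ℓ ^ k) else 0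
  have hb : ∀ k, b k ∈ Metric.closedBall (0 : ι → ℂ) 1 := by
    intro k
    rw [mem_closedBall_zero_iff, pi_norm_le_iff_of_nonneg zero_le_one]
    intro j
    by_cases hj : ‖a j‖ ≤ 1
    · simp only [b, if_pos hj, norm_pow]
      exact pow_le_one₀ (norm_nonneg _) hj
    · simp [b, if_neg hj]
  obtain ⟨w, -, φ, hφ, hw⟩ := (isCompact_closedBall (0 : ι → ℂ) 1).tendsto_subseq hb
  have key : ∀ q ∈ S, ∃ j, IsPrimitiveRoot (w j) q := by
    intro q hq
    by_contra hne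
    have hne' : ∀ j, ¬ IsPrimitiveRoot (w j) q := fun j hj => hne ⟨j, hj⟩
    have : NeZero (q : ℂ) := ⟨by exact_mod_cast (hS q hq).ne_zero⟩
    have h0 : ∀ j, (cyclotomic q ℂ).eval (w j) ≠ 0 := by
      intro j hj
      exact hne' j (isRoot_cyclotomic_iff.mp hj)
    let T : Finset ι := Finset.univ.filter (fun j => ‖a j‖ ≤ 1)
    have hP : Tendsto (fun k => ∏ j ∈ T, ‖(cyclotomic q ℂ).eval (a j ^ (ℓ ^ (φ k)))‖) atTop
        (𝓝 (∏ j ∈ T, ‖(cyclotomic q ℂ).eval (w j)‖)) := by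
      apply tendsto_finsetProd
      intro j hj
      have hj1 : ‖a j‖ ≤ 1 := (Finset.mem_filter.mp hj).2
      have h1 : Tendsto (fun k => (b ∘ φ) k j) atTop (𝓝 (w j)) := (tendsto_pi_nhds.mp hw) j
      have h2 : (fun k => (b ∘ φ) k j) = fun k => a j ^ (ℓ ^ (φ k)) := by
        funext k
        simp [b, hj1]
      rw [h2] at h1
      exact ((cyclotomic q ℂ).continuous.continuousAt.tendsto.comp h1).norm
    have hPpos : 0 < ∏ j ∈ T, ‖(cyclotomic q ℂ).eval (w j)‖ :=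
      Finset.prod_pos (fun j _ => norm_pos_iff.mpr (h0 j))
    let T' : Finset ι := Finset.univ.filter (fun j => ¬ ‖a j‖ ≤ 1)
    have hiT : i ∈ T' := by simpa [T'] using hi0
    have hQ : Tendsto (fun k => ∏ j ∈ T', ‖(cyclotomic q ℂ).eval (a j ^ (ℓ ^ (φ k)))‖) atTop atTop := by
      have hf : ∀ j ∈ T', Tendsto (fun k => ‖(cyclotomic q ℂ).eval (a j ^ (ℓ ^ (φ k)))‖) atTop atTop := by
        intro j hj
        exact Cpt_factor (a j) (not_le.mp (Finset.mem_filter.mp hj).2) ℓ hℓ φ hφ q (hS q hq).pos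
      have hev : ∀ᶠ k in atTop, ∀ j ∈ T', 1 ≤ ‖(cyclotomic q ℂ).eval (a j ^ (ℓ ^ (φ k)))‖ := by
        rw [Filter.eventually_all_finset]
        intro j hj
        exact (hf j hj).eventually_ge_atTop 1
      apply tendsto_atTop_mono' atTop _ (hf i hiT)
      filter_upwards [hev] with k hk
      rw [← Finset.mul_prod_erase T' _ hiT]
      have h1 : (1 : ℝ) ≤ ∏ j ∈ T'.erase i, ‖(cyclotomic q ℂ).eval (a j ^ (ℓ ^ (φ k)))‖ := by
        calc (1 : ℝ) = ∏ j ∈ T'.erase i, (1 : ℝ) := by simp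
          _ ≤ _ := Finset.prod_le_prod (fun _ _ => zero_le_one)
            (fun j hj => hk j (Finset.mem_of_mem_erase hj))
      exact le_mul_of_one_le_right (norm_nonneg _) h1
    have hall : Tendsto (fun k => ∏ j, ‖(cyclotomic q ℂ).eval (a j ^ (ℓ ^ (φ k)))‖) atTop atTop := by
      have := hP.pos_mul_atTop hPpos hQ
      refine this.congr (fun k => ?_)
      exact Finset.prod_filter_mul_prod_filter_not Finset.univ (fun j => ‖a j‖ ≤ 1) _
    obtain ⟨k, hk⟩ := (hall.eventually_gt_atTop (c q)).exists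
    exact absurd (h q hq (φ k)) (not_le.mpr hk)
  have : Nonempty ι := ⟨i⟩
  choose! f hf using key
  have hinj : Set.InjOn f S := by
    intro q hq q' hq' hqq
    have h1 := hf q hq
    have h2 := hf q' hq'
    rw [← hqq] at h2
    exact h1.unique h2
  have := Finset.card_le_card_of_injOn f (fun q _ => Finset.mem_univ (f q)) hinj
  rw [Finset.card_univ] at this
  omega

end Pool.Agent.PHI
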