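import Pool.Agent.PHI.Defs

/-!
# PhiMap: `Φ_f` and surjections

PROOF.  Let `f : G → Q` be surjective, `M` a maximal subgroup of finite index of `Q`.  Then `M.comap f` is a maximal
subgroup (`isCoatom_comap_of_surjective`) of finite index of `G` (`Subgroup.index_comap_of_surjective`), so
`PhiF G ≤ M.comap f`, that is `(PhiF G).map f ≤ M`.
-/

namespace Pool.Agent.PHI

theorem map_phiF_le {G Q : Type*} [Group G] [Group Q] (f : G →* Q) (hf : Function.Surjective f) :
    (PhiF G).map f ≤ PhiF Q := by
  refine le_iInf fun M => le_iInf fun hM => le_iInf fun hfi => ?_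
  rw [Subgroup.map_le_iff_le_comap]
  have h1 : IsCoatom (M.comap f) := Subgroup.isCoatom_comap_of_surjective hf hM
  have h2 : (M.comap f).FiniteIndex := by
    constructor
    rw [Subgroup.index_comap_of_surjective _ hf]
    exact hfi.index_ne_zero
  exact iInf_le_of_le (M.comap f) (iInf_le_of_le h1 (iInf_le _ h2))

end Pool.Agent.PHI
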