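import Pool.Agent.PHI.FExt
import Pool.Agent.PHI.ClsMain
import Pool.Agent.PHI.PhiMap
import Pool.Agent.PHI.NiceP

/-!
# Cut: if `G ∩ P` is not commutative then `Φ_f(G)` meets `P` trivially and centralises `G ∩ P`
-/

namespace Pool.Agent.PHI

universe u

theorem phiF_normal (G : Type*) [Group G] : (PhiF G).Normal := by
  constructor
  intro n hn g
  have h := map_phiF_le (MulAut.conj g).toMonoidHom (MulAut.conj g).surjective
  exact h ⟨n, hn, rfl⟩

/-- Unique roots in nice groups. -/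
theorem Nice.root {P : Type*} [Group P] (hP : Nice P) (x y : P) (m : ℤ) (hm : m ≠ 0)
    (h : x ^ m = y ^ m) : x = y := by
  by_contra hne
  have h1 : x * y⁻¹ ≠ 1 := fun h => hne (mul_inv_eq_one.1 h)
  obtain ⟨ξ, hξ⟩ := hP.resFree _ h1
  apply hξ
  have h2 : (ξ x) ^ m = (ξ y) ^ m := by rw [← map_zpow, ← map_zpow, h]
  have h3 : ξ x = ξ y := zpow_left_injective hm h2
  rw [map_mul, map_inv, h3, mul_inv_cancel]

/-- Commuting with a common nontrivial element is a transitive relation. -/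
theorem Nice.commTrans {P : Type*} [Group P] (hP : Nice P) (a x y : P) (ha : a ≠ 1)
    (hx : x * a = a * x) (hy : y * a = a * y) : x * y = y * x := by
  obtain ⟨u, hu⟩ := hP.cyclic (Subgroup.closure {x, a}) (by
    intro p hp q hq
    have h1 : ∀ p ∈ ({x, a} : Set P), ∀ q ∈ ({x, a} : Set P), p * q = q * p := by
      rintro p (rfl | rfl) q (rfl | rfl)
      · rfl
      · exact hx
      · exact hx.symm
      · rfl
    have h2 := Subgroup.isMulCommutative_closure h1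
    have h3 := h2.is_comm.comm (⟨p, hp⟩ : Subgroup.closure {x, a}) ⟨q, hq⟩
    exact congrArg Subtype.val h3)
  have hxu : x ∈ Subgroup.zpowers u := by
    rw [← hu]; exact Subgroup.subset_closure (by simp)
  have hau : a ∈ Subgroup.zpowers u := by
    rw [← hu]; exact Subgroup.subset_closure (by simp)
  obtain ⟨i, rfl⟩ := hxu
  obtain ⟨m, rfl⟩ := hau
  simp only at ha hy ⊢
  have hm : m ≠ 0 := by
    rintro rfl
    exact ha (zpow_zero u)
  have h4 : y * u * y⁻¹ = u := by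
    apply hP.root _ _ m hm
    rw [conj_zpow, hy]
    group
  have h5 : Commute y u := by
    show y * u = u * y
    exact mul_inv_eq_iff_eq_mul.1 h4
  exact (h5.zpow_right i).symm.eq

/-- A nontrivial element of a nice group is not conjugate to its inverse. -/
theorem Nice.not_conj_inv {P : Type*} [Group P] (hP : Nice P) (a x : P) (ha : a ≠ 1) :
    x * a * x⁻¹ ≠ a⁻¹ := by
  intro h
  obtain ⟨K, hK, ⟨k, hk⟩, haK⟩ := hP.resPf Nat.prime_three a ha
  have := hK
  have hp3 : Fact (Nat.Prime 3) := ⟨Nat.prime_three⟩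
  have hKf : K.FiniteIndex := ⟨by rw [hk]; positivity⟩
  have hQ : Finite (P ⧸ K) := Subgroup.finite_quotient_of_finiteIndex
  have hpg : IsPGroup 3 (P ⧸ K) := IsPGroup.of_card (n := k) (by
    rw [← Subgroup.index_eq_card]; exact hk)
  have hn : Group.IsNilpotent (P ⧸ K) := hpg.isNilpotent
  have hn' : Group.IsNilpotent (⊤ : Subgroup (P ⧸ K)) := Subgroup.isNilpotent ⊤
  have h1 : (x : P ⧸ K) * (a : P ⧸ K) * (x : P ⧸ K)⁻¹ = (a : P ⧸ K)⁻¹ := by
    rw [← QuotientGroup.mk_mul, ← QuotientGroup.mk_inv, ← QuotientGroup.mk_mul, h,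
      QuotientGroup.mk_inv]
  obtain ⟨i, hi⟩ := Odd_nilp ⊤ hn' (a : P ⧸ K) (x : P ⧸ K) (Subgroup.mem_top _)
    (Subgroup.mem_top _) h1
  obtain ⟨j, hj⟩ := hpg (a : P ⧸ K)
  have hcop : Nat.Coprime (2 ^ i) (3 ^ j) := Nat.Coprime.pow _ _ (by norm_num)
  have h3 := Nat.eq_one_of_dvd_coprimes hcop (orderOf_dvd_of_pow_eq_one hi)
    (orderOf_dvd_of_pow_eq_one hj)
  have h4 : (a : P ⧸ K) = 1 := orderOf_eq_one_iff.1 h3
  exact haK ((QuotientGroup.eq_one_iff _).1 h4)

/-- General form: `N` normal in `G` with nilpotent image in every finite image of `G`. -/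
theorem cut_FN {Γ : Type u} [Group Γ] (P : Subgroup Γ) [P.Normal] (hP : Nice P)
    (G : Subgroup Γ) (N : Subgroup G) (hN : FN N) (hNn : N.Normal)
    (hQ : ∃ x ∈ G ⊓ P, ∃ y ∈ G ⊓ P, x * y ≠ y * x) :
    (∀ n ∈ N, (n : Γ) ∈ P → n = 1) ∧ ∀ n ∈ N, ∀ x ∈ G ⊓ P, (n : Γ) * x = x * n := by
  classical
  have hmem : ∀ z : P, z ∈ MN P N ↔ ∃ w : G, w ∈ N ∧ (w : Γ) = z := by
    intro z
    unfold MN
    rw [Subgroup.mem_subgroupOf, Subgroup.mem_map]
    rfl
  have h1 : ∀ n ∈ N, (n : Γ) ∈ P → n = 1 := by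
    obtain ⟨a, ha⟩ := hP.cyclic (MN P N) (fun x hx y hy => FExt_comm P hP G N hN x y hx hy)
    have haM : a ∈ MN P N := by rw [ha]; exact Subgroup.mem_zpowers a
    have ha1 : a = 1 := by
      by_contra hne
      -- every element of `G ∩ P` commutes with `a`
      have hpow : ∀ x : P, (x : Γ) ∈ G → ∃ i : ℤ, x * a * x⁻¹ = a ^ i := by
        intro x hx
        obtain ⟨w, hw, hwa⟩ := (hmem a).1 haM
        have h2 : x * a * x⁻¹ ∈ MN P N := by
          refine (hmem _).2 ⟨⟨x, hx⟩ * w * ⟨x, hx⟩⁻¹, hNn.conj_mem w hw _, ?_⟩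
          push_cast
          rw [hwa]
        rw [ha, Subgroup.mem_zpowers_iff] at h2
        obtain ⟨i, hi⟩ := h2
        exact ⟨i, hi.symm⟩
      have hcom : ∀ x : P, (x : Γ) ∈ G → x * a = a * x := by
        intro x hx
        obtain ⟨i, hi⟩ := hpow x hx
        obtain ⟨j, hj⟩ := hpow x⁻¹ (by simpa using G.inv_mem hx)
        have hj' : x⁻¹ * a * x = a ^ j := by simpa using hj
        have h2 : a ^ (i * j) = a := by
          rw [zpow_mul, ← hi, conj_zpow, ← hj']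
          group
        have h3 : a ^ (i * j - 1) = 1 := by
          rw [zpow_sub_one, h2, mul_inv_cancel]
        have h4 : i * j = 1 := by
          obtain ⟨ξ, hξ⟩ := hP.resFree a hne
          have h5 : (ξ a) ^ (i * j - 1) = 1 := by rw [← map_zpow, h3, map_one]
          have h6 := (IsMulTorsionFree.zpow_eq_one_iff_right hξ).1 h5
          omega
        rcases Int.eq_one_or_neg_one_of_mul_eq_one h4 with h | h
        · rw [h, zpow_one] at hi
          exact mul_inv_eq_iff_eq_mul.1 hi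
        · exfalso
          refine hP.not_conj_inv a x hne ?_
          rw [hi, h, zpow_neg_one]
      obtain ⟨x, hx, y, hy, hxy⟩ := hQ
      apply hxy
      have h7 := hP.commTrans a ⟨x, hx.2⟩ ⟨y, hy.2⟩ hne (hcom ⟨x, hx.2⟩ hx.1)
        (hcom ⟨y, hy.2⟩ hy.1)
      exact congrArg Subtype.val h7
    intro n hn hnP
    have h8 : (⟨(n : Γ), hnP⟩ : P) ∈ MN P N := (hmem _).2 ⟨n, hn, rfl⟩
    rw [ha, ha1, Subgroup.zpowers_one_eq_bot, Subgroup.mem_bot] at h8
    have h9 : ((n : G) : Γ) = 1 := congrArg (Subtype.val (p := fun z => z ∈ P)) h8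
    exact Subtype.ext h9
  refine ⟨h1, ?_⟩
  intro n hn x hx
  have h2 : n * ⟨x, hx.1⟩ * n⁻¹ * ⟨x, hx.1⟩⁻¹ ∈ N := by
    have h3 : n * (⟨x, hx.1⟩ * n⁻¹ * ⟨x, hx.1⟩⁻¹) ∈ N :=
      N.mul_mem hn (hNn.conj_mem _ (N.inv_mem hn) _)
    simpa [mul_assoc] using h3
  have h4 := h1 _ h2 (by
    push_cast
    exact P.mul_mem (Subgroup.Normal.conj_mem inferInstance _ hx.2 _) (P.inv_mem hx.2))
  have h5 := congrArg Subtype.val h4
  push_cast at h5
  have h6 : (n : Γ) * x * (n : Γ)⁻¹ = x := mul_inv_eq_one.1 h5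
  exact mul_inv_eq_iff_eq_mul.1 h6

theorem cut_phiF {Γ : Type u} [Group Γ] (P : Subgroup Γ) [P.Normal] (hP : Nice P)
    (G : Subgroup Γ) (hQ : ∃ x ∈ G ⊓ P, ∃ y ∈ G ⊓ P, x * y ≠ y * x) :
    (∀ n ∈ PhiF G, (n : Γ) ∈ P → n = 1) ∧ ∀ n ∈ PhiF G, ∀ x ∈ G ⊓ P, (n : Γ) * x = x * n :=
  cut_FN P hP G (PhiF G) (fn_phiF G) (phiF_normal G) hQ

end Pool.Agent.PHI
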