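import Mathlib

/-!
# Cyc1: cyclotomic values of an integral matrix with smooth orders modulo all primes are units

`OrdSmooth A C`: for every prime `p` the reduction of `A` modulo `p` has a power `o` with `A^o = 1` such that `o`
has no prime factor `ℓ > C` except possibly `p`.

THEOREM.  `q ≠ ℓ` primes `> C`, `m = q * ℓ^(j+1)`: `|det Φ_m(A)| = 1`.

PROOF.  The determinant is an integer `d`; we show that no prime `p` divides it (then `d.natAbs = 1`,
`Nat.eq_one_of_...` / `Nat.exists_prime_and_dvd`).  Let `p` be a prime,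
`Ā = A.map (Int.castRingHom (ZMod p))`, `o` as above.  By `map_aeval`-type lemmas / `RingHom.map_det`,
`(d : ZMod p) = det (aeval Ā (cyclotomic m (ZMod p)))` (`Polynomial.map_cyclotomic`).
Claim: `X^o - 1` and `cyclotomic m (ZMod p)` are coprime in `(ZMod p)[X]`.  Then
`u (X^o-1) + v Φ_m = 1`, evaluate at `Ā`: `v(Ā) Φ_m(Ā) = 1`, so the determinant is nonzero mod `p`.
Claim: if they are not coprime they have a common root `β` in `AlgebraicClosure (ZMod p)`
(e.g. `Polynomial.isCoprime_iff_aeval_ne_zero_of_isAlgClosed` or similar).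
 - `p ∤ m`: `β` is a primitive `m`-th root of unity (`Polynomial.isRoot_cyclotomic_iff`, needs `NeZero (m : K)`), and
   `β^o = 1`, so `m ∣ o`, so `ℓ ∣ o`; but `ℓ > C`, `ℓ ≠ p`: contradiction.
 - `p = ℓ`: `Φ_m = Φ_q ^ (ℓ^(j+1) - ℓ^j)` over `ZMod ℓ` (`Polynomial.cyclotomic_mul_prime_pow_eq`), so `β` is a primitive
   `q`-th root of unity, `q ∣ o`, contradiction (`q > C`, `q ≠ p`).
 - `p = q`: `Φ_m = Φ_{ℓ^(j+1)} ^ (q-1)` (`cyclotomic_mul_prime_eq_pow_of_not_dvd` or `.._prime_pow_eq` with `k = 1`),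
   so `β` is a primitive `ℓ^(j+1)`-th root of unity and `ℓ ∣ o`, contradiction.
-/

namespace Pool.Agent.PHI

open Polynomial

/-- The orders of `A` modulo all primes have no large prime factors. -/
def OrdSmooth {n : ℕ} (A : Matrix (Fin n) (Fin n) ℤ) (C : ℕ) : Prop :=
  ∀ p : ℕ, p.Prime → ∃ o : ℕ, (A.map (Int.castRingHom (ZMod p))) ^ o = 1 ∧
    ∀ ℓ : ℕ, ℓ.Prime → C < ℓ → ℓ ≠ p → ¬ ℓ ∣ o

/-- no common root -/
theorem Cyc1_root {p : ℕ} (hp : p.Prime) (o : ℕ) {q ℓ : ℕ} (hq : q.Prime) (hℓ : ℓ.Prime)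
    (hne : q ≠ ℓ) (j : ℕ) (hqo : q ≠ p → ¬ q ∣ o) (hℓo : ℓ ≠ p → ¬ ℓ ∣ o)
    (K : Type) [Field K] [CharP K p] (β : K) (h1 : β ^ o = 1)
    (h2 : (cyclotomic (q * ℓ ^ (j + 1)) K).IsRoot β) : False := by
  have : Fact p.Prime := ⟨hp⟩
  by_cases hpq : q = p
  · subst hpq
    have hndvd : ¬ q ∣ ℓ ^ (j + 1) := by
      intro h
      have := hq.dvd_of_dvd_pow h
      exact hne ((Nat.prime_dvd_prime_iff_eq hq hℓ).1 this)
    have : NeZero ((ℓ ^ (j + 1) : ℕ) : K) := ⟨by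
      rw [Ne, CharP.cast_eq_zero_iff K q]; exact hndvd⟩
    have h3 : IsPrimitiveRoot β (ℓ ^ (j + 1)) := by
      rw [← isRoot_cyclotomic_prime_pow_mul_iff_of_charP (k := 1) (p := q)]
      rw [pow_one]; exact h2
    have h4 := h3.dvd_of_pow_eq_one o h1
    exact hℓo (Ne.symm hne) ((dvd_pow_self ℓ (Nat.succ_ne_zero j)).trans h4)
  · by_cases hpl : ℓ = p
    · subst hpl
      have hndvd : ¬ ℓ ∣ q := by
        intro h
        exact hne ((Nat.prime_dvd_prime_iff_eq hℓ hq).1 h).symm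
      have : NeZero ((q : ℕ) : K) := ⟨by
        rw [Ne, CharP.cast_eq_zero_iff K ℓ]; exact hndvd⟩
      have h3 : IsPrimitiveRoot β q := by
        rw [← isRoot_cyclotomic_prime_pow_mul_iff_of_charP (k := j + 1) (p := ℓ)]
        rw [mul_comm]; exact h2
      exact hqo hne (h3.dvd_of_pow_eq_one o h1)
    · have hndvd : ¬ p ∣ q * ℓ ^ (j + 1) := by
        intro h
        rcases (hp.dvd_mul).1 h with h | h
        · exact hpq ((Nat.prime_dvd_prime_iff_eq hp hq).1 h).symm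
        · exact hpl ((Nat.prime_dvd_prime_iff_eq hp hℓ).1 (hp.dvd_of_dvd_pow h)).symm
      have : NeZero ((q * ℓ ^ (j + 1) : ℕ) : K) := ⟨by
        rw [Ne, CharP.cast_eq_zero_iff K p]; exact hndvd⟩
      have h3 : IsPrimitiveRoot β (q * ℓ ^ (j + 1)) := isRoot_cyclotomic_iff.1 h2
      exact hqo hpq ((Dvd.intro _ rfl : q ∣ q * ℓ ^ (j + 1)).trans (h3.dvd_of_pow_eq_one o h1))

theorem natAbs_det_cyclotomic {n : ℕ} (A : Matrix (Fin n) (Fin n) ℤ) (C : ℕ) (hA : OrdSmooth A C)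
    {q ℓ : ℕ} (hq : q.Prime) (hℓ : ℓ.Prime) (hqC : C < q) (hℓC : C < ℓ) (hne : q ≠ ℓ) (j : ℕ) :
    ((aeval A) (cyclotomic (q * ℓ ^ (j + 1)) ℤ)).det.natAbs = 1 := by
  by_contra hd
  obtain ⟨p, hp, hpd⟩ := Nat.exists_prime_and_dvd hd
  have : Fact p.Prime := ⟨hp⟩
  obtain ⟨o, ho, hoC⟩ := hA p hp
  set m := q * ℓ ^ (j + 1) with hm
  set B : Matrix (Fin n) (Fin n) (ZMod p) := A.map (Int.castRingHom (ZMod p)) with hB
  have hdz : Int.castRingHom (ZMod p) ((aeval A) (cyclotomic m ℤ)).det = 0 := by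
    rw [eq_intCast, ZMod.intCast_zmod_eq_zero_iff_dvd]
    exact Int.natCast_dvd.2 hpd
  rw [RingHom.map_det] at hdz
  let φ : Matrix (Fin n) (Fin n) ℤ →+* Matrix (Fin n) (Fin n) (ZMod p) :=
    (Int.castRingHom (ZMod p)).mapMatrix
  have e1 : φ ((aeval A) (cyclotomic m ℤ)) = aeval B (cyclotomic m (ZMod p)) := by
    have h3 := aeval_algHom_apply (φ.toIntAlgHom) A (cyclotomic m ℤ)
    have h4 : φ.toIntAlgHom A = B := rfl
    have h5 : aeval B ((cyclotomic m ℤ).map (algebraMap ℤ (ZMod p))) = aeval B (cyclotomic m ℤ) :=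
      aeval_map_algebraMap (ZMod p) B (cyclotomic m ℤ)
    rw [map_cyclotomic] at h5
    rw [h5, ← h4]
    exact h3.symm
  have hcop : IsCoprime ((X : (ZMod p)[X]) ^ o - 1) (cyclotomic m (ZMod p)) := by
    refine (isCoprime_iff_aeval_ne_zero_of_isAlgClosed (k := ZMod p) (AlgebraicClosure (ZMod p))
      _ _).2 ?_
    intro β
    by_contra hcon
    push Not at hcon
    obtain ⟨h1, h2⟩ := hcon
    have : CharP (AlgebraicClosure (ZMod p)) p := charP_of_injective_algebraMap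
      (algebraMap (ZMod p) (AlgebraicClosure (ZMod p))).injective p
    refine Cyc1_root hp o hq hℓ hne j (fun h => hoC q hq hqC h) (fun h => hoC ℓ hℓ hℓC h)
      (AlgebraicClosure (ZMod p)) β ?_ ?_
    · simpa [sub_eq_zero] using h1
    · rw [← map_cyclotomic m (algebraMap (ZMod p) (AlgebraicClosure (ZMod p))), IsRoot.def,
        eval_map_algebraMap]
      exact h2
  obtain ⟨u, v, huv⟩ := hcop
  have h6 := congrArg (aeval B) huv
  rw [map_add, map_mul, map_mul, map_one] at h6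
  have h7 : aeval B ((X : (ZMod p)[X]) ^ o - 1) = 0 := by
    rw [map_sub, map_pow, aeval_X, map_one, ho, sub_self]
  rw [h7, mul_zero, zero_add, ← e1] at h6
  have h8 := congrArg Matrix.det h6
  rw [Matrix.det_mul, Matrix.det_one] at h8
  have h9 : (φ ((aeval A) (cyclotomic m ℤ))).det = 0 := hdz
  rw [h9, mul_zero] at h8
  exact zero_ne_one h8

end Pool.Agent.PHI
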