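import Pool.Agent.PHI.Cyc1

/-!
# Cyc2: `|det Φ_q(A^(ℓ^k))|` does not depend on `k`

PROOF.  Induction on `k`.  `Φ_q(A^(ℓ^k)) = aeval A (expand ℤ (ℓ^k) Φ_q)` (`Polynomial.expand_aeval`).
Let `E_k = expand ℤ (ℓ^k) (cyclotomic q ℤ)`.  Claim `E_{k+1} = cyclotomic (q * ℓ^(k+1)) ℤ * E_k`:
 `k = 0`: `Polynomial.cyclotomic_expand_eq_cyclotomic_mul` (`ℓ ∤ q`): `expand ℓ Φ_q = Φ_{qℓ} Φ_q`.
 step: `E_{k+2} = expand ℓ (E_{k+1}) = expand ℓ (Φ_{q ℓ^(k+1)}) * expand ℓ (E_k)`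
 `= Φ_{q ℓ^(k+2)} * E_{k+1}` by `Polynomial.cyclotomic_expand_eq_cyclotomic` (`ℓ ∣ q ℓ^(k+1)`) and
 `expand_expand`.  Take `aeval A`, determinants (`Matrix.det_mul`) and `natAbs_det_cyclotomic`.
-/

namespace Pool.Agent.PHI

open Polynomial

theorem Cyc2_expand {q ℓ : ℕ} (hq : q.Prime) (hℓ : ℓ.Prime) (hne : q ≠ ℓ) (k : ℕ) :
    expand ℤ (ℓ ^ (k + 1)) (cyclotomic q ℤ) =
      cyclotomic (q * ℓ ^ (k + 1)) ℤ * expand ℤ (ℓ ^ k) (cyclotomic q ℤ) := by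
  induction k with
  | zero =>
    have h : ¬ ℓ ∣ q := fun h => hne ((Nat.prime_dvd_prime_iff_eq hℓ hq).1 h).symm
    rw [zero_add, pow_one, pow_zero, expand_one, cyclotomic_expand_eq_cyclotomic_mul hℓ h ℤ]
  | succ k ih =>
    have h : ℓ ∣ q * ℓ ^ (k + 1) := Dvd.dvd.mul_left (dvd_pow_self ℓ (Nat.succ_ne_zero k)) q
    rw [pow_succ' ℓ (k + 1), ← expand_expand, ih, map_mul,
      cyclotomic_expand_eq_cyclotomic hℓ h ℤ, expand_expand, ← pow_succ']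
    congr 2
    rw [mul_assoc, mul_comm (ℓ ^ (k + 1)) ℓ]

theorem natAbs_det_cyclotomic_pow {n : ℕ} (A : Matrix (Fin n) (Fin n) ℤ) (C : ℕ)
    (hA : OrdSmooth A C) {q ℓ : ℕ} (hq : q.Prime) (hℓ : ℓ.Prime) (hqC : C < q) (hℓC : C < ℓ)
    (hne : q ≠ ℓ) (k : ℕ) :
    ((aeval (A ^ (ℓ ^ k))) (cyclotomic q ℤ)).det.natAbs =
      ((aeval A) (cyclotomic q ℤ)).det.natAbs := by
  induction k with
  | zero => rw [pow_zero, pow_one]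
  | succ k ih =>
    rw [← ih, ← expand_aeval, ← expand_aeval, Cyc2_expand hq hℓ hne k, map_mul, Matrix.det_mul,
      Int.natAbs_mul, natAbs_det_cyclotomic A C hA hq hℓ hqC hℓC hne k, one_mul]

end Pool.Agent.PHI
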