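import Mathlib

/-!
# Definitions: outer automorphisms, the subgroup `PhiF`, action on `H_1` of finite index subgroups
-/

namespace Pool.Agent.PHI

open scoped TensorProduct

/-- The inner automorphisms form a normal subgroup of the automorphism group. -/
instance innNormal (π : Type*) [Group π] : (MulAut.conj : π →* MulAut π).range.Normal := by
  constructor
  rintro _ ⟨g, rfl⟩ φ
  refine ⟨φ g, ?_⟩
  ext x
  simp [MulAut.conj_apply]

/-- The outer automorphism group `Out π = Aut π / Inn π`. -/
abbrev Out (π : Type*) [Group π] : Type _ := MulAut π ⧸ (MulAut.conj : π →* MulAut π).range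

/-- `Φ_f(G)`: the intersection of all maximal proper subgroups of `G` that have finite index
(the whole group if there are none). -/
def PhiF (G : Type*) [Group G] : Subgroup G :=
  ⨅ (M : Subgroup G) (_ : IsCoatom M) (_ : M.FiniteIndex), M

/-- The restriction of an automorphism `φ` of `π` to a subgroup `K` with `φ(K) ⊆ K`. -/
def restr {π : Type*} [Group π] (φ : MulAut π) (K : Subgroup π) (h : ∀ x ∈ K, φ x ∈ K) : K →* K :=
  (φ.toMonoidHom.comp K.subtype).codRestrict K (fun x => h x.1 x.2)

/-- The endomorphism of `H_1(K; ℂ) = K^ab ⊗ ℂ` induced by an automorphism `φ` of `π` with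
`φ(K) ⊆ K`. -/
noncomputable def H1 {π : Type*} [Group π] (φ : MulAut π) (K : Subgroup π)
    (h : ∀ x ∈ K, φ x ∈ K) :
    (ℂ ⊗[ℤ] Additive (Abelianization K)) →ₗ[ℂ] (ℂ ⊗[ℤ] Additive (Abelianization K)) :=
  ((MonoidHom.toAdditive (Abelianization.map (restr φ K h))).toIntLinearMap).baseChange ℂ

end Pool.Agent.PHI
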