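import Pool.Agent.PHI.Defs

/-!
# DefsB: the notions used in the conditional theorem
-/

namespace Pool.Agent.PHI

/-- `x` is tame: every automorphism `φ` of `π` representing the outer automorphism `θ x` acts on `H_1(K; ℂ)`, for every
finite index subgroup `K` with `φ(K) ⊆ K`, with all eigenvalues roots of unity. -/
def Tame {π M : Type*} [Group π] [Group M] (θ : M →* Out π) (x : M) : Prop :=
  ∀ φ : MulAut π, (φ : Out π) = θ x → ∀ K : Subgroup π, K.FiniteIndex →
    ∀ (hK : ∀ y ∈ K, φ y ∈ K) (μ : ℂ), Module.End.HasEigenvalue (H1 φ K hK) μ →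
      ∃ m : ℕ, 0 < m ∧ μ ^ m = 1

/-- `H` has a finitely generated abelian subgroup of finite index. -/
def VirtAb (H : Type*) [Group H] : Prop :=
  ∃ A : Subgroup H, A.FiniteIndex ∧ A.FG ∧ ∀ x ∈ A, ∀ y ∈ A, x * y = y * x

/-- `H` has a solvable subgroup of finite index. -/
def VirtSolv (H : Type*) [Group H] : Prop :=
  ∃ A : Subgroup H, A.FiniteIndex ∧ Group.IsSolvable A

/-- `M` has a finite index subgroup which is residually a finite `p`-group. -/
def VirtResP (p : ℕ) (M : Type*) [Group M] : Prop :=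
  ∃ R : Subgroup M, R.FiniteIndex ∧ ∀ a : R, a ≠ 1 →
    ∃ L : Subgroup R, L.Normal ∧ (∃ k : ℕ, L.index = p ^ k) ∧ a ∉ L

end Pool.Agent.PHI
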