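import Pool.Agent.PHI.Defs

/-!
# DefsE: the notions used in the extension theorem
-/

namespace Pool.Agent.PHI

/-- Finitely generated, residually free, without centre, and all abelian subgroups cyclic (for example
non-abelian free groups of finite rank and fundamental groups of closed orientable surfaces of genus at
least `2`). -/
structure Nice (P : Type*) [Group P] : Prop where
  fg : Group.FG P
  resFree : ∀ x : P, x ≠ 1 → ∃ ξ : P →* FreeGroup ℕ, ξ x ≠ 1
  center : ∀ x : P, (∀ y : P, x * y = y * x) → x = 1
  cyclic : ∀ A : Subgroup P, (∀ x ∈ A, ∀ y ∈ A, x * y = y * x) → ∃ a : P, A = Subgroup.zpowers a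

/-- For `P` normal in `Γ` and `G ≤ Γ`: the intersection of `Φ_f(G)` with `P`, as a subgroup of `P`. -/
def MM {Γ : Type*} [Group Γ] (P G : Subgroup Γ) : Subgroup P :=
  ((PhiF G).map G.subtype).subgroupOf P

end Pool.Agent.PHI
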