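import Pool.Agent.PHI.DefsE
import Pool.Agent.PHI.DefsB

/-!
# DefsF: the class of groups of the theorem for low genus
-/

namespace Pool.Agent.PHI

universe u

/-- `N ≤ G` has nilpotent image in every finite group to which `G` maps. -/
def FN {G : Type u} [Group G] (N : Subgroup G) : Prop :=
  ∀ (X : Type u) [Group X] [Finite X] (f : G →* X), Group.IsNilpotent (N.map f)

/-- For `G ≤ Γ`, `N ≤ G` and `P ≤ Γ`: the intersection of `N` with `P`, as a subgroup of `P`. -/
def MN {Γ : Type*} [Group Γ] (P : Subgroup Γ) {G : Subgroup Γ} (N : Subgroup G) : Subgroup P :=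
  (N.map G.subtype).subgroupOf P

/-- The strong nilpotency property of a group `Γ`. -/
def Strong (Γ : Type u) [Group Γ] : Prop :=
  ∀ (G : Subgroup Γ) (N : Subgroup G), FN N → Group.IsNilpotent N

/-- The smallest class of groups which contains the trivial groups and is closed under extensions with `Nice`
kernel, passing to finite index overgroups and to subgroups. -/
inductive Cls : (Γ : Type u) → [Group Γ] → Prop
  | triv (Γ : Type u) [Group Γ] (h : ∀ x : Γ, x = 1) : Cls Γ
  | nice (Γ : Type u) [Group Γ] (P : Subgroup Γ) [P.Normal] (hP : Nice P) (h : Cls (Γ ⧸ P)) : Cls Γ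
  | fin (Γ : Type u) [Group Γ] (Γ₀ : Subgroup Γ) [Γ₀.FiniteIndex] (h : Cls Γ₀) : Cls Γ
  | sub (Γ Γ' : Type u) [Group Γ] [Group Γ'] (f : Γ →* Γ') (hf : Function.Injective f)
      (h : Cls Γ') : Cls Γ

/-- The data of quotients used in the nilpotency criterion: `R` is normal of finite index with nilpotent
quotient, and every nontrivial element of `R` survives in a finite nilpotent quotient `N/L` in which
`R` becomes a `p`-group. -/
def Res (p : ℕ) {N : Type*} [Group N] (R : Subgroup N) : Prop :=
  (∃ _ : R.Normal, R.FiniteIndex ∧ Group.IsNilpotent (N ⧸ R)) ∧ ∀ a ∈ R, a ≠ 1 →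
    ∃ L : Subgroup N, ∃ _ : L.Normal, L.FiniteIndex ∧ a ∉ L ∧
      IsPGroup p (R.map (QuotientGroup.mk' L)) ∧ Group.IsNilpotent (N ⧸ L)

/-- `P` is residually a finite `p`-group. -/
def ResPf (p : ℕ) (P : Type*) [Group P] : Prop :=
  ∀ x : P, x ≠ 1 → ∃ K : Subgroup P, ∃ _ : K.Normal, (∃ k : ℕ, K.index = p ^ k) ∧ x ∉ K

end Pool.Agent.PHI
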