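import Mathlib

/-!
# DetR: determinant of a polynomial in a complex matrix

`det g(B) = Π_{a ∈ roots (charpoly B)} g(a)`.
-/

namespace Pool.Agent.PHI

open Polynomial

theorem DetR_card {n : ℕ} (B : Matrix (Fin n) (Fin n) ℂ) : B.charpoly.roots.card = n := by
  have h := (IsAlgClosed.splits B.charpoly).natDegree_eq_card_roots
  rw [Matrix.charpoly_natDegree_eq_dim, Fintype.card_fin] at h
  exact h.symm

theorem DetR_const {n : ℕ} (B : Matrix (Fin n) (Fin n) ℂ) (c : ℂ) :
    ((aeval B) (C c)).det = (B.charpoly.roots.map (fun a => (C c).eval a)).prod := by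
  simp only [aeval_C, eval_C, Multiset.map_const', Multiset.prod_replicate, DetR_card]
  rw [Matrix.algebraMap_eq_diagonal, Matrix.det_diagonal]
  simp

theorem DetR_lin {n : ℕ} (B : Matrix (Fin n) (Fin n) ℂ) (z : ℂ) :
    ((aeval B) (X - C z)).det = (B.charpoly.roots.map (fun a => (X - C z).eval a)).prod := by
  have h1 : B.charpoly.eval z = (B.charpoly.roots.map (fun a => z - a)).prod := by
    conv_lhs => rw [(IsAlgClosed.splits B.charpoly).eq_prod_roots_of_monic B.charpoly_monic]
    rw [eval_multiset_prod, Multiset.map_map]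
    simp
  have h2 : (aeval B) (X - C z) = -(Matrix.scalar (Fin n) z - B) := by
    rw [map_sub, aeval_X, aeval_C, Matrix.algebraMap_eq_diagonal]
    simp [Matrix.scalar_apply]
  rw [h2, Matrix.det_neg, ← Matrix.eval_charpoly, h1, Fintype.card_fin]
  have h3 : (B.charpoly.roots.map (fun a => (X - C z).eval a)).prod
      = (B.charpoly.roots.map (fun a => (-1 : ℂ) * (z - a))).prod := by
    congr 1
    apply Multiset.map_congr rfl
    intro a _
    simp
  rw [h3, Multiset.prod_map_mul]
  simp [DetR_card]

theorem DetR_mul {n : ℕ} (B : Matrix (Fin n) (Fin n) ℂ) {f g : ℂ[X]}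
    (hf : ((aeval B) f).det = (B.charpoly.roots.map (fun a => f.eval a)).prod)
    (hg : ((aeval B) g).det = (B.charpoly.roots.map (fun a => g.eval a)).prod) :
    ((aeval B) (f * g)).det = (B.charpoly.roots.map (fun a => (f * g).eval a)).prod := by
  rw [map_mul, Matrix.det_mul, hf, hg, ← Multiset.prod_map_mul]
  simp

theorem det_aeval_eq_prod {n : ℕ} (B : Matrix (Fin n) (Fin n) ℂ) (g : ℂ[X]) :
    ((aeval B) g).det = (B.charpoly.roots.map (fun a => g.eval a)).prod := by
  rw [(IsAlgClosed.splits g).eq_prod_roots]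
  apply DetR_mul B (DetR_const B _)
  generalize g.roots = s
  induction s using Multiset.induction_on with
  | empty => simp
  | cons z s ih =>
    rw [Multiset.map_cons, Multiset.prod_cons]
    exact DetR_mul B (DetR_lin B z) ih

end Pool.Agent.PHI
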