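import Pool.Agent.PHI.LinA

/-!
# Elem: `ℓ`-subgroups of `GL_n(F)` are abelian for `ℓ > n`, `ℓ ≠ char F`

PROOF.  `P` is a finite `ℓ`-group.  Suppose it is not commutative.  Then there are `x, y ∈ P` such that
`z = x y x⁻¹ y⁻¹` is central in `P` and `z ≠ 1`:  `P` is nilpotent (`IsPGroup.isNilpotent`), so
(e.g.) there is `x` in `upperCentralSeries P 2` but not in `upperCentralSeries P 1 = center P` (if these two were
equal the series would be constant and so the centre would be everything;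
`mem_upperCentralSeries_succ_iff`).  Or: `P ⧸ center P` is a nontrivial `ℓ`-group so has nontrivial centre
(`IsPGroup.center_nontrivial`), take `x` in its preimage outside `center P`.
As `x ∉ center P` there is `y ∈ P` with `z = x y x⁻¹ y⁻¹ ≠ 1`; `z ∈ center P`.
`z` has order `ℓ^k` for some `k` (`IsPGroup`).  Apply `eq_one_of_twist` to the matrices of `x, y, z`
(`x y = z (y x)`): `z = 1`, contradiction.
-/

namespace Pool.Agent.PHI

open Matrix

theorem Elem_exists {G : Type*} [Group G] [Finite G] {ℓ : ℕ} (hℓ : ℓ.Prime) (hG : IsPGroup ℓ G)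
    (hne : Subgroup.center G ≠ ⊤) :
    ∃ x y : G, x * y * x⁻¹ * y⁻¹ ≠ 1 ∧ ∀ g : G, g * (x * y * x⁻¹ * y⁻¹) = (x * y * x⁻¹ * y⁻¹) * g := by
  have := Fact.mk hℓ
  have hnt : Nontrivial (G ⧸ Subgroup.center G) := by
    rw [QuotientGroup.nontrivial_iff]
    exact hne
  have h1 : IsPGroup ℓ (G ⧸ Subgroup.center G) := hG.to_quotient _
  have h2 := h1.center_nontrivial
  obtain ⟨a, ha, ha1⟩ := (Subgroup.nontrivial_iff_exists_ne_one _).1 h2
  obtain ⟨x, rfl⟩ := QuotientGroup.mk_surjective a
  have hx : x ∉ Subgroup.center G := fun h => ha1 ((QuotientGroup.eq_one_iff x).2 h)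
  have hcomm : ∀ y : G, x * y * x⁻¹ * y⁻¹ ∈ Subgroup.center G := by
    intro y
    rw [← QuotientGroup.eq_one_iff]
    have h3 := Subgroup.mem_center_iff.1 ha (y : G ⧸ Subgroup.center G)
    rw [QuotientGroup.mk_mul, QuotientGroup.mk_mul, QuotientGroup.mk_mul, QuotientGroup.mk_inv,
      QuotientGroup.mk_inv, ← h3]
    group
  have : ∃ y, x * y * x⁻¹ * y⁻¹ ≠ 1 := by
    by_contra hc
    push Not at hc
    apply hx
    rw [Subgroup.mem_center_iff]
    intro y
    have h4 := hc y
    rw [mul_inv_eq_one, mul_inv_eq_iff_eq_mul] at h4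
    exact h4.symm
  obtain ⟨y, hy⟩ := this
  exact ⟨x, y, hy, fun g => Subgroup.mem_center_iff.1 (hcomm y) g⟩

theorem comm_of_isPGroup {F : Type*} [Field F] {n ℓ : ℕ} (hℓ : ℓ.Prime) (hn : n < ℓ)
    (hF : (ℓ : F) ≠ 0) (P : Subgroup (GL (Fin n) F)) [Finite P] (hP : IsPGroup ℓ P)
    (x y : GL (Fin n) F) (hx : x ∈ P) (hy : y ∈ P) : x * y = y * x := by
  classical
  have hc : Subgroup.center P = ⊤ := by
    by_contra hne
    obtain ⟨a, b, hab, hz⟩ := Elem_exists hℓ hP hne
    set z : P := a * b * a⁻¹ * b⁻¹ with hzd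
    obtain ⟨k, hk⟩ := hP z
    have hxy : a * b = z * (b * a) := by
      rw [hzd]; group
    have hval : ∀ u v : P, u = v → ((u : GL (Fin n) F) : Matrix (Fin n) (Fin n) F) =
        ((v : GL (Fin n) F) : Matrix (Fin n) (Fin n) F) := fun u v h => by rw [h]
    have h1 := eq_one_of_twist (k := k) hℓ hn hF ((a : GL (Fin n) F) : Matrix (Fin n) (Fin n) F)
      ((b : GL (Fin n) F) : Matrix (Fin n) (Fin n) F) ((z : GL (Fin n) F) : Matrix (Fin n) (Fin n) F)
      (Matrix.isUnits_det_units _) (Matrix.isUnits_det_units _)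
      (by have := hval _ _ hxy; simpa using this) (by have := hval _ _ (hz a); simpa using this.symm)
      (by have := hval _ _ (hz b); simpa using this.symm) (by have := hval _ _ hk; simpa using this)
    apply hab
    apply Subtype.ext
    apply Units.ext
    exact h1
  have h2 : (⟨y, hy⟩ : P) ∈ Subgroup.center P := by
    rw [hc]; trivial
  have h3 := Subgroup.mem_center_iff.1 h2 ⟨x, hx⟩
  exact congrArg Subtype.val h3

end Pool.Agent.PHI
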