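import Mathlib

/-!
# Ping: a free group of infinite rank in the level `3` congruence subgroup of `SL(2, ℤ)`

PROOF.  For `i : ℕ` let `a i = T^i L T^(-i)`, `T = !![1, 1; 0, 1]`, `L = !![1, 0; 6, 1]`, i.e.
`a i = !![1 + 6 i, -6 i^2; 6, 1 - 6 i]`, which is `1` modulo `3`.  `η₀ = FreeGroup.lift a`.  All values are `1` modulo
`3` (the reduction `SL(2, ℤ) → SL(2, ZMod 3)` kills all generators).
Injectivity: ping-pong, `FreeGroup.injective_lift_of_ping_pong` (Mathlib/GroupTheory/CoprodI.lean).  Let `SL(2, ℤ)` act on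
the nonzero vectors of `ℤ²` (or on `ℚ²`, or use the action on `OnePoint ℚ`); the slope of `(x, y)` is `s = x / y` (`∞` if
`y = 0`), `T` acts as `s ↦ s + 1`, `L` as `s ↦ s / (6 s + 1) = 1 / (6 + 1/s)`.
`X i = {s : 0 ≤ s - i < 1/2}`, `Y i = {s : -1/2 < s - i < 0}`: all these sets are pairwise disjoint and nonempty.
`L (Y 0)ᶜ ⊆ X 0`: `s = ∞ ↦ 1/6`, `s = 0 ↦ 0`, `s > 0 ↦ (0, 1/6)`, `s ≤ -1/2`: `1/s ∈ [-2, 0)`,
`s ↦ 1/(6 + 1/s) ∈ (1/6, 1/4]`.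
`L⁻¹ (X 0)ᶜ ⊆ Y 0`: `s ↦ s/(1 - 6 s) = 1/(1/s - 6)`: `s = ∞ ↦ -1/6`; `s < 0`: `1/s - 6 < -6`, image in
`(-1/6, 0)`; `s ≥ 1/2`: `1/s ∈ (0, 2]`, `1/s - 6 ∈ (-6, -4]`, image in `[-1/4, -1/6)`.  The general `i` follows by
conjugation with `T^i`.
(In terms of integer vectors `(x, y) ≠ 0`: `X i: y ≠ 0 ∧ 0 ≤ 2 y (x - i y) < y²`, `Y i: -y² < 2 y (x - i y) < 0`;
`a i (x, y) = ((1 + 6 i) x - 6 i² y, 6 x + (1 - 6 i) y)`; all inclusions are polynomial inequalities, `nlinarith`;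
put `t = x - i y`: then `a i` is `t ↦ t`, `y ↦ y + 6 t`, so the claims are:
`¬ (y ≠ 0 ∧ -y² < 2 y t < 0) → (y + 6t ≠ 0 ∧ 0 ≤ 2 (y + 6t) t < (y + 6 t)²)` for `(t, y) ≠ 0` and similarly for the inverse
`y ↦ y - 6 t`.)
-/

namespace Pool.Agent.PHI

open Matrix MatrixGroups

/-- the generators -/
def Ping_a (i : ℕ) : SL(2, ℤ) :=
  ⟨!![1 + 6 * (i : ℤ), -6 * (i : ℤ) ^ 2; 6, 1 - 6 * (i : ℤ)], by
    rw [Matrix.det_fin_two_of]; ring⟩

theorem Ping_a00 (i : ℕ) : (Ping_a i) 0 0 = 1 + 6 * (i : ℤ) := rfl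
theorem Ping_a01 (i : ℕ) : (Ping_a i) 0 1 = -6 * (i : ℤ) ^ 2 := rfl
theorem Ping_a10 (i : ℕ) : (Ping_a i) 1 0 = 6 := rfl
theorem Ping_a11 (i : ℕ) : (Ping_a i) 1 1 = 1 - 6 * (i : ℤ) := rfl

/-- the sets `X i` -/
def Ping_X (i : ℕ) : Set SL(2, ℤ) :=
  {g | g 1 0 ≠ 0 ∧ 0 ≤ 2 * g 1 0 * (g 0 0 - i * g 1 0) ∧
    2 * g 1 0 * (g 0 0 - i * g 1 0) < g 1 0 ^ 2}

/-- the sets `Y i` -/
def Ping_Y (i : ℕ) : Set SL(2, ℤ) :=
  {g | -(g 1 0 ^ 2) < 2 * g 1 0 * (g 0 0 - i * g 1 0) ∧ 2 * g 1 0 * (g 0 0 - i * g 1 0) < 0}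

theorem Ping_key (t y : ℤ) (h0 : ¬ (t = 0 ∧ y = 0)) (h : ¬ (-(y ^ 2) < 2 * y * t ∧ 2 * y * t < 0)) :
    y + 6 * t ≠ 0 ∧ 0 ≤ 2 * (y + 6 * t) * t ∧ 2 * (y + 6 * t) * t < (y + 6 * t) ^ 2 := by
  have hpos : 0 < y ^ 2 + t ^ 2 := by
    by_contra hc
    push Not at hc
    have h1 : y = 0 := by nlinarith [sq_nonneg y, sq_nonneg t]
    have h2 : t = 0 := by nlinarith [sq_nonneg y, sq_nonneg t]
    exact h0 ⟨h2, h1⟩
  have hk : -(2 * t ^ 2) ≤ y * t := by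
    by_cases h1 : 0 ≤ 2 * y * t
    · nlinarith [sq_nonneg t]
    · push Not at h1
      have h2 : 2 * y * t ≤ -(y ^ 2) := by
        by_contra hc
        push Not at hc
        exact h ⟨hc, h1⟩
      by_contra hc
      push Not at hc
      nlinarith [sq_nonneg (y + 2 * t)]
  have h3 : 2 * (y + 6 * t) * t < (y + 6 * t) ^ 2 := by
    nlinarith [sq_nonneg y, sq_nonneg t]
  refine ⟨?_, by nlinarith [sq_nonneg t], h3⟩
  intro h4
  rw [h4] at h3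
  simp at h3

theorem Ping_key' (t y : ℤ) (h0 : ¬ (t = 0 ∧ y = 0))
    (h : ¬ (y ≠ 0 ∧ 0 ≤ 2 * y * t ∧ 2 * y * t < y ^ 2)) :
    -((y - 6 * t) ^ 2) < 2 * (y - 6 * t) * t ∧ 2 * (y - 6 * t) * t < 0 := by
  have hpos : 0 < y ^ 2 + t ^ 2 := by
    by_contra hc
    push Not at hc
    have h1 : y = 0 := by nlinarith [sq_nonneg y, sq_nonneg t]
    have h2 : t = 0 := by nlinarith [sq_nonneg y, sq_nonneg t]
    exact h0 ⟨h2, h1⟩
  have hk : y * t ≤ 2 * t ^ 2 ∧ y * t < 6 * t ^ 2 := by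
    by_cases hy : y = 0
    · subst hy
      have : 0 < t ^ 2 := by simpa using hpos
      constructor <;> nlinarith
    by_cases h1 : 2 * y * t < 0
    · constructor <;> nlinarith [sq_nonneg t]
    · push Not at h1
      have h2 : y ^ 2 ≤ 2 * y * t := by
        by_contra hc
        push Not at hc
        exact h ⟨hy, h1, hc⟩
      have h3 : y * t ≤ 2 * t ^ 2 := by
        by_contra hc
        push Not at hc
        nlinarith [sq_nonneg (y - 2 * t)]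
      refine ⟨h3, ?_⟩
      have h4 : 0 < t ^ 2 := by
        rcases (sq_nonneg t).lt_or_eq with h5 | h5
        · exact h5
        · have h6 : t = 0 := by
            exact pow_eq_zero_iff (two_ne_zero) |>.1 h5.symm
          subst h6
          nlinarith [sq_nonneg y]
      nlinarith
  constructor
  · nlinarith [sq_nonneg y, sq_nonneg t]
  · nlinarith [sq_nonneg y, sq_nonneg t]

theorem Ping_ne (i : ℕ) (g : SL(2, ℤ)) : ¬ (g 0 0 - i * g 1 0 = 0 ∧ g 1 0 = 0) := by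
  rintro ⟨h1, h2⟩
  have h3 := g.det_coe
  rw [Matrix.det_fin_two] at h3
  rw [h2] at h1 h3
  simp at h1
  rw [h1] at h3
  simp at h3

theorem Ping_mul (i : ℕ) (g : SL(2, ℤ)) :
    (Ping_a i * g) 1 0 = g 1 0 + 6 * (g 0 0 - i * g 1 0) ∧
    (Ping_a i * g) 0 0 - i * (Ping_a i * g) 1 0 = g 0 0 - i * g 1 0 := by
  have h1 : (Ping_a i * g) 1 0 = g 1 0 + 6 * (g 0 0 - i * g 1 0) := by
    rw [Matrix.SpecialLinearGroup.coe_mul, Matrix.mul_apply, Fin.sum_univ_two, Ping_a10, Ping_a11]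
    ring
  have h2 : (Ping_a i * g) 0 0 = (1 + 6 * (i : ℤ)) * g 0 0 + -6 * (i : ℤ) ^ 2 * g 1 0 := by
    rw [Matrix.SpecialLinearGroup.coe_mul, Matrix.mul_apply, Fin.sum_univ_two, Ping_a00, Ping_a01]
  refine ⟨h1, ?_⟩
  rw [h1, h2]
  ring

theorem Ping_inv_mul (i : ℕ) (g : SL(2, ℤ)) :
    ((Ping_a i)⁻¹ * g) 1 0 = g 1 0 - 6 * (g 0 0 - i * g 1 0) ∧
    ((Ping_a i)⁻¹ * g) 0 0 - i * ((Ping_a i)⁻¹ * g) 1 0 = g 0 0 - i * g 1 0 := by
  have h := Ping_mul i ((Ping_a i)⁻¹ * g)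
  rw [mul_inv_cancel_left] at h
  obtain ⟨h1, h2⟩ := h
  refine ⟨?_, h2.symm⟩
  rw [← h2] at h1
  linarith

theorem Ping_apart {i j : ℕ} (hij : i ≠ j) {y A : ℤ} (hy : 0 < y ^ 2)
    (h1 : -(y ^ 2) < A - (A + 2 * ((i : ℤ) - j) * y ^ 2))
    (h2 : A - (A + 2 * ((i : ℤ) - j) * y ^ 2) < y ^ 2) : False := by
  rcases lt_or_gt_of_ne hij with h | h
  · have h3 : (i : ℤ) - j ≤ -1 := by omega
    nlinarith
  · have h3 : (1 : ℤ) ≤ (i : ℤ) - j := by omega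
    nlinarith

theorem exists_free_embedding : ∃ η : FreeGroup ℕ →* SL(2, ℤ), Function.Injective η ∧
    ∀ w, Matrix.SpecialLinearGroup.map (Int.castRingHom (ZMod 3)) (η w) = 1 := by
  refine ⟨FreeGroup.lift Ping_a, ?_, ?_⟩
  · refine FreeGroup.injective_lift_of_ping_pong (α := SL(2, ℤ)) Ping_a Ping_X Ping_Y ?_ ?_ ?_ ?_ ?_ ?_
    · intro i
      refine ⟨⟨!![(i : ℤ), -1; 1, 0], by rw [Matrix.det_fin_two_of]; ring⟩, ?_⟩
      show (1 : ℤ) ≠ 0 ∧ 0 ≤ 2 * (1 : ℤ) * ((i : ℤ) - i * 1) ∧ 2 * (1 : ℤ) * ((i : ℤ) - i * 1) < 1 ^ 2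
      simp
    · intro i j hij
      rw [Function.onFun, Set.disjoint_left]
      rintro g ⟨hy, h1, h2⟩ ⟨-, h3, h4⟩
      have hy2 : 0 < g 1 0 ^ 2 := by positivity
      refine Ping_apart hij hy2 (A := 2 * g 1 0 * (g 0 0 - i * g 1 0)) ?_ ?_
      · have : 2 * g 1 0 * (g 0 0 - i * g 1 0) + 2 * ((i : ℤ) - j) * g 1 0 ^ 2 =
          2 * g 1 0 * (g 0 0 - j * g 1 0) := by ring
        rw [this]; linarith
      · have : 2 * g 1 0 * (g 0 0 - i * g 1 0) + 2 * ((i : ℤ) - j) * g 1 0 ^ 2 =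
          2 * g 1 0 * (g 0 0 - j * g 1 0) := by ring
        rw [this]; linarith
    · intro i j hij
      rw [Function.onFun, Set.disjoint_left]
      rintro g ⟨h1, h2⟩ ⟨h3, h4⟩
      have hy2 : 0 < g 1 0 ^ 2 := by linarith
      refine Ping_apart hij hy2 (A := 2 * g 1 0 * (g 0 0 - i * g 1 0)) ?_ ?_
      · have : 2 * g 1 0 * (g 0 0 - i * g 1 0) + 2 * ((i : ℤ) - j) * g 1 0 ^ 2 =
          2 * g 1 0 * (g 0 0 - j * g 1 0) := by ring
        rw [this]; linarith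
      · have : 2 * g 1 0 * (g 0 0 - i * g 1 0) + 2 * ((i : ℤ) - j) * g 1 0 ^ 2 =
          2 * g 1 0 * (g 0 0 - j * g 1 0) := by ring
        rw [this]; linarith
    · intro i j
      rw [Set.disjoint_left]
      rintro g ⟨hy, h1, h2⟩ ⟨h3, h4⟩
      have hy2 : 0 < g 1 0 ^ 2 := by positivity
      have : 2 * g 1 0 * (g 0 0 - i * g 1 0) - 2 * g 1 0 * (g 0 0 - j * g 1 0) =
          2 * (((j : ℤ) - i) * g 1 0 ^ 2) := by ring
      have h5 : 0 < ((j : ℤ) - i) * g 1 0 ^ 2 := by linarith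
      have h6 : ((j : ℤ) - i) * g 1 0 ^ 2 < g 1 0 ^ 2 := by linarith
      have h7 : 0 < (j : ℤ) - i := pos_of_mul_pos_left h5 hy2.le
      nlinarith
    · intro i
      rintro _ ⟨g, hg, rfl⟩
      have h1 := Ping_key (g 0 0 - i * g 1 0) (g 1 0) (Ping_ne i g) hg
      obtain ⟨h2, h3⟩ := Ping_mul i g
      show Ping_a i * g ∈ Ping_X i
      simp only [Ping_X, Set.mem_ofPred_eq]
      rw [h3, h2]
      exact h1
    · intro i
      rintro _ ⟨g, hg, rfl⟩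
      have h1 := Ping_key' (g 0 0 - i * g 1 0) (g 1 0) (Ping_ne i g) hg
      obtain ⟨h2, h3⟩ := Ping_inv_mul i g
      show (Ping_a i)⁻¹ * g ∈ Ping_Y i
      simp only [Ping_Y, Set.mem_ofPred_eq]
      rw [h3, h2]
      exact h1
  · have h : (Matrix.SpecialLinearGroup.map (Int.castRingHom (ZMod 3))).comp
        (FreeGroup.lift Ping_a) = 1 := by
      ext1 i
      have h6 : (6 : ZMod 3) = 0 := by decide
      have hm : ∀ r s : Fin 2, ((Matrix.SpecialLinearGroup.map (Int.castRingHom (ZMod 3)))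
          (Ping_a i)) r s = ((Ping_a i r s : ℤ) : ZMod 3) := fun r s => rfl
      ext r s
      rw [MonoidHom.comp_apply, FreeGroup.lift_apply_of, hm]
      fin_cases r <;> fin_cases s
      · show ((Ping_a i 0 0 : ℤ) : ZMod 3) = 1
        rw [Ping_a00]; push_cast; rw [h6]; ring
      · show ((Ping_a i 0 1 : ℤ) : ZMod 3) = 0
        rw [Ping_a01]; push_cast; rw [h6]; ring
      · show ((Ping_a i 1 0 : ℤ) : ZMod 3) = 0
        rw [Ping_a10]; push_cast; rw [h6]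
      · show ((Ping_a i 1 1 : ℤ) : ZMod 3) = 1
        rw [Ping_a11]; push_cast; rw [h6]; ring
    intro w
    exact DFunLike.congr_fun h w

end Pool.Agent.PHI
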