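import Pool.Agent.PHI.DefsE
import Pool.Agent.PHI.PhiN
import Pool.Agent.PHI.CharQ
import Pool.Agent.PHI.Ping

/-!
# Odd: no element of `Φ_f(G)` inverts a nontrivial element of `Φ_f(G) ∩ P`

PROOF.  Let `m ∈ MM P G`, `m ≠ 1`, `g ∈ PhiF G`, and suppose `g m g⁻¹ = m⁻¹`.  `P` has no centre: there is `x ∈ P` with
`c = m x m⁻¹ x⁻¹ ≠ 1`.  `P` is residually free: `ξ : P → FreeGroup ℕ` with `ξ c ≠ 1`, and with `η₀` of
`exists_free_embedding` the matrix `A = η₀ (ξ c) ≠ 1` is `1` modulo `3`.  Choose `k ≥ 1` such that `A` is not `1` modulo `3^k`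
(a nonzero entry of `A - 1` is not divisible by all powers of `3`).  Let `T ≤ SL(2, ZMod (3^k))` be the image of
`η₀` composed with the reduction; it is a `3`-group: a matrix `B ≡ 1` mod `3` satisfies `B^(3^j) ≡ 1` mod `3^(j+1)`
(induction: `(1 + 3^j E)^3 = 1 + 3^(j+1) (...)`).  So there is `τ : P →* T` with `τ c ≠ 1`, `T` a finite `3`-group.
Let `K` be the characteristic subgroup of `exists_char_quot` for `T`; `c ∉ K` and all elements of `P ⧸ K` have order a
power of `3`.  Let `cK : Γ →* MulAut (P ⧸ K)` be the conjugation action (as in module `NilpM`), `f = cK.comp G.subtype`, and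
`N = (PhiF G).map f`, nilpotent by `map_phiF_isNilpotent`.  `u = f m ∈ N` (`m` as an element of `G`) is conjugation by
`m K`; `u ≠ 1` because `[m, x] = c ∉ K`; its order is a power of `3`.  `v = f g ∈ N`, `v u v⁻¹ = u⁻¹`.  In the
nilpotent group `N`: `[v, u] = u⁻²`, by induction `u^(2^i) ∈ lowerCentralSeries N i` (up to sign), so `u^(2^i) = 1` for some `i`.  The order of `u`
is a power of `2` and of `3`: `u = 1`.  Contradiction.
-/

namespace Pool.Agent.PHI

open Matrix MatrixGroups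

open scoped commutatorElement in
/-- An element of a nilpotent group that is inverted by another one has order a power of `2`. -/
theorem Odd_nilp {H : Type*} [Group H] (S : Subgroup H) (hS : Group.IsNilpotent S) (u v : H)
    (hu : u ∈ S) (hv : v ∈ S) (h : v * u * v⁻¹ = u⁻¹) : ∃ i : ℕ, u ^ 2 ^ i = 1 := by
  obtain ⟨n, hn⟩ := Subgroup.isNilpotent_iff_lowerCentralSeries S |>.1 hS
  have key : ∀ i : ℕ, u ^ 2 ^ i ∈ S.lowerCentralSeries i := by
    intro i
    induction i with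
    | zero => simpa using hu
    | succ i ih =>
      have h1 : v * (u ^ 2 ^ i) * v⁻¹ = (u ^ 2 ^ i)⁻¹ := by
        rw [← inv_pow, ← h, conj_pow]
      have h2 : u ^ 2 ^ (i + 1) = ⁅u ^ 2 ^ i, v⁆ := by
        have h3 : v * (u ^ 2 ^ i)⁻¹ * v⁻¹ = u ^ 2 ^ i := by
          have := congrArg (fun z => z⁻¹) h1
          simpa [mul_assoc] using this
        rw [commutatorElement_def, mul_assoc, mul_assoc, ← mul_assoc v, h3, pow_succ, pow_mul, pow_two]
      rw [h2, Subgroup.lowerCentralSeries_succ]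
      exact Subgroup.commutator_mem_commutator ih hv
  refine ⟨n, ?_⟩
  have := key n
  rw [hn] at this
  exact Subgroup.mem_bot.1 this

/-- Powers of matrices that are `1` modulo `3`. -/
theorem Odd_pow (B E : Matrix (Fin 2) (Fin 2) ℤ) (hB : B = 1 + (3 : ℤ) • E) (j : ℕ) :
    ∃ E' : Matrix (Fin 2) (Fin 2) ℤ, B ^ 3 ^ j = 1 + ((3 : ℤ) ^ (j + 1)) • E' := by
  induction j with
  | zero => exact ⟨E, by simpa using hB⟩
  | succ j ih =>
    obtain ⟨F, hF⟩ := ih
    refine ⟨F + (3 : ℤ) ^ (j + 1) • F ^ 2 + (3 : ℤ) ^ (2 * j + 1) • F ^ 3, ?_⟩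
    rw [pow_succ 3 j, pow_mul, hF]
    have h0 : ∀ X : Matrix (Fin 2) (Fin 2) ℤ,
        (1 + X) ^ 3 = 1 + (3 : ℤ) • X + (3 : ℤ) • X ^ 2 + X ^ 3 := by
      intro X
      noncomm_ring
    have h1 : (1 + (3 : ℤ) ^ (j + 1) • F) ^ 3 =
        1 + (3 * (3 : ℤ) ^ (j + 1)) • F + (3 * ((3 : ℤ) ^ (j + 1)) ^ 2) • F ^ 2 +
          ((3 : ℤ) ^ (j + 1)) ^ 3 • F ^ 3 := by
      rw [h0, smul_pow, smul_pow, smul_smul, smul_smul]
    rw [h1]
    simp only [smul_add, smul_smul, ← add_assoc]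
    congr 1
    · congr 1
      · congr 2
        ring
      · congr 1
        ring
    · congr 1
      ring

/-- The reduction `SL(2, ℤ) → SL(2, ZMod (3^k))`. -/
def Odd_red (k : ℕ) : SL(2, ℤ) →* SL(2, ZMod (3 ^ k)) :=
  Matrix.SpecialLinearGroup.map (Int.castRingHom (ZMod (3 ^ k)))

theorem Odd_red_pow (k : ℕ) (b : SL(2, ℤ))
    (hb : Matrix.SpecialLinearGroup.map (Int.castRingHom (ZMod 3)) b = 1) :
    (Odd_red k b) ^ 3 ^ k = 1 := by
  have h3 : ∀ i j, (3 : ℤ) ∣ (b : Matrix (Fin 2) (Fin 2) ℤ) i j - (1 : Matrix (Fin 2) (Fin 2) ℤ) i j := by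
    intro i j
    have h1 := congrArg (fun s : SL(2, ZMod 3) => (s : Matrix (Fin 2) (Fin 2) (ZMod 3)) i j) hb
    simp only [Matrix.SpecialLinearGroup.map_apply_coe, RingHom.mapMatrix_apply, Matrix.map_apply,
      Matrix.SpecialLinearGroup.coe_one] at h1
    have h2 : (((b : Matrix (Fin 2) (Fin 2) ℤ) i j - (1 : Matrix (Fin 2) (Fin 2) ℤ) i j : ℤ) : ZMod 3) = 0 := by
      push_cast
      rw [sub_eq_zero]
      simpa [Matrix.one_apply] using h1
    exact (ZMod.intCast_zmod_eq_zero_iff_dvd _ 3).1 h2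
  choose E hE using h3
  have hB : (b : Matrix (Fin 2) (Fin 2) ℤ) = 1 + (3 : ℤ) • (Matrix.of E) := by
    ext i j
    have := hE i j
    simp only [Matrix.add_apply, Matrix.smul_apply, Matrix.of_apply, smul_eq_mul]
    linarith
  obtain ⟨E', hE'⟩ := Odd_pow _ _ hB k
  rw [← map_pow]
  ext i j
  have h4 : ((b ^ 3 ^ k : SL(2, ℤ)) : Matrix (Fin 2) (Fin 2) ℤ) = 1 + ((3 : ℤ) ^ (k + 1)) • E' := by
    rw [Matrix.SpecialLinearGroup.coe_pow, hE']
  have h5 : ((3 : ZMod (3 ^ k)) ^ (k + 1)) = 0 := by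
    have : ((3 ^ k : ℕ) : ZMod (3 ^ k)) = 0 := ZMod.natCast_self _
    push_cast at this
    rw [pow_succ, this, zero_mul]
  simp only [Odd_red, Matrix.SpecialLinearGroup.map_apply_coe, RingHom.mapMatrix_apply,
    Matrix.map_apply, Matrix.SpecialLinearGroup.coe_one, h4, Matrix.add_apply, Matrix.smul_apply,
    smul_eq_mul]
  rw [map_add, map_mul]
  simp [h5, Matrix.one_apply]

theorem Odd_one_cast {R : Type*} [CommRing R] (i j : Fin 2) :
    (((1 : Matrix (Fin 2) (Fin 2) ℤ) i j : ℤ) : R) = (1 : Matrix (Fin 2) (Fin 2) R) i j := by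
  by_cases h : i = j
  · subst h; simp
  · rw [Matrix.one_apply_ne h, Matrix.one_apply_ne h, Int.cast_zero]

theorem Odd_exists_ne (A : SL(2, ℤ)) (hA : A ≠ 1) : ∃ k : ℕ, Odd_red k A ≠ 1 := by
  obtain ⟨i, j, hij⟩ : ∃ i j, (A : Matrix (Fin 2) (Fin 2) ℤ) i j ≠ (1 : Matrix (Fin 2) (Fin 2) ℤ) i j := by
    by_contra hcon
    push Not at hcon
    exact hA (by ext i j; simpa using hcon i j)
  set n : ℤ := (A : Matrix (Fin 2) (Fin 2) ℤ) i j - (1 : Matrix (Fin 2) (Fin 2) ℤ) i j with hn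
  have hn0 : n ≠ 0 := sub_ne_zero.2 hij
  refine ⟨n.natAbs, fun h => ?_⟩
  have h1 := congrArg (fun s : SL(2, ZMod (3 ^ n.natAbs)) =>
    (s : Matrix (Fin 2) (Fin 2) (ZMod (3 ^ n.natAbs))) i j) h
  simp only [Odd_red, Matrix.SpecialLinearGroup.map_apply_coe, RingHom.mapMatrix_apply, Matrix.map_apply,
      Matrix.SpecialLinearGroup.coe_one] at h1
  have h2 : ((n : ℤ) : ZMod (3 ^ n.natAbs)) = 0 := by
    rw [hn, Int.cast_sub, sub_eq_zero]
    rw [Odd_one_cast]
    exact h1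
  have h3 := (ZMod.intCast_zmod_eq_zero_iff_dvd _ _).1 h2
  have h4 : 3 ^ n.natAbs ≤ n.natAbs := by
    apply Nat.le_of_dvd (Int.natAbs_pos.2 hn0)
    have := Int.natAbs_dvd_natAbs.2 h3
    simpa using this
  exact absurd h4 (not_le.2 (Nat.lt_pow_self (by norm_num)))

/-- The conjugation action on a characteristic quotient of a normal subgroup. -/
def Odd_c {Γ : Type*} [Group Γ] (P : Subgroup Γ) [P.Normal] (K : Subgroup P)
    [hK : K.Characteristic] : Γ →* MulAut (P ⧸ K) where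
  toFun γ := QuotientGroup.congr K K (MulAut.conjNormal γ)
    (Subgroup.characteristic_iff_map_eq.1 hK _)
  map_one' := by
    ext x
    induction x using QuotientGroup.induction_on with
    | H x => simp
  map_mul' a b := by
    ext x
    induction x using QuotientGroup.induction_on with
    | H x =>
      change ((MulAut.conjNormal (a * b) x : P) : P ⧸ K) =
        ((MulAut.conjNormal a (MulAut.conjNormal b x) : P) : P ⧸ K)
      rw [map_mul]
      rfl

theorem Odd_c_apply {Γ : Type*} [Group Γ] (P : Subgroup Γ) [P.Normal] (K : Subgroup P)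
    [hK : K.Characteristic] (γ : Γ) (x : P) :
    Odd_c P K γ (x : P ⧸ K) = ((MulAut.conjNormal γ x : P) : P ⧸ K) := rfl

theorem Odd_c_coe {Γ : Type*} [Group Γ] (P : Subgroup Γ) [P.Normal] (K : Subgroup P)
    [hK : K.Characteristic] (y x : P) :
    Odd_c P K (y : Γ) (x : P ⧸ K) = ((y * x * y⁻¹ : P) : P ⧸ K) := by
  rw [Odd_c_apply]
  congr 1

theorem conj_ne_inv {Γ : Type*} [Group Γ] (P : Subgroup Γ) [P.Normal] (hP : Nice P)
    (G : Subgroup Γ) (m : P) (hm : m ∈ MM P G) (hm1 : m ≠ 1) (g : G) (hg : g ∈ PhiF G) :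
    (g : Γ) * (m : Γ) * (g : Γ)⁻¹ ≠ (m : Γ)⁻¹ := by
  classical
  intro heq
  obtain ⟨x, hx⟩ : ∃ x : P, m * x ≠ x * m := by
    by_contra hcon
    push Not at hcon
    exact hm1 (hP.center m hcon)
  have hc1 : m * x * m⁻¹ * x⁻¹ ≠ 1 := by
    intro h
    apply hx
    have h1 : m * x = 1 * x * m := by rw [← h]; group
    simpa using h1
  obtain ⟨ξ, hξ⟩ := hP.resFree _ hc1
  obtain ⟨η, hη, hη3⟩ := exists_free_embedding
  have hA : η (ξ (m * x * m⁻¹ * x⁻¹)) ≠ 1 := fun h => hξ (hη (by rw [h, map_one]))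
  obtain ⟨k, hk⟩ := Odd_exists_ne _ hA
  have hfin0 : NeZero (3 ^ k : ℕ) := ⟨by positivity⟩
  let τ : P →* SL(2, ZMod (3 ^ k)) := ((Odd_red k).comp η).comp ξ
  have hτ : τ (m * x * m⁻¹ * x⁻¹) ≠ 1 := hk
  have hTp : IsPGroup 3 τ.range := by
    rintro ⟨_, y, rfl⟩
    refine ⟨k, ?_⟩
    ext1
    exact Odd_red_pow k (η (ξ y)) (hη3 _)
  have hPfg : Group.FG P := hP.fg
  have hTfin : Finite τ.range := inferInstance
  obtain ⟨K, hKc, hKf, hKτ, hKp⟩ := exists_char_quot (P := P) τ.range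
  have hcK : m * x * m⁻¹ * x⁻¹ ∉ K := by
    intro h
    have := hKτ τ.rangeRestrict h
    rw [MonoidHom.mem_ker] at this
    exact hτ (congrArg Subtype.val this)
  obtain ⟨j, hj⟩ := hKp 3 Nat.prime_three hTp m
  have hfq : Finite (P ⧸ K) := inferInstance
  have hfa : Finite (MulAut (P ⧸ K)) := by
    exact Finite.of_injective (fun φ : MulAut (P ⧸ K) => (φ : P ⧸ K → P ⧸ K)) DFunLike.coe_injective
  let f : G →* MulAut (P ⧸ K) := (Odd_c P K).comp G.subtype
  have hN : Group.IsNilpotent ((PhiF G).map f) := map_phiF_isNilpotent f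
  obtain ⟨y, hy, hym⟩ : ∃ y : G, y ∈ PhiF G ∧ (y : Γ) = m := by
    have := hm
    unfold MM at this
    rw [Subgroup.mem_subgroupOf, Subgroup.mem_map] at this
    obtain ⟨y, hy, hym⟩ := this
    exact ⟨y, hy, hym⟩
  have hconj : f g * f y * (f g)⁻¹ = (f y)⁻¹ := by
    rw [← map_mul, ← map_inv, ← map_mul, ← map_inv]
    congr 1
    ext1
    push_cast
    rw [hym]
    exact heq
  have hfy : ∀ z : P, f y (z : P ⧸ K) = ((m * z * m⁻¹ : P) : P ⧸ K) := by
    intro z
    change Odd_c P K (y : Γ) (z : P ⧸ K) = _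
    rw [hym, Odd_c_coe]
  obtain ⟨i, hi⟩ := Odd_nilp _ hN (f y) (f g) (Subgroup.mem_map_of_mem f hy)
    (Subgroup.mem_map_of_mem f hg) hconj
  have h3 : f y ^ 3 ^ j = 1 := by
    have h0 : f y = Odd_c P K (m : Γ) := by
      rw [← hym]
      rfl
    have h1 : f y ^ 3 ^ j = Odd_c P K ((m ^ 3 ^ j : P) : Γ) := by
      rw [h0, ← map_pow, ← Subgroup.coe_pow]
    rw [h1]
    ext z
    induction z using QuotientGroup.induction_on with
    | H z =>
      rw [Odd_c_coe]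
      have h2 : ((m ^ 3 ^ j : P) : P ⧸ K) = 1 := (QuotientGroup.eq_one_iff _).2 hj
      rw [QuotientGroup.mk_mul, QuotientGroup.mk_mul, QuotientGroup.mk_inv, h2]
      simp
  have hone : f y = 1 := by
    have hcop : Nat.Coprime (2 ^ i) (3 ^ j) := Nat.Coprime.pow _ _ (by norm_num)
    have h1 : orderOf (f y) ∣ 2 ^ i := orderOf_dvd_of_pow_eq_one hi
    have h2 : orderOf (f y) ∣ 3 ^ j := orderOf_dvd_of_pow_eq_one h3
    have := Nat.eq_one_of_dvd_coprimes hcop h1 h2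
    exact orderOf_eq_one_iff.1 this
  apply hcK
  have h5 := hfy x
  rw [hone] at h5
  have h6 : ((x : P) : P ⧸ K) = ((m * x * m⁻¹ : P) : P ⧸ K) := h5
  rw [← QuotientGroup.eq_one_iff, QuotientGroup.mk_mul, ← h6, ← QuotientGroup.mk_mul]
  simp

end Pool.Agent.PHI
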