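import Pool.Agent.PHI.ResF
import Pool.Agent.PHI.Odd
import Pool.Agent.PHI.PhiMap

/-!
# Ext: the extension theorem (one step)

PROOF.  `N = PhiF G`, `M = MM P G` (`= N ∩ P`).
(1) `M` is central in `N`: `M` is commutative (`MM_comm`), so `M = zpowers a` (`Nice.cyclic`).  `M` is normalised by `N`
(the image of `N` in `Γ` and `P` are normalised by elements of `N`).  For `g ∈ N`: `g a g⁻¹ ∈ M` is again a generator of
`M`.  If `a = 1` nothing to prove.  Otherwise `a` has infinite order (`P` is residually free, hence torsion-free: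
`IsMulTorsionFree (FreeGroup ℕ)`), so `g a g⁻¹ = a` or `a⁻¹` (generators of an infinite cyclic group:
write `g a g⁻¹ = a^i`, `g⁻¹ a g = a^j`, so `a^(i j) = a`, `i j = 1`); the second case is impossible by
`conj_ne_inv`.  So `g` commutes with `a` and with `M`.
(2) Let `Ḡ = G.map (QuotientGroup.mk' P)` and `f : G →* Ḡ` the (surjective) restriction
(`MonoidHom.subgroupMap`).  `(PhiF G).map f ≤ PhiF Ḡ` (`map_phiF_le`), so `f` restricts to `f' : N →* PhiF Ḡ`, a
homomorphism to a nilpotent group whose kernel is `{g ∈ N : g ∈ P}`, which is central in `N` by (1).  So `N` is nilpotent by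
`Group.isNilpotent_of_ker_le_center`.
-/

namespace Pool.Agent.PHI

/-- One step: if `Φ_f(G) ∩ P` is central in `Φ_f(G)` and `Φ_f` of the image of `G` modulo `P` is nilpotent, then
`Φ_f(G)` is nilpotent. -/
theorem Ext_step {Γ : Type*} [Group Γ] (P : Subgroup Γ) [P.Normal] (G : Subgroup Γ)
    (hc : ∀ x : G, x ∈ PhiF G → (x : Γ) ∈ P → ∀ y : G, y ∈ PhiF G → y * x = x * y)
    (hG : Group.IsNilpotent (PhiF (G.map (QuotientGroup.mk' P)))) :
    Group.IsNilpotent (PhiF G) := by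
  let f : G →* G.map (QuotientGroup.mk' P) := (QuotientGroup.mk' P).subgroupMap G
  have hf : Function.Surjective f := (QuotientGroup.mk' P).subgroupMap_surjective G
  have hle := map_phiF_le f hf
  let f' : PhiF G →* PhiF (G.map (QuotientGroup.mk' P)) :=
    (f.comp (PhiF G).subtype).codRestrict _ (fun x => hle (Subgroup.mem_map_of_mem f x.2))
  refine Subgroup.isNilpotent_of_ker_le_center f' ?_
  intro x hx
  rw [MonoidHom.mem_ker] at hx
  rw [Subgroup.mem_center_iff]
  intro y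
  have h1 : f (x : G) = 1 := congrArg Subtype.val hx
  have h2 : (QuotientGroup.mk' P) ((x : G) : Γ) = 1 := congrArg Subtype.val h1
  have h3 : ((x : G) : Γ) ∈ P := (QuotientGroup.eq_one_iff _).1 h2
  exact Subtype.ext (hc x x.2 h3 y y.2)

theorem isNilpotent_of_nice {Γ : Type*} [Group Γ] (P : Subgroup Γ) [P.Normal] (hP : Nice P)
    (G : Subgroup Γ)
    (hG : Group.IsNilpotent (PhiF (G.map (QuotientGroup.mk' P)))) :
    Group.IsNilpotent (PhiF G) := by
  refine Ext_step P G ?_ hG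
  intro x hx hxP y hy
  -- membership in `MM`
  have hmem : ∀ z : P, z ∈ MM P G ↔ ∃ w : G, w ∈ PhiF G ∧ (w : Γ) = z := by
    intro z
    unfold MM
    rw [Subgroup.mem_subgroupOf, Subgroup.mem_map]
    rfl
  obtain ⟨a, ha⟩ := hP.cyclic (MM P G) (fun u hu v hv => MM_comm P hP G u v hu hv)
  have haM : a ∈ MM P G := by rw [ha]; exact Subgroup.mem_zpowers a
  have hxM : (⟨(x : Γ), hxP⟩ : P) ∈ MM P G := (hmem _).2 ⟨x, hx, rfl⟩
  obtain ⟨n, hn⟩ := Subgroup.mem_zpowers_iff.1 (show (⟨(x : Γ), hxP⟩ : P) ∈ Subgroup.zpowers a by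
    rw [← ha]; exact hxM)
  -- conjugates of `a` by elements of `Φ_f(G)` are powers of `a`
  have hconj : ∀ z : G, z ∈ PhiF G → ∃ i : ℤ, (z : Γ) * (a : Γ) * (z : Γ)⁻¹ = (a : Γ) ^ i := by
    intro z hz
    obtain ⟨w, hw, hwa⟩ := (hmem a).1 haM
    have hP' : (z : Γ) * (a : Γ) * (z : Γ)⁻¹ ∈ P :=
      Subgroup.Normal.conj_mem inferInstance _ a.2 _
    have h1 : (⟨(z : Γ) * (a : Γ) * (z : Γ)⁻¹, hP'⟩ : P) ∈ MM P G := by
      refine (hmem _).2 ⟨z * w * z⁻¹, ?_, ?_⟩
      · exact (PhiF G).mul_mem ((PhiF G).mul_mem hz hw) ((PhiF G).inv_mem hz)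
      · push_cast
        rw [hwa]
    rw [ha, Subgroup.mem_zpowers_iff] at h1
    obtain ⟨i, hi⟩ := h1
    exact ⟨i, by have := congrArg Subtype.val hi; simpa using this.symm⟩
  have hcomm : (y : Γ) * (a : Γ) * (y : Γ)⁻¹ = (a : Γ) := by
    by_cases ha1 : a = 1
    · subst ha1; simp
    obtain ⟨i, hi⟩ := hconj y hy
    obtain ⟨j, hj⟩ := hconj y⁻¹ ((PhiF G).inv_mem hy)
    have hj' : (y : Γ)⁻¹ * (a : Γ) * (y : Γ) = (a : Γ) ^ j := by simpa using hj
    have h1 : (a : Γ) = (a : Γ) ^ (i * j) := by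
      have h2 : (a : Γ) = (y : Γ) * ((y : Γ)⁻¹ * (a : Γ) * (y : Γ)) * (y : Γ)⁻¹ := by group
      rw [hj', ← conj_zpow, hi, ← zpow_mul] at h2
      exact h2
    have h3 : a ^ (i * j - 1) = 1 := by
      rw [zpow_sub, zpow_one, mul_inv_eq_one]
      ext1
      push_cast
      exact h1.symm
    have h4 : i * j = 1 := by
      obtain ⟨ξ, hξ⟩ := hP.resFree a ha1
      have h5 : (ξ a) ^ (i * j - 1) = 1 := by rw [← map_zpow, h3, map_one]
      have h6 := (IsMulTorsionFree.zpow_eq_one_iff_right hξ).1 h5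
      omega
    rcases Int.eq_one_or_neg_one_of_mul_eq_one h4 with h | h
    · rw [hi, h, zpow_one]
    · exfalso
      refine conj_ne_inv P hP G a haM ha1 y hy ?_
      rw [hi, h, zpow_neg_one]
  have hx' : (x : Γ) = (a : Γ) ^ n := by
    have := congrArg Subtype.val hn
    simpa using this.symm
  have h5 : (y : Γ) * (x : Γ) * (y : Γ)⁻¹ = (x : Γ) := by
    rw [hx', ← conj_zpow, hcomm]
  ext1
  push_cast
  exact mul_inv_eq_iff_eq_mul.1 h5

theorem isNilpotent_of_central {Γ : Type*} [Group Γ] (P : Subgroup Γ) [P.Normal]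
    (hP : P ≤ Subgroup.center Γ) (G : Subgroup Γ)
    (hG : Group.IsNilpotent (PhiF (G.map (QuotientGroup.mk' P)))) :
    Group.IsNilpotent (PhiF G) := by
  refine Ext_step P G ?_ hG
  intro x _ hxP y _
  ext1
  exact Subgroup.mem_center_iff.1 (hP hxP) y

end Pool.Agent.PHI
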