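import Mathlib

/-!
# Kron: Kronecker's theorem for a (possibly reducible) monic integral polynomial

PROOF.  See Mathlib/NumberTheory/MahlerMeasure.lean (about line 184: `Polynomial.pow_eq_one_of_mahlerMeasure_eq_one`
or a similar name): if all roots of the monic `f` have norm `≤ 1` then its Mahler measure is `1` (leading coefficient
times the product of `max 1 ‖root‖`), and a nonzero root is a root of unity.  Or directly with
`NumberField.Embeddings.pow_eq_one_of_norm_le_one`.
-/

namespace Pool.Agent.PHI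

open Polynomial

theorem exists_pow_eq_one_of_roots_le {f : ℤ[X]} (hf : f.Monic) (h0 : f.eval 0 ≠ 0)
    (h : ∀ z : ℂ, (f.map (Int.castRingHom ℂ)).IsRoot z → ‖z‖ ≤ 1) {z : ℂ}
    (hz : (f.map (Int.castRingHom ℂ)).IsRoot z) : ∃ m : ℕ, 0 < m ∧ z ^ m = 1 := by
  have hf' : (f.map (Int.castRingHom ℂ)).Monic := hf.map _
  have hf0 : f.map (Int.castRingHom ℂ) ≠ 0 := hf'.ne_zero
  have hm : (f.map (Int.castRingHom ℂ)).mahlerMeasure = 1 := by
    rw [mahlerMeasure_eq_leadingCoeff_mul_prod_roots, hf'.leadingCoeff, norm_one, one_mul]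
    refine Multiset.prod_eq_one ?_
    intro x hx
    rw [Multiset.mem_map] at hx
    obtain ⟨a, ha, rfl⟩ := hx
    exact max_eq_left (h a ((mem_roots hf0).1 ha))
  have hz0 : z ≠ 0 := by
    rintro rfl
    apply h0
    have : ((f.eval 0 : ℤ) : ℂ) = 0 := by
      have h1 : (f.map (Int.castRingHom ℂ)).eval 0 = 0 := hz
      rw [eval_zero_map] at h1
      simpa using h1
    exact_mod_cast this
  refine pow_eq_one_of_mahlerMeasure_eq_one hm hz0 ?_
  rw [mem_aroots]
  refine ⟨hf.ne_zero, ?_⟩
  have h1 : (f.map (Int.castRingHom ℂ)).eval z = 0 := hz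
  rw [eval_map] at h1
  exact h1

end Pool.Agent.PHI
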