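import Pool.Agent.PHI.Cyc2
import Pool.Agent.PHI.DetR
import Pool.Agent.PHI.Cpt
import Pool.Agent.PHI.Kron

/-!
# LemZ: an integral matrix whose orders modulo all primes are smooth is quasi-unipotent
-/

namespace Pool.Agent.PHI

open Polynomial

theorem LemZ_map {n : ℕ} (M : Matrix (Fin n) (Fin n) ℤ) (p : ℤ[X]) :
    (aeval (M.map (Int.castRingHom ℂ))) (p.map (Int.castRingHom ℂ)) =
      ((aeval M) p).map (Int.castRingHom ℂ) := by
  have h := Polynomial.map_aeval_eq_aeval_map (S := Matrix (Fin n) (Fin n) ℤ)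
    (T := ℂ) (U := Matrix (Fin n) (Fin n) ℂ) (φ := Int.castRingHom ℂ)
    (ψ := (Int.castRingHom ℂ).mapMatrix) (by ext; simp) p M
  exact h.symm

theorem LemZ_bound {n : ℕ} (A : Matrix (Fin n) (Fin n) ℤ) (C : ℕ)
    (hA : OrdSmooth A C) {q ℓ : ℕ} (hq : q.Prime) (hℓ : ℓ.Prime) (hqC : C < q) (hℓC : C < ℓ)
    (hne : q ≠ ℓ) (k : ℕ) :
    ‖((A.map (Int.castRingHom ℂ)).charpoly.roots.map
      (fun a => (cyclotomic q ℂ).eval (a ^ (ℓ ^ k)))).prod‖ =
      (((aeval A) (cyclotomic q ℤ)).det.natAbs : ℝ) := by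
  have h1 := det_aeval_eq_prod (A.map (Int.castRingHom ℂ)) (expand ℂ (ℓ ^ k) (cyclotomic q ℂ))
  simp only [expand_eval] at h1
  rw [← h1, expand_aeval]
  have h2 : (A.map (Int.castRingHom ℂ)) ^ (ℓ ^ k) = (A ^ (ℓ ^ k)).map (Int.castRingHom ℂ) := by
    have := map_pow (Int.castRingHom ℂ).mapMatrix A (ℓ ^ k)
    exact this.symm
  rw [h2, ← map_cyclotomic q (Int.castRingHom ℂ), LemZ_map]
  have h3 := RingHom.map_det (Int.castRingHom ℂ) ((aeval (A ^ (ℓ ^ k))) (cyclotomic q ℤ))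
  have h4 : (((aeval (A ^ (ℓ ^ k))) (cyclotomic q ℤ)).map (Int.castRingHom ℂ)).det =
      ((((aeval (A ^ (ℓ ^ k))) (cyclotomic q ℤ)).det : ℤ) : ℂ) := by
    rw [← eq_intCast (Int.castRingHom ℂ), h3]
    rfl
  rw [h4, ← natAbs_det_cyclotomic_pow A C hA hq hℓ hqC hℓC hne k, Complex.norm_intCast,
    Nat.cast_natAbs, Int.cast_abs]

theorem exists_pow_eq_one_of_ordSmooth {n : ℕ} (A : Matrix (Fin n) (Fin n) ℤ) (hdet : A.det ≠ 0)
    (C : ℕ) (hA : OrdSmooth A C) {μ : ℂ}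
    (hμ : (A.map (Int.castRingHom ℂ)).charpoly.IsRoot μ) : ∃ m : ℕ, 0 < m ∧ μ ^ m = 1 := by
  classical
  obtain ⟨ℓ, hℓC, hℓ⟩ := Nat.exists_infinite_primes (C + 1)
  have hinf : {q : ℕ | q.Prime ∧ C < q ∧ q ≠ ℓ}.Infinite := by
    have h1 : ({q : ℕ | q.Prime} \ ((Finset.range (C + 1)) ∪ {ℓ} : Finset ℕ)).Infinite :=
      Nat.infinite_setOf_prime.diff (Finset.finite_toSet _)
    refine h1.mono ?_
    intro q hq
    simp only [Set.mem_diff, Set.mem_setOf_eq, Finset.coe_union, Finset.coe_range,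
      Finset.coe_singleton, Set.mem_union, Set.mem_Iio, Set.mem_singleton_iff, not_or] at hq
    exact ⟨hq.1, by omega, hq.2.2⟩
  set R := (A.map (Int.castRingHom ℂ)).charpoly.roots with hR
  obtain ⟨S, hS, hSc⟩ := hinf.exists_subset_card_eq (Multiset.card R + 1)
  have hne : (A.map (Int.castRingHom ℂ)).charpoly ≠ 0 :=
    (Matrix.charpoly_monic _).ne_zero
  have hbd : ∀ z : ℂ, (A.map (Int.castRingHom ℂ)).charpoly.IsRoot z → ‖z‖ ≤ 1 := by
    intro z hz
    have hzR : z ∈ R := (mem_roots hne).2 hz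
    have key := norm_le_one_of_bounded (ι := R) (fun x => (x : ℂ)) ℓ hℓ.two_le S
      (fun q hq => (hS hq).1) (by rw [Multiset.card_coe, hSc]; omega)
      (fun q => (((aeval A) (cyclotomic q ℤ)).det.natAbs : ℝ)) (by
        intro q hq k
        have h := LemZ_bound A C hA (hS hq).1 hℓ (hS hq).2.1 (by omega) (hS hq).2.2 k
        rw [← h, ← hR, ← Multiset.map_univ R, ← Finset.prod_eq_multiset_prod, norm_prod])
    exact key ⟨z, ⟨0, Multiset.count_pos.2 hzR⟩⟩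
  have hmap : A.charpoly.map (Int.castRingHom ℂ) = (A.map (Int.castRingHom ℂ)).charpoly :=
    (Matrix.charpoly_map A (Int.castRingHom ℂ)).symm
  refine exists_pow_eq_one_of_roots_le (f := A.charpoly) (Matrix.charpoly_monic A) ?_ ?_
    (z := μ) ?_
  · rw [← coeff_zero_eq_eval_zero]
    intro h0
    apply hdet
    rw [Matrix.det_eq_sign_charpoly_coeff, h0, mul_zero]
  · intro z hz
    rw [hmap] at hz
    exact hbd z hz
  · rw [hmap]
    exact hμ

end Pool.Agent.PHI
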