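import Mathlib

/-!
# Mat2: subgroups of `SL(2, ℤ)` with quasi-unipotent commutator subgroup

`B ≤ SL(2, ℤ)` torsion-free, all eigenvalues of all elements of `⁅B, B⁆` are roots of unity.  Then `B` is commutative.

PROOF.  (0) For `c ∈ ⁅B, B⁆` the trace is the sum of two complex numbers of absolute value `1` (the roots of the
characteristic polynomial `X² - tr(c) X + 1`), so `tr c ∈ {-2, ..., 2}`.  If `tr c ∈ {-1, 0, 1}` then `c` has finite order
(`c² = tr(c) c - 1`, so `c³ = 1`, `c⁴ = 1`, `c⁶ = 1` resp.), so `c = 1` and `tr c = 2`, contradiction.  So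
`tr c = ± 2` and `tr (c²) = tr(c)² - 2 = 2`.
(1) Centralizers: if `c` is not a scalar matrix and `x, y` commute with `c` then `x` and `y` commute (2 x 2 matrices over a
domain: `x` is in `ℚ c + ℚ`).  An element `c ≠ 1` of `B` is not scalar (`-1` is a torsion element).
(2) `c, d ∈ ⁅B, B⁆` commute: `tr(c² d²) + tr(c² d⁻²) = tr(c²) tr(d²) = 4` (`d² + d⁻² = tr(d²)`) and both have absolute value
`≤ 2`, so `tr(c² d²) = 2`.  `c² = 1 + N`, `d² = 1 + N'`, `N, N'` of trace and determinant `0`, `tr(N N') = 0`, hence `N N' = N' N`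
(explicitly: `N = (a, b; c, -a)`, `a² + bc = 0`, ...: proportional).  So `c²` and `d²` commute.  If `c ≠ 1`, `d ≠ 1`
then `c², d² ≠ 1` (torsion-free), not scalar; by (1) `c` (commuting with `c²`) commutes with `d²`, and then `c, d` commute
with `d²`, so they commute.
(3) Let `x, y ∈ B` and suppose `c = x y x⁻¹ y⁻¹ ≠ 1`.  `x c x⁻¹ ∈ ⁅B, B⁆` commutes with `c` by (2).  Let `c² = 1 + N`,
`N ≠ 0`, `N² = 0`.  `x N x⁻¹` commutes with `N`, both nilpotent, so `x N x⁻¹ = t N` with `t ∈ ℚ`.  `L = ker N = im N` is an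
`x`-invariant line of `ℚ²`; let `α` be the eigenvalue of `x` on it, a rational root of `X² - tr(x) X + 1`, so
`α = ± 1`; on `ℚ²/L` `x` acts as `α⁻¹`; `t = α² = 1`.  So `x` commutes with `c²`; in the same way `y` commutes with `c²`
(use `y c y⁻¹`).  `c²` is not scalar, so `x` and `y` commute by (1), contradiction.
(Alternative for (3) with traces / entries: conjugation is not needed, everything is polynomial in the entries.)
-/

namespace Pool.Agent.PHI

open Matrix MatrixGroups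

/-- Arithmetic lemma: a rational root of `X² - k X + 1` is `± 1`. -/
theorem Mat2_arith (u b k : ℤ) (hb : b ≠ 0) (h : u ^ 2 + b ^ 2 = k * u * b) : u ^ 2 = b ^ 2 := by
  have hg : 0 < Int.gcd u b := Int.gcd_pos_of_ne_zero_right _ hb
  obtain ⟨u', b', hco, hu, hb'⟩ := Int.exists_gcd_one hg
  generalize hgd : ((Int.gcd u b : ℕ) : ℤ) = g at hu hb'
  have hg0 : g ≠ 0 := by
    rw [← hgd]
    exact_mod_cast hg.ne'
  have h' : u' ^ 2 + b' ^ 2 = k * u' * b' := by
    have h1 : g ^ 2 * (u' ^ 2 + b' ^ 2) = g ^ 2 * (k * u' * b') := by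
      rw [hu, hb'] at h
      linear_combination h
    exact mul_left_cancel₀ (pow_ne_zero 2 hg0) h1
  have hcop : IsCoprime u' b' := Int.isCoprime_iff_gcd_eq_one.mpr hco
  have hu1 : IsUnit u' := (hcop.pow_right (n := 2)).isUnit_of_dvd' dvd_rfl
    ⟨k * b' - u', by linear_combination h'⟩
  have hb1 : IsUnit b' := (hcop.symm.pow_right (n := 2)).isUnit_of_dvd' dvd_rfl
    ⟨k * u' - b', by linear_combination h'⟩
  have hu2 : u' ^ 2 = 1 := by
    rcases Int.isUnit_iff.mp hu1 with h | h <;> simp [h]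
  have hb2 : b' ^ 2 = 1 := by
    rcases Int.isUnit_iff.mp hb1 with h | h <;> simp [h]
  rw [hu, hb', mul_pow, mul_pow, hu2, hb2]

/-- Conjugation of a nilpotent integer matrix. -/
theorem Mat2_conj (a b c p q r s : ℤ) (h0 : a ^ 2 + b * c = 0) (hdet : p * s - q * r = 1)
    (htr : 2 * a * (a * p * s + q * c * s - p * b * r + q * a * r) +
      b * (2 * r * s * a + s ^ 2 * c - r ^ 2 * b) + c * (p ^ 2 * b - 2 * p * q * a - q ^ 2 * c) = 0) :
    a * p * s + q * c * s - p * b * r + q * a * r = a ∧ p ^ 2 * b - 2 * p * q * a - q ^ 2 * c = b ∧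
      2 * r * s * a + s ^ 2 * c - r ^ 2 * b = c := by
  by_cases hb : b = 0
  · subst hb
    have ha : a = 0 := by
      have : a ^ 2 = 0 := by linear_combination h0
      exact pow_eq_zero_iff (two_ne_zero) |>.mp this
    subst ha
    have hqc : q * c = 0 := by
      have : (q * c) ^ 2 = 0 := by linear_combination -htr
      exact pow_eq_zero_iff (two_ne_zero) |>.mp this
    rcases mul_eq_zero.mp hqc with hq | hc
    · subst hq
      have hps : s * p = 1 := by linear_combination hdet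
      have hs : IsUnit s := IsUnit.of_mul_eq_one p hps
      have hs2 : s ^ 2 = 1 := by
        rcases Int.isUnit_iff.mp hs with h | h <;> simp [h]
      refine ⟨by ring, by ring, ?_⟩
      rw [hs2]
      ring
    · subst hc
      refine ⟨by ring, by ring, by ring⟩
  · have hW : (a * (p * b - q * a) + b * (r * b - s * a)) ^ 2 = 0 := by
      linear_combination (-b ^ 2) * htr +
        ((p * b - q * a) ^ 2 - b * c * q ^ 2 + 2 * a * b * q * s + b ^ 2 * s ^ 2) * h0
    have w0 : a * (p * b - q * a) + b * (r * b - s * a) = 0 :=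
      pow_eq_zero_iff (two_ne_zero) |>.mp hW
    have h2 : (p * b - q * a) ^ 2 + b ^ 2 = (p + s) * (p * b - q * a) * b := by
      linear_combination (-b ^ 2) * hdet - q * w0
    have hu : (p * b - q * a) ^ 2 = b ^ 2 := Mat2_arith _ _ _ hb h2
    refine ⟨?_, ?_, ?_⟩
    · apply mul_left_cancel₀ (pow_ne_zero 2 hb)
      linear_combination a * hu - (p * b - q * a) * w0 + b * q * s * h0
    · apply mul_left_cancel₀ hb
      linear_combination hu - q ^ 2 * h0
    · apply mul_left_cancel₀ (pow_ne_zero 3 hb)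
      linear_combination (-a ^ 2) * hu + (2 * a * (p * b - q * a) -
        (a * (p * b - q * a) + b * (r * b - s * a))) * w0 + (b ^ 2 * s ^ 2 - b ^ 2) * h0

/-- Parallel vectors. -/
theorem Mat2_cross (u1 u2 u3 v1 v2 v3 w1 w2 w3 : ℤ) (hv : ¬ (v1 = 0 ∧ v2 = 0 ∧ v3 = 0))
    (a1 : u1 * v2 = u2 * v1) (a2 : u1 * v3 = u3 * v1) (a3 : u2 * v3 = u3 * v2)
    (b1 : w1 * v2 = w2 * v1) (b2 : w1 * v3 = w3 * v1) (b3 : w2 * v3 = w3 * v2) :
    u1 * w2 = u2 * w1 ∧ u1 * w3 = u3 * w1 ∧ u2 * w3 = u3 * w2 := by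
  by_cases h1 : v1 = 0
  · by_cases h2 : v2 = 0
    · have h3 : v3 ≠ 0 := fun h3 => hv ⟨h1, h2, h3⟩
      refine ⟨?_, ?_, ?_⟩ <;> apply mul_left_cancel₀ (pow_ne_zero 2 h3)
      · linear_combination (w2 * v3) * a2 + (u3 * v1) * b3 - (w1 * v3) * a3 - (u3 * v2) * b2
      · linear_combination (w3 * v3) * a2 - (u3 * v3) * b2
      · linear_combination (w3 * v3) * a3 - (u3 * v3) * b3
    · refine ⟨?_, ?_, ?_⟩ <;> apply mul_left_cancel₀ (pow_ne_zero 2 h2)
      · linear_combination (w2 * v2) * a1 - (u2 * v2) * b1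
      · linear_combination (w3 * v2) * a1 - (u2 * v1) * b3 + (w1 * v2) * a3 - (u2 * v3) * b1
      · linear_combination (-(u2 * v2)) * b3 + (w2 * v2) * a3
  · refine ⟨?_, ?_, ?_⟩ <;> apply mul_left_cancel₀ (pow_ne_zero 2 h1)
    · linear_combination (-(u1 * v1)) * b1 + (w1 * v1) * a1
    · linear_combination (-(u1 * v1)) * b2 + (w1 * v1) * a2
    · linear_combination (-(w3 * v1)) * a1 - (u1 * v2) * b2 + (w2 * v1) * a2 + (u1 * v3) * b1

theorem Mat2_det (x : SL(2, ℤ)) : x.1 0 0 * x.1 1 1 - x.1 0 1 * x.1 1 0 = 1 := by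
  have := x.2
  rwa [Matrix.det_fin_two] at this

theorem Mat2_comm_iff (x y : SL(2, ℤ)) : x * y = y * x ↔
    (x.1 0 1 * y.1 1 0 = x.1 1 0 * y.1 0 1) ∧
      ((x.1 0 0 - x.1 1 1) * y.1 0 1 = x.1 0 1 * (y.1 0 0 - y.1 1 1)) ∧
      ((x.1 0 0 - x.1 1 1) * y.1 1 0 = x.1 1 0 * (y.1 0 0 - y.1 1 1)) := by
  constructor
  · intro h
    have h1 : (x * y).1 = (y * x).1 := by rw [h]
    have e00 := congrFun (congrFun h1 0) 0
    have e01 := congrFun (congrFun h1 0) 1
    have e10 := congrFun (congrFun h1 1) 0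
    simp only [Matrix.SpecialLinearGroup.coe_mul, Matrix.mul_apply, Fin.sum_univ_two] at e00 e01 e10
    refine ⟨by linear_combination e00, by linear_combination e01, by linear_combination -e10⟩
  · rintro ⟨h1, h2, h3⟩
    apply Matrix.SpecialLinearGroup.ext
    intro i j
    fin_cases i <;> fin_cases j <;>
      simp only [Matrix.SpecialLinearGroup.coe_mul, Matrix.mul_apply, Fin.sum_univ_two,
        Fin.zero_eta, Fin.mk_one, Fin.isValue]
    · linear_combination h1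
    · linear_combination h2
    · linear_combination -h3
    · linear_combination -h1

/-- Elements commuting with a non-scalar matrix commute. -/
theorem Mat2_centralizer (c x y : SL(2, ℤ))
    (hc : ¬ (c.1 0 0 - c.1 1 1 = 0 ∧ c.1 0 1 = 0 ∧ c.1 1 0 = 0))
    (hx : x * c = c * x) (hy : y * c = c * y) : x * y = y * x := by
  rw [Mat2_comm_iff] at hx hy ⊢
  obtain ⟨x1, x2, x3⟩ := hx
  obtain ⟨y1, y2, y3⟩ := hy
  obtain ⟨k1, k2, k3⟩ := Mat2_cross (x.1 0 0 - x.1 1 1) (x.1 0 1) (x.1 1 0)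
    (c.1 0 0 - c.1 1 1) (c.1 0 1) (c.1 1 0) (y.1 0 0 - y.1 1 1) (y.1 0 1) (y.1 1 0) hc
    x2 x3 x1 y2 y3 y1
  exact ⟨k3, k1, k2⟩

theorem Mat2_conj_eq (e x : SL(2, ℤ)) (he : e.1 0 0 + e.1 1 1 = 2)
    (ht : (e * (x * e * x⁻¹)).1 0 0 + (e * (x * e * x⁻¹)).1 1 1 = 2) : x * e = e * x := by
  have hde := Mat2_det e
  have hdx := Mat2_det x
  simp only [Matrix.SpecialLinearGroup.coe_mul, Matrix.SpecialLinearGroup.coe_inv,
    Matrix.adjugate_fin_two, Matrix.mul_apply, Fin.sum_univ_two, Matrix.of_apply,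
    Matrix.cons_val_zero, Matrix.cons_val_one, Matrix.cons_val', Matrix.cons_val_fin_one] at ht
  rw [Mat2_comm_iff]
  have he' : e.1 1 1 = 2 - e.1 0 0 := by linear_combination he
  rw [he'] at hde ht ⊢
  generalize e.1 0 0 = e0 at *
  generalize e.1 0 1 = b at *
  generalize e.1 1 0 = c at *
  generalize x.1 0 0 = p at *
  generalize x.1 0 1 = q at *
  generalize x.1 1 0 = r at *
  generalize x.1 1 1 = s at *
  obtain ⟨h1, h2, h3⟩ := Mat2_conj (e0 - 1) b c p q r s (by linear_combination -hde)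
    (by linear_combination hdx) (by linear_combination ht - 2 * hdx)
  refine ⟨?_, ?_, ?_⟩
  · linear_combination p * h1 + r * h2 - (p * (e0 - 1) + q * c) * hdx
  · linear_combination q * h1 + s * h2 - (p * b - q * (e0 - 1)) * hdx
  · linear_combination (-p) * h3 + r * h1 + (r * (e0 - 1) + s * c) * hdx

theorem Mat2_trace_add (e f : SL(2, ℤ)) :
    ((e * f).1 0 0 + (e * f).1 1 1) + ((e * f⁻¹).1 0 0 + (e * f⁻¹).1 1 1) =
      (e.1 0 0 + e.1 1 1) * (f.1 0 0 + f.1 1 1) := by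
  simp only [Matrix.SpecialLinearGroup.coe_mul, Matrix.SpecialLinearGroup.coe_inv,
    Matrix.adjugate_fin_two, Matrix.mul_apply, Fin.sum_univ_two, Matrix.of_apply,
    Matrix.cons_val_zero, Matrix.cons_val_one, Matrix.cons_val', Matrix.cons_val_fin_one]
  ring

theorem Mat2_trace_sq (c : SL(2, ℤ)) :
    (c * c).1 0 0 + (c * c).1 1 1 = (c.1 0 0 + c.1 1 1) ^ 2 - 2 := by
  have := Mat2_det c
  simp only [Matrix.SpecialLinearGroup.coe_mul, Matrix.mul_apply, Fin.sum_univ_two]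
  linear_combination (-2 : ℤ) * this

theorem Mat2_CH (c : SL(2, ℤ)) : c.1 * c.1 = (c.1 0 0 + c.1 1 1) • c.1 - 1 := by
  have := Mat2_det c
  ext i j
  fin_cases i <;> fin_cases j <;>
    simp only [Matrix.mul_apply, Fin.sum_univ_two, Matrix.sub_apply, Matrix.smul_apply,
      smul_eq_mul, Matrix.one_apply, Fin.zero_eta, Fin.mk_one, Fin.isValue, if_true,
      zero_ne_one, one_ne_zero, if_false]
  · linear_combination (-1 : ℤ) * this
  · ring
  · ring
  · linear_combination (-1 : ℤ) * this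

theorem Mat2_pow12 (c : SL(2, ℤ)) (h1 : (c.1 0 0 + c.1 1 1) ^ 2 ≤ 4)
    (h2 : (c.1 0 0 + c.1 1 1) ^ 2 ≠ 4) : c ^ 12 = 1 := by
  have hCH := Mat2_CH c
  have hv : c.1 ^ 12 = 1 := by
    generalize hτ : c.1 0 0 + c.1 1 1 = τ at *
    have hcases : τ = -1 ∨ τ = 0 ∨ τ = 1 := by
      have hl : -2 ≤ τ := by nlinarith
      have hr : τ ≤ 2 := by nlinarith
      have : τ ≠ 2 := by rintro rfl; exact h2 (by norm_num)
      have : τ ≠ -2 := by rintro rfl; exact h2 (by norm_num)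
      omega
    generalize c.1 = M at *
    rcases hcases with rfl | rfl | rfl
    · have h3 : M ^ 3 = 1 := by
        have : M ^ 3 = (M * M) * M := by rw [pow_succ, pow_two]
        rw [this, hCH]
        rw [sub_mul, smul_mul_assoc, hCH, one_mul]
        simp
      have : M ^ 12 = (M ^ 3) ^ 4 := by rw [← pow_mul]
      rw [this, h3, one_pow]
    · have h3 : M ^ 2 = -1 := by
        rw [pow_two, hCH]
        simp
      have : M ^ 12 = (M ^ 2) ^ 6 := by rw [← pow_mul]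
      rw [this, h3]
      exact Even.neg_one_pow (by decide)
    · have h3 : M ^ 3 = -1 := by
        have : M ^ 3 = (M * M) * M := by rw [pow_succ, pow_two]
        rw [this, hCH]
        rw [sub_mul, smul_mul_assoc, hCH, one_mul]
        simp
      have : M ^ 12 = (M ^ 3) ^ 4 := by rw [← pow_mul]
      rw [this, h3]
      exact Even.neg_one_pow (by decide)
  apply Subtype.ext
  rw [Matrix.SpecialLinearGroup.coe_pow, hv]
  rfl

theorem Mat2_bound (c : SL(2, ℤ))
    (h : ∀ μ : ℂ, ((c : Matrix (Fin 2) (Fin 2) ℤ).map (Int.castRingHom ℂ)).charpoly.IsRoot μ →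
      ∃ m : ℕ, 0 < m ∧ μ ^ m = 1) : (c.1 0 0 + c.1 1 1) ^ 2 ≤ 4 := by
  have hdeg : ((c : Matrix (Fin 2) (Fin 2) ℤ).map (Int.castRingHom ℂ)).charpoly.degree ≠ 0 := by
    rw [Matrix.charpoly_degree_eq_dim]
    simp
  obtain ⟨μ, hμ⟩ := IsAlgClosed.exists_root _ hdeg
  obtain ⟨m, hm, hpow⟩ := h μ hμ
  have hnorm : ‖μ‖ = 1 := Complex.norm_eq_one_of_pow_eq_one hpow hm.ne'
  have hdet := Mat2_det c
  rw [Matrix.charpoly_fin_two, Polynomial.IsRoot.def] at hμ
  simp only [Polynomial.eval_add, Polynomial.eval_sub, Polynomial.eval_pow, Polynomial.eval_X,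
    Polynomial.eval_mul, Polynomial.eval_C, Matrix.trace_fin_two, Matrix.det_fin_two,
    Matrix.map_apply, eq_intCast] at hμ
  have hdetC : ((c.1 0 0 : ℤ) : ℂ) * (c.1 1 1 : ℤ) - (c.1 0 1 : ℤ) * (c.1 1 0 : ℤ) = 1 := by
    exact_mod_cast hdet
  have hτ : ((c.1 0 0 + c.1 1 1 : ℤ) : ℂ) * μ = μ ^ 2 + 1 := by
    push_cast
    linear_combination -hμ + hdetC
  have h1 : ‖((c.1 0 0 + c.1 1 1 : ℤ) : ℂ)‖ ≤ 2 := by
    have h2 : ‖((c.1 0 0 + c.1 1 1 : ℤ) : ℂ) * μ‖ ≤ 2 := by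
      rw [hτ]
      calc ‖μ ^ 2 + 1‖ ≤ ‖μ ^ 2‖ + ‖(1 : ℂ)‖ := norm_add_le _ _
        _ = 2 := by rw [norm_pow, hnorm]; norm_num
    rwa [norm_mul, hnorm, mul_one] at h2
  rw [Complex.norm_intCast] at h1
  have h3 : |(c.1 0 0 + c.1 1 1 : ℤ)| ≤ 2 := by exact_mod_cast h1
  have h4 := abs_le.mp h3
  nlinarith [h4.1, h4.2]

theorem comm_of_quasiunipotent (B : Subgroup SL(2, ℤ))
    (htf : ∀ x ∈ B, ∀ m : ℕ, 0 < m → x ^ m = 1 → x = 1)
    (h : ∀ c ∈ ⁅B, B⁆, ∀ μ : ℂ, ((c : Matrix (Fin 2) (Fin 2) ℤ).map (Int.castRingHom ℂ)).charpoly.IsRoot μ →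
      ∃ m : ℕ, 0 < m ∧ μ ^ m = 1)
    (x y : SL(2, ℤ)) (hx : x ∈ B) (hy : y ∈ B) : x * y = y * x := by
  have hCB : ⁅B, B⁆ ≤ B := by
    rw [Subgroup.commutator_le]
    intro g hg k hk
    rw [commutatorElement_def]
    exact B.mul_mem (B.mul_mem (B.mul_mem hg hk) (B.inv_mem hg)) (B.inv_mem hk)
  have hle : ∀ c ∈ ⁅B, B⁆, (c.1 0 0 + c.1 1 1) ^ 2 ≤ 4 := fun c hc => Mat2_bound c (h c hc)
  have heq : ∀ c ∈ ⁅B, B⁆, (c.1 0 0 + c.1 1 1) ^ 2 = 4 := by
    intro c hc
    by_contra hne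
    have h1 := Mat2_pow12 c (hle c hc) hne
    have h2 := htf c (hCB hc) 12 (by norm_num) h1
    apply hne
    rw [h2]
    simp
  by_contra hne
  -- the commutator
  have hc1 : x * y * x⁻¹ * y⁻¹ ≠ 1 := by
    intro h1
    apply hne
    have h2 : x * y * x⁻¹ * y⁻¹ * (y * x) = 1 * (y * x) := by rw [h1]
    rw [one_mul] at h2
    rw [← h2]
    group
  obtain ⟨c, hcdef⟩ : ∃ c, c = x * y * x⁻¹ * y⁻¹ := ⟨_, rfl⟩
  rw [← hcdef] at hc1
  have hcC : c ∈ ⁅B, B⁆ := by
    rw [hcdef, ← commutatorElement_def]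
    exact Subgroup.commutator_mem_commutator hx hy
  have hcB : c ∈ B := hCB hcC
  have hconj : ∀ z ∈ B, z * c * z⁻¹ ∈ ⁅B, B⁆ := by
    intro z hz
    have h1 := Subgroup.commutator_mem_commutator hz hcB
    have h2 := ⁅B, B⁆.mul_mem h1 hcC
    rw [commutatorElement_def] at h2
    simpa [mul_assoc] using h2
  have hτe : (c * c).1 0 0 + (c * c).1 1 1 = 2 := by
    rw [Mat2_trace_sq, heq c hcC]
    norm_num
  have hcomm : ∀ z ∈ B, z * (c * c) = (c * c) * z := by
    intro z hz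
    have hd := hconj z hz
    have hf : z * (c * c) * z⁻¹ = (z * c * z⁻¹) * (z * c * z⁻¹) := by group
    have hτf : (z * (c * c) * z⁻¹).1 0 0 + (z * (c * c) * z⁻¹).1 1 1 = 2 := by
      rw [hf, Mat2_trace_sq, heq _ hd]
      norm_num
    have hsum := Mat2_trace_add (c * c) (z * (c * c) * z⁻¹)
    rw [hτe, hτf] at hsum
    have hfC : z * (c * c) * z⁻¹ ∈ ⁅B, B⁆ := by
      rw [hf]
      exact ⁅B, B⁆.mul_mem hd hd
    have heC : c * c ∈ ⁅B, B⁆ := ⁅B, B⁆.mul_mem hcC hcC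
    have b1 := hle _ (⁅B, B⁆.mul_mem heC hfC)
    have b2 := hle _ (⁅B, B⁆.mul_mem heC (⁅B, B⁆.inv_mem hfC))
    apply Mat2_conj_eq _ _ hτe
    generalize ((c * c) * (z * (c * c) * z⁻¹)).1 0 0 + ((c * c) * (z * (c * c) * z⁻¹)).1 1 1 = s1 at *
    generalize ((c * c) * (z * (c * c) * z⁻¹)⁻¹).1 0 0 + ((c * c) * (z * (c * c) * z⁻¹)⁻¹).1 1 1 = s2 at *
    have : s1 ≤ 2 := by nlinarith
    have : s2 ≤ 2 := by nlinarith
    linarith
  have hns : ¬ ((c * c).1 0 0 - (c * c).1 1 1 = 0 ∧ (c * c).1 0 1 = 0 ∧ (c * c).1 1 0 = 0) := by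
    rintro ⟨g1, g2, g3⟩
    have hcc : c * c = 1 := by
      apply Matrix.SpecialLinearGroup.ext
      intro i j
      have g00 : (c * c).1 0 0 = 1 := by linarith
      have g11 : (c * c).1 1 1 = 1 := by linarith
      fin_cases i <;> fin_cases j
      · simpa using g00
      · simpa using g2
      · simpa using g3
      · simpa using g11
    apply hc1
    exact htf c hcB 2 (by norm_num) (by rw [pow_two]; exact hcc)
  exact hne (Mat2_centralizer (c * c) x y hns (hcomm x hx) (hcomm y hy))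

end Pool.Agent.PHI
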