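import Mathlib

/-!
# NSyl: commutators in a finite nilpotent group with an abelian Sylow `ℓ`-subgroup

`X` finite nilpotent, `S` an abelian Sylow `ℓ`-subgroup.  Then every `x` in the commutator subgroup has order
prime to `ℓ`.

PROOF.  (1) `S` is central: let `C = Subgroup.centralizer S`.  `S ≤ C` as `S` is abelian.  For a prime `q ≠ ℓ` and
a Sylow `q`-subgroup `T`: `S` and `T` are normal (`Group.isNilpotent_of_finite_tfae`, or
`Sylow.normal_of_all_max_subgroups_normal`, ...), their intersection is trivial (orders are powers of different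
primes, `IsPGroup.disjoint_of_ne` / `Sylow` lemmas), so they commute
(`Subgroup.commute_of_normal_of_disjoint`), `T ≤ C`.  For every prime `q` the index of `C` divides the index of
a Sylow `q`-subgroup contained in `C` (`Subgroup.index_dvd_of_le`), which is prime to `q` (`Sylow.not_dvd_index`).
So `C.index = 1`, `C = ⊤`.
(2) Hence `normalizer S ≤ centralizer S` and Burnside's transfer theorem applies:
`MonoidHom.ker_transferSylow_isComplement'` (file Mathlib/GroupTheory/Transfer.lean): the kernel `T` of
`MonoidHom.transferSylow S _ : X →* S` is a complement of `S`, in particular `ℓ ∤ Nat.card T`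
(`MonoidHom.not_dvd_card_ker_transferSylow`).  `S` is commutative so the commutator subgroup is contained in the
kernel (`Abelianization.commutator_subset_ker` needs a `CommGroup` target; or directly via
`commutator_le` / `Subgroup.commutator_le`).  So `orderOf x ∣ Nat.card T`.
(Any other proof is fine, e.g. through the product decomposition of `Group.isNilpotent_of_finite_tfae`.)
-/

namespace Pool.Agent.PHI

theorem NSyl_centralizer_eq_top {X : Type*} [Group X] [Finite X] [Group.IsNilpotent X]
    {ℓ : ℕ} [Fact ℓ.Prime] (S : Sylow ℓ X)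
    (hS : ∀ x ∈ (S : Subgroup X), ∀ y ∈ (S : Subgroup X), x * y = y * x) :
    Subgroup.centralizer ((S : Subgroup X) : Set X) = ⊤ := by
  set C := Subgroup.centralizer ((S : Subgroup X) : Set X) with hC
  have hSC : (S : Subgroup X) ≤ C := by
    intro x hx
    rw [hC, Subgroup.mem_centralizer_iff]
    intro y hy
    exact hS y hy x hx
  rw [← Subgroup.index_eq_one]
  by_contra hne
  obtain ⟨q, hq, hqd⟩ := Nat.exists_prime_and_dvd hne
  have : Fact q.Prime := ⟨hq⟩
  rcases eq_or_ne q ℓ with h | h
  · subst h
    exact S.not_dvd_index (hqd.trans (Subgroup.index_dvd_of_le hSC))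
  · obtain ⟨T⟩ := (inferInstance : Nonempty (Sylow q X))
    have hTC : (T : Subgroup X) ≤ C := by
      have hd : Disjoint (S : Subgroup X) (T : Subgroup X) :=
        IsPGroup.disjoint_of_ne ℓ q (Ne.symm h) _ _ S.isPGroup' T.isPGroup'
      intro x hx
      rw [hC, Subgroup.mem_centralizer_iff]
      intro y hy
      exact (Subgroup.commute_of_normal_of_disjoint (S : Subgroup X) (T : Subgroup X)
        inferInstance inferInstance hd y x hy hx)
    exact T.not_dvd_index (hqd.trans (Subgroup.index_dvd_of_le hTC))

theorem not_dvd_orderOf_of_mem_commutator {X : Type*} [Group X] [Finite X] [Group.IsNilpotent X]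
    {ℓ : ℕ} [Fact ℓ.Prime] (S : Sylow ℓ X)
    (hS : ∀ x ∈ (S : Subgroup X), ∀ y ∈ (S : Subgroup X), x * y = y * x)
    (x : X) (hx : x ∈ commutator X) : ¬ ℓ ∣ orderOf x := by
  have hc := NSyl_centralizer_eq_top S hS
  have hP : Subgroup.normalizer ((S : Subgroup X) : Set X) ≤
      Subgroup.centralizer ((S : Subgroup X) : Set X) := by
    rw [hc]
    exact le_top
  have hcomm : ∀ a b : (S : Subgroup X), a * b = b * a := by
    intro a b
    exact Subtype.ext (hS a a.2 b b.2)
  have hle : commutator X ≤ (MonoidHom.transferSylow S hP).ker := by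
    rw [commutator_def, Subgroup.commutator_le]
    intro a _ b _
    rw [MonoidHom.mem_ker, map_commutatorElement, commutatorElement_eq_one_iff_mul_comm]
    exact hcomm _ _
  intro hd
  apply MonoidHom.not_dvd_card_ker_transferSylow S hP
  refine hd.trans ?_
  have := orderOf_dvd_natCard (⟨x, hle hx⟩ : (MonoidHom.transferSylow S hP).ker)
  rwa [Subgroup.orderOf_mk] at this

end Pool.Agent.PHI
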