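import Pool.Agent.PHI.FNilpM
import Pool.Agent.PHI.Elem
import Pool.Agent.PHI.NSyl
import Pool.Agent.PHI.LemZ
import Pool.Agent.PHI.Ping
import Pool.Agent.PHI.Mat2
import Pool.Agent.PHI.Odd

/-!
# FExt: the extension theorem for subgroups with nilpotent finite images
-/

namespace Pool.Agent.PHI

open Matrix MatrixGroups

universe u

/-- Integral representations of `P` are quasi-unipotent on `⁅MN P N, MN P N⁆`. -/
theorem FExt_QU {Γ : Type u} [Group Γ] (P : Subgroup Γ) [P.Normal]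
    [Group.FG P] (G : Subgroup Γ) (N : Subgroup G) (hN : FN N) {n : ℕ} (η : P →* GL (Fin n) ℤ)
    (h : P) (hh : h ∈ ⁅MN P N, MN P N⁆) {μ : ℂ}
    (hμ : ((η h).val.map (Int.castRingHom ℂ)).charpoly.IsRoot μ) :
    ∃ m : ℕ, 0 < m ∧ μ ^ m = 1 := by
  classical
  refine exists_pow_eq_one_of_ordSmooth (η h).val ?_ n ?_ hμ
  · have h1 : IsUnit (η h).val.det := by
      rw [← Matrix.isUnit_iff_isUnit_det]
      exact (η h).isUnit
    exact h1.ne_zero
  · intro p hp
    have : Fact p.Prime := ⟨hp⟩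
    set ηp : P →* GL (Fin n) (ZMod p) :=
      (Matrix.GeneralLinearGroup.map (Int.castRingHom (ZMod p))).comp η with hηp
    refine ⟨orderOf (ηp h), ?_, ?_⟩
    · have h1 : (ηp h) ^ orderOf (ηp h) = 1 := pow_orderOf_eq_one _
      have h2 := congrArg (fun u : GL (Fin n) (ZMod p) => (u : Matrix (Fin n) (Fin n) (ZMod p))) h1
      simp only [Units.val_pow_eq_pow_val, Units.val_one] at h2
      exact h2
    · intro ℓ hℓ hℓn hne
      have : Fact ℓ.Prime := ⟨hℓ⟩
      have hfin : Finite (GL (Fin n) (ZMod p)) := inferInstance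
      have hnil : Group.IsNilpotent ((MN P N).map ηp) := map_MN_isNilpotent P G N hN ηp
      set X := (MN P N).map ηp with hX
      obtain ⟨S⟩ : Nonempty (Sylow ℓ X) := inferInstance
      have hSc : ∀ x ∈ (S : Subgroup X), ∀ y ∈ (S : Subgroup X), x * y = y * x := by
        intro x hx y hy
        have hF : (ℓ : ZMod p) ≠ 0 := by
          intro h0
          rw [ZMod.natCast_eq_zero_iff] at h0
          exact hne ((Nat.prime_dvd_prime_iff_eq hp hℓ).1 h0).symm
        have hmap : IsPGroup ℓ ((S : Subgroup X).map X.subtype) := S.isPGroup'.map _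
        have h1 := comm_of_isPGroup hℓ hℓn hF ((S : Subgroup X).map X.subtype) hmap
          (x : GL (Fin n) (ZMod p)) y ⟨x, hx, rfl⟩ ⟨y, hy, rfl⟩
        exact Subtype.ext h1
      have hmem : ηp h ∈ ⁅X, X⁆ := by
        rw [hX, ← Subgroup.map_commutator]
        exact ⟨h, hh, rfl⟩
      have h2 : ⁅X, X⁆ = (commutator X).map X.subtype := by
        rw [commutator_def, Subgroup.map_commutator, ← MonoidHom.range_eq_map, Subgroup.range_subtype]
      rw [h2] at hmem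
      obtain ⟨z, hz, hzh⟩ := hmem
      have h3 := not_dvd_orderOf_of_mem_commutator S hSc z hz
      have h4 : orderOf z = orderOf (ηp h) := by
        rw [← hzh]
        exact (Subgroup.orderOf_coe z).symm
      rwa [h4] at h3

theorem FExt_comm {Γ : Type u} [Group Γ] (P : Subgroup Γ) [P.Normal] (hP : Nice P)
    (G : Subgroup Γ) (N : Subgroup G) (hN : FN N)
    (x y : P) (hx : x ∈ MN P N) (hy : y ∈ MN P N) : x * y = y * x := by
  have := hP.fg
  by_contra hne
  have hh : x * y * x⁻¹ * y⁻¹ ≠ 1 := by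
    intro h1
    apply hne
    have h2 : x * y * x⁻¹ * y⁻¹ * (y * x) = 1 * (y * x) := by rw [h1]
    rw [one_mul] at h2
    rw [← h2]
    group
  obtain ⟨ξ, hξ⟩ := hP.resFree _ hh
  obtain ⟨η₀, hinj, -⟩ := exists_free_embedding
  obtain ⟨ζ, hζ⟩ : ∃ ζ : P →* SL(2, ℤ), ζ = η₀.comp ξ := ⟨_, rfl⟩
  have key : ζ x * ζ y = ζ y * ζ x := by
    refine comm_of_quasiunipotent ((MN P N).map ζ) ?_ ?_ (ζ x) (ζ y) ⟨x, hx, rfl⟩ ⟨y, hy, rfl⟩
    · rintro _ ⟨m, hm, rfl⟩ k hk hpow
      have h1 : η₀ (ξ m ^ k) = η₀ 1 := by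
        rw [map_pow, map_one]
        simpa [hζ] using hpow
      have h2 : ξ m ^ k = 1 := hinj h1
      have h3 : ξ m = 1 := (pow_eq_one_iff_left hk.ne').mp h2
      simp [hζ, h3]
    · intro c hc μ hμ
      rw [← Subgroup.map_commutator] at hc
      obtain ⟨h', hh', rfl⟩ := hc
      exact FExt_QU P G N hN
        ((Matrix.SpecialLinearGroup.toGL).comp ζ) h' hh' (μ := μ) hμ
  apply hξ
  apply hinj
  have h4 : ζ (x * y * x⁻¹ * y⁻¹) = 1 := by
    rw [map_mul, map_mul, map_mul, key, map_inv, map_inv]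
    group
  rw [hζ] at h4
  rw [map_one]
  exact h4

theorem FExt_conj_ne_inv {Γ : Type u} [Group Γ] (P : Subgroup Γ) [P.Normal] (hP : Nice P)
    (G : Subgroup Γ) (N : Subgroup G) (hN : FN N) (m : P) (hm : m ∈ MN P N) (hm1 : m ≠ 1)
    (g : G) (hg : g ∈ N) :
    (g : Γ) * (m : Γ) * (g : Γ)⁻¹ ≠ (m : Γ)⁻¹ := by
  classical
  intro heq
  obtain ⟨x, hx⟩ : ∃ x : P, m * x ≠ x * m := by
    by_contra hcon
    push Not at hcon
    exact hm1 (hP.center m hcon)
  have hc1 : m * x * m⁻¹ * x⁻¹ ≠ 1 := by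
    intro h
    apply hx
    have h1 : m * x = 1 * x * m := by rw [← h]; group
    simpa using h1
  obtain ⟨ξ, hξ⟩ := hP.resFree _ hc1
  obtain ⟨η, hη, hη3⟩ := exists_free_embedding
  have hA : η (ξ (m * x * m⁻¹ * x⁻¹)) ≠ 1 := fun h => hξ (hη (by rw [h, map_one]))
  obtain ⟨k, hk⟩ := Odd_exists_ne _ hA
  have hfin0 : NeZero (3 ^ k : ℕ) := ⟨by positivity⟩
  let τ : P →* SL(2, ZMod (3 ^ k)) := ((Odd_red k).comp η).comp ξ
  have hτ : τ (m * x * m⁻¹ * x⁻¹) ≠ 1 := hk
  have hTp : IsPGroup 3 τ.range := by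
    rintro ⟨_, y, rfl⟩
    refine ⟨k, ?_⟩
    ext1
    exact Odd_red_pow k (η (ξ y)) (hη3 _)
  have hPfg : Group.FG P := hP.fg
  have hTfin : Finite τ.range := inferInstance
  obtain ⟨K, hKc, hKf, hKτ, hKp⟩ := exists_char_quot (P := P) τ.range
  have hcK : m * x * m⁻¹ * x⁻¹ ∉ K := by
    intro h
    have := hKτ τ.rangeRestrict h
    rw [MonoidHom.mem_ker] at this
    exact hτ (congrArg Subtype.val this)
  obtain ⟨j, hj⟩ := hKp 3 Nat.prime_three hTp m
  have hfq : Finite (P ⧸ K) := inferInstance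
  have hfa : Finite (MulAut (P ⧸ K)) := by
    exact Finite.of_injective (fun φ : MulAut (P ⧸ K) => (φ : P ⧸ K → P ⧸ K)) DFunLike.coe_injective
  let f : G →* MulAut (P ⧸ K) := (Odd_c P K).comp G.subtype
  have hNn : Group.IsNilpotent (N.map f) := hN _ f
  obtain ⟨y, hy, hym⟩ : ∃ y : G, y ∈ N ∧ (y : Γ) = m := by
    have := hm
    unfold MN at this
    rw [Subgroup.mem_subgroupOf, Subgroup.mem_map] at this
    obtain ⟨y, hy, hym⟩ := this
    exact ⟨y, hy, hym⟩
  have hconj : f g * f y * (f g)⁻¹ = (f y)⁻¹ := by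
    rw [← map_mul, ← map_inv, ← map_mul, ← map_inv]
    congr 1
    ext1
    push_cast
    rw [hym]
    exact heq
  have hfy : ∀ z : P, f y (z : P ⧸ K) = ((m * z * m⁻¹ : P) : P ⧸ K) := by
    intro z
    change Odd_c P K (y : Γ) (z : P ⧸ K) = _
    rw [hym, Odd_c_coe]
  obtain ⟨i, hi⟩ := Odd_nilp _ hNn (f y) (f g) (Subgroup.mem_map_of_mem f hy)
    (Subgroup.mem_map_of_mem f hg) hconj
  have h3 : f y ^ 3 ^ j = 1 := by
    have h0 : f y = Odd_c P K (m : Γ) := by
      rw [← hym]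
      rfl
    have h1 : f y ^ 3 ^ j = Odd_c P K ((m ^ 3 ^ j : P) : Γ) := by
      rw [h0, ← map_pow, ← Subgroup.coe_pow]
    rw [h1]
    ext z
    induction z using QuotientGroup.induction_on with
    | H z =>
      rw [Odd_c_coe]
      have h2 : ((m ^ 3 ^ j : P) : P ⧸ K) = 1 := (QuotientGroup.eq_one_iff _).2 hj
      rw [QuotientGroup.mk_mul, QuotientGroup.mk_mul, QuotientGroup.mk_inv, h2]
      simp
  have hone : f y = 1 := by
    have hcop : Nat.Coprime (2 ^ i) (3 ^ j) := Nat.Coprime.pow _ _ (by norm_num)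
    have h1 : orderOf (f y) ∣ 2 ^ i := orderOf_dvd_of_pow_eq_one hi
    have h2 : orderOf (f y) ∣ 3 ^ j := orderOf_dvd_of_pow_eq_one h3
    have := Nat.eq_one_of_dvd_coprimes hcop h1 h2
    exact orderOf_eq_one_iff.1 this
  apply hcK
  have h5 := hfy x
  rw [hone] at h5
  have h6 : ((x : P) : P ⧸ K) = ((m * x * m⁻¹ : P) : P ⧸ K) := h5
  rw [← QuotientGroup.eq_one_iff, QuotientGroup.mk_mul, ← h6, ← QuotientGroup.mk_mul]
  simp

/-- `Nice` groups are torsion-free. -/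
theorem Nice.torsionFree {P : Type*} [Group P] (hP : Nice P) (x : P) (k : ℕ) (hk : 0 < k)
    (hx : x ^ k = 1) : x = 1 := by
  by_contra hne
  obtain ⟨ξ, hξ⟩ := hP.resFree x hne
  apply hξ
  have h1 : ξ x ^ k = 1 := by rw [← map_pow, hx, map_one]
  exact (pow_eq_one_iff_left hk.ne').mp h1

theorem FExt_central {Γ : Type u} [Group Γ] (P : Subgroup Γ) [P.Normal] (hP : Nice P)
    (G : Subgroup Γ) (N : Subgroup G) (hN : FN N) (m : P) (hm : m ∈ MN P N) (g : G) (hg : g ∈ N) :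
    (g : Γ) * (m : Γ) = (m : Γ) * (g : Γ) := by
  classical
  obtain ⟨a, ha⟩ := hP.cyclic (MN P N) (fun x hx y hy => FExt_comm P hP G N hN x y hx hy)
  have haM : a ∈ MN P N := by rw [ha]; exact Subgroup.mem_zpowers a
  -- conjugates of elements of `M` by elements of `N` are in `M`
  have hconjM : ∀ (h : G), h ∈ N → ∀ y : P, y ∈ MN P N →
      ∃ z : P, z ∈ MN P N ∧ (z : Γ) = (h : Γ) * (y : Γ) * (h : Γ)⁻¹ := by
    intro h hh y hy
    refine ⟨⟨(h : Γ) * (y : Γ) * (h : Γ)⁻¹, ?_⟩, ?_, rfl⟩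
    · exact Subgroup.Normal.conj_mem inferInstance _ y.2 _
    · unfold MN at hy ⊢
      rw [Subgroup.mem_subgroupOf, Subgroup.mem_map] at hy ⊢
      obtain ⟨t, ht, hty⟩ := hy
      refine ⟨h * t * h⁻¹, N.mul_mem (N.mul_mem hh ht) (N.inv_mem hh), ?_⟩
      have h0 : (t : Γ) = (y : Γ) := hty
      show (h : Γ) * (t : Γ) * (h : Γ)⁻¹ = (h : Γ) * (y : Γ) * (h : Γ)⁻¹
      rw [h0]
  have hkey : (g : Γ) * (a : Γ) * (g : Γ)⁻¹ = (a : Γ) := by
    by_cases ha1 : a = 1
    · subst ha1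
      simp
    obtain ⟨z, hz, hzg⟩ := hconjM g hg a haM
    obtain ⟨w, hw, hwg⟩ := hconjM g⁻¹ (N.inv_mem hg) a haM
    rw [ha] at hz hw
    obtain ⟨i, hi⟩ := hz
    obtain ⟨j, hj⟩ := hw
    simp only at hi hj
    have h1 : (g : Γ) * (a : Γ) * (g : Γ)⁻¹ = (a : Γ) ^ i := by
      rw [← hzg, ← hi]
      simp
    have h2 : (g : Γ)⁻¹ * (a : Γ) * (g : Γ) = (a : Γ) ^ j := by
      have : ((g⁻¹ : G) : Γ) * (a : Γ) * ((g⁻¹ : G) : Γ)⁻¹ = (a : Γ) ^ j := by
        rw [← hwg, ← hj]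
        simp
      simpa using this
    have h3 : (a : Γ) ^ (i * j) = (a : Γ) := by
      rw [_root_.zpow_mul, ← h1, conj_zpow, ← h2]
      group
    have h4 : a ^ (i * j - 1) = 1 := by
      apply Subtype.ext
      push_cast
      rw [_root_.zpow_sub_one, h3, mul_inv_cancel]
    have h5 : i * j - 1 = 0 := by
      by_contra hne
      apply ha1
      apply hP.torsionFree a (i * j - 1).natAbs (Int.natAbs_pos.2 hne)
      rcases Int.natAbs_eq (i * j - 1) with h | h
      · rw [h] at h4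
        exact_mod_cast h4
      · rw [h, _root_.zpow_neg, inv_eq_one] at h4
        exact_mod_cast h4
    have h6 : i * j = 1 := by omega
    rcases Int.eq_one_or_neg_one_of_mul_eq_one h6 with rfl | rfl
    · rw [h1, zpow_one]
    · exfalso
      apply FExt_conj_ne_inv P hP G N hN a haM ha1 g hg
      rw [h1, _root_.zpow_neg_one]
  rw [ha] at hm
  obtain ⟨k, rfl⟩ := hm
  have h7 : (g : Γ) * (a : Γ) = (a : Γ) * (g : Γ) := by
    rw [mul_inv_eq_iff_eq_mul] at hkey
    exact hkey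
  have h8 : Commute (g : Γ) (a : Γ) := h7
  have h9 := h8.zpow_right k
  have h10 := h9.eq
  simpa using h10

theorem isNilpotent_of_nice_FN {Γ : Type u} [Group Γ] (P : Subgroup Γ) [P.Normal] (hP : Nice P)
    (G : Subgroup Γ) (N : Subgroup G) (hN : FN N)
    (h : Group.IsNilpotent ((N.map G.subtype).map (QuotientGroup.mk' P))) :
    Group.IsNilpotent N := by
  rw [Subgroup.map_map] at h
  set f : G →* Γ ⧸ P := (QuotientGroup.mk' P).comp G.subtype with hf
  refine Subgroup.isNilpotent_of_ker_le_center (f.subgroupMap N) ?_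
  intro x hx
  rw [MonoidHom.mem_ker] at hx
  have h2 : f (x : G) = 1 := congrArg Subtype.val hx
  have h3 : ((x : G) : Γ) ∈ P := by
    have : (QuotientGroup.mk' P) ((x : G) : Γ) = 1 := h2
    rwa [← MonoidHom.mem_ker, QuotientGroup.ker_mk'] at this
  rw [Subgroup.mem_center_iff]
  intro y
  apply Subtype.ext
  apply Subtype.ext
  have h4 : (⟨((x : G) : Γ), h3⟩ : P) ∈ MN P N := by
    unfold MN
    rw [Subgroup.mem_subgroupOf, Subgroup.mem_map]
    exact ⟨x, x.2, rfl⟩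
  exact FExt_central P hP G N hN ⟨_, h3⟩ h4 (y : G) y.2

end Pool.Agent.PHI
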