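import Pool.Agent.PHI.DefsE
import Pool.Agent.PHI.PhiN
import Pool.Agent.PHI.CharQ

/-!
# NilpM: finite images of `Φ_f(G) ∩ P` are nilpotent

`P` normal in `Γ`, finitely generated, `G ≤ Γ`, `τ : P → T` any homomorphism to a finite group (not assumed to be
compatible with anything).  Then the image of `M = MM P G` in `T` is nilpotent.

PROOF.  Let `K` be the subgroup of `exists_char_quot` for `T`; it is characteristic in `P`, of finite index,
`K ≤ τ.ker`.  `Γ` acts on `P` by conjugation (`MulAut.conjNormal : Γ →* MulAut P`) and, `K` being characteristic, on the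
finite group `P ⧸ K`: let `c : Γ →* MulAut (P ⧸ K)` with `c γ (x K) = (γ x γ⁻¹) K` (for instance via
`QuotientGroup.congr`, or build it by hand).  Let `f = c.comp G.subtype : G →* MulAut (P ⧸ K)`, finite target.
`N = (PhiF G).map f` is nilpotent (`map_phiF_isNilpotent`).
Let `M̄ = M.map (QuotientGroup.mk' K)`.  The map `M̄ → MulAut (P ⧸ K)`, `y ↦ conj y`, has image contained in `N`
(for `x ∈ M` the element `x : Γ` lies in the image of `PhiF G` and `c x` is conjugation by `x K`), and its kernel is
contained in the centre of `M̄`.  So `M̄` is nilpotent (`Group.isNilpotent_of_ker_le_center`).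
`τ` factors through `P ⧸ K`, so `M.map τ` is an image of `M̄`, hence nilpotent (`nilpotent_of_surjective`).
-/

namespace Pool.Agent.PHI

/-- automorphisms act on a characteristic quotient -/
def NilpM_q {P : Type*} [Group P] (K : Subgroup P) [K.Characteristic] :
    MulAut P →* MulAut (P ⧸ K) where
  toFun α := QuotientGroup.congr K K α (Subgroup.characteristic_iff_map_eq.1 inferInstance α)
  map_one' := by
    ext x
    obtain ⟨x, rfl⟩ := QuotientGroup.mk_surjective x
    rfl
  map_mul' α β := by
    ext x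
    obtain ⟨x, rfl⟩ := QuotientGroup.mk_surjective x
    rfl

theorem NilpM_q_mk {P : Type*} [Group P] (K : Subgroup P) [K.Characteristic] (α : MulAut P)
    (x : P) : NilpM_q K α (x : P ⧸ K) = ((α x : P) : P ⧸ K) := rfl

theorem map_MM_isNilpotent {Γ : Type*} [Group Γ] (P : Subgroup Γ) [P.Normal] [Group.FG P]
    (G : Subgroup Γ) {T : Type*} [Group T] [Finite T] (τ : P →* T) :
    Group.IsNilpotent ((MM P G).map τ) := by
  classical
  obtain ⟨K, hchar, hfin, hker, -⟩ := exists_char_quot (P := P) T
  have hKN : K.Normal := inferInstance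
  have hQ : Finite (P ⧸ K) := Subgroup.finite_quotient_of_finiteIndex
  have hA : Finite (MulAut (P ⧸ K)) :=
    Finite.of_injective (fun a : MulAut (P ⧸ K) => (a : P ⧸ K → P ⧸ K)) DFunLike.coe_injective
  set f : G →* MulAut (P ⧸ K) := ((NilpM_q K).comp MulAut.conjNormal).comp G.subtype with hf
  set N : Subgroup (MulAut (P ⧸ K)) := (PhiF G).map f with hN
  have hNn : Group.IsNilpotent N := map_phiF_isNilpotent f
  set Mb : Subgroup (P ⧸ K) := (MM P G).map (QuotientGroup.mk' K) with hMb
  have hmem : ∀ y : Mb, MulAut.conj (y : P ⧸ K) ∈ N := by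
    rintro ⟨y, hy⟩
    obtain ⟨x, hx, rfl⟩ := hy
    obtain ⟨g, hg, hgx⟩ := hx
    refine ⟨g, hg, ?_⟩
    ext z
    obtain ⟨z, rfl⟩ := QuotientGroup.mk_surjective z
    have h1 : f g (z : P ⧸ K) = ((MulAut.conjNormal (g : Γ) z : P) : P ⧸ K) := rfl
    rw [h1]
    show _ = MulAut.conj ((x : P) : P ⧸ K) (z : P ⧸ K)
    rw [MulAut.conj_apply]
    have h2 : MulAut.conjNormal (g : Γ) z = x * z * x⁻¹ := by
      apply Subtype.ext
      have h3 : (g : Γ) = (x : Γ) := hgx
      rw [MulAut.conjNormal_apply, h3]
      rfl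
    rw [h2]
    rfl
  set ψ : Mb →* N := (MulAut.conj.comp Mb.subtype).codRestrict N hmem with hψ
  have hψker : ψ.ker ≤ Subgroup.center Mb := by
    intro y hy
    rw [MonoidHom.mem_ker] at hy
    have h1 : MulAut.conj (y : P ⧸ K) = 1 := congrArg Subtype.val hy
    rw [Subgroup.mem_center_iff]
    intro z
    apply Subtype.ext
    have h2 : MulAut.conj (y : P ⧸ K) (z : P ⧸ K) = z := by rw [h1]; rfl
    rw [MulAut.conj_apply, mul_inv_eq_iff_eq_mul] at h2
    exact h2.symm
  have hMbn : Group.IsNilpotent Mb := Subgroup.isNilpotent_of_ker_le_center ψ hψker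
  set τ' : P ⧸ K →* T := QuotientGroup.lift K τ (fun x hx => hker τ hx) with hτ'
  have h1 : (MM P G).map τ = Mb.map τ' := by
    rw [hMb, Subgroup.map_map]
    congr 1
  rw [h1]
  exact Group.nilpotent_of_surjective (τ'.subgroupMap Mb) (τ'.subgroupMap_surjective Mb)

end Pool.Agent.PHI
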