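import Pool.Agent.PHI.DefsF
import Pool.Agent.PHI.NilpM

/-!
# FNilpM: finite images of `N ∩ P` are nilpotent (general form of `NilpM`)
-/

namespace Pool.Agent.PHI

universe u

theorem map_MN_isNilpotent {Γ : Type u} [Group Γ] (P : Subgroup Γ) [P.Normal] [Group.FG P]
    (G : Subgroup Γ) (N₁ : Subgroup G) (hN₁ : FN N₁) {T : Type*} [Group T] [Finite T] (τ : P →* T) :
    Group.IsNilpotent ((MN P N₁).map τ) := by
  classical
  obtain ⟨K, hchar, hfin, hker, -⟩ := exists_char_quot (P := P) T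
  have hKN : K.Normal := inferInstance
  have hQ : Finite (P ⧸ K) := Subgroup.finite_quotient_of_finiteIndex
  have hA : Finite (MulAut (P ⧸ K)) :=
    Finite.of_injective (fun a : MulAut (P ⧸ K) => (a : P ⧸ K → P ⧸ K)) DFunLike.coe_injective
  set f : G →* MulAut (P ⧸ K) := ((NilpM_q K).comp MulAut.conjNormal).comp G.subtype with hf
  set N : Subgroup (MulAut (P ⧸ K)) := N₁.map f with hN
  have hNn : Group.IsNilpotent N := hN₁ _ f
  set Mb : Subgroup (P ⧸ K) := (MN P N₁).map (QuotientGroup.mk' K) with hMb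
  have hmem : ∀ y : Mb, MulAut.conj (y : P ⧸ K) ∈ N := by
    rintro ⟨y, hy⟩
    obtain ⟨x, hx, rfl⟩ := hy
    obtain ⟨g, hg, hgx⟩ := hx
    refine ⟨g, hg, ?_⟩
    ext z
    obtain ⟨z, rfl⟩ := QuotientGroup.mk_surjective z
    have h1 : f g (z : P ⧸ K) = ((MulAut.conjNormal (g : Γ) z : P) : P ⧸ K) := rfl
    rw [h1]
    show _ = MulAut.conj ((x : P) : P ⧸ K) (z : P ⧸ K)
    rw [MulAut.conj_apply]
    have h2 : MulAut.conjNormal (g : Γ) z = x * z * x⁻¹ := by
      apply Subtype.ext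
      have h3 : (g : Γ) = (x : Γ) := hgx
      rw [MulAut.conjNormal_apply, h3]
      rfl
    rw [h2]
    rfl
  set ψ : Mb →* N := (MulAut.conj.comp Mb.subtype).codRestrict N hmem with hψ
  have hψker : ψ.ker ≤ Subgroup.center Mb := by
    intro y hy
    rw [MonoidHom.mem_ker] at hy
    have h1 : MulAut.conj (y : P ⧸ K) = 1 := congrArg Subtype.val hy
    rw [Subgroup.mem_center_iff]
    intro z
    apply Subtype.ext
    have h2 : MulAut.conj (y : P ⧸ K) (z : P ⧸ K) = z := by rw [h1]; rfl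
    rw [MulAut.conj_apply, mul_inv_eq_iff_eq_mul] at h2
    exact h2.symm
  have hMbn : Group.IsNilpotent Mb := Subgroup.isNilpotent_of_ker_le_center ψ hψker
  set τ' : P ⧸ K →* T := QuotientGroup.lift K τ (fun x hx => hker τ hx) with hτ'
  have h1 : (MN P N₁).map τ = Mb.map τ' := by
    rw [hMb, Subgroup.map_map]
    congr 1
  rw [h1]
  exact Group.nilpotent_of_surjective (τ'.subgroupMap Mb) (τ'.subgroupMap_surjective Mb)

end Pool.Agent.PHI
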