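import Pool.Agent.PHI.NSyl

/-!
# FinA: lifting to an extension by a group of order prime to `ℓ`

`B` finite, `D` normal with `ℓ ∤ |D|`, all `ℓ`-subgroups of `B` abelian, `N ≤ B/D` nilpotent, `y ∈ B` with
`y D ∈ [N, N]`.  Then `ℓ ∤ orderOf y`.

PROOF.  Let `q : B → B/D` (`QuotientGroup.mk'`), `H = N.comap q`, `f : H → N` the restriction of `q`
(surjective).  Take a Sylow `ℓ`-subgroup `P` of `H`; its image under `H.subtype` is an `ℓ`-subgroup of `B`, so
`P` is commutative.  `P.mapSurjective` (Mathlib/GroupTheory/Sylow.lean) is a Sylow `ℓ`-subgroup of `N`, also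
commutative.  `q y ∈ ⁅N, N⁆` means: the element `⟨q y, _⟩` of the group `N` lies in `commutator N`
(`Subgroup.map_subtype_commutator` or similar).  By `not_dvd_orderOf_of_mem_commutator` the order `o` of `q y` is prime to `ℓ`.
`y^o ∈ D` so `y^(o * |D|) = 1` and `orderOf y ∣ o * |D|`, prime to `ℓ`.
-/

namespace Pool.Agent.PHI

theorem not_dvd_orderOf_of_quotient {B : Type*} [Group B] [Finite B] (D : Subgroup B) [D.Normal]
    {ℓ : ℕ} (hℓ : ℓ.Prime) (hD : ¬ ℓ ∣ Nat.card D)
    (hab : ∀ P : Subgroup B, IsPGroup ℓ P → ∀ x ∈ P, ∀ y ∈ P, x * y = y * x)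
    (N : Subgroup (B ⧸ D)) (hN : Group.IsNilpotent N) (y : B)
    (hy : (y : B ⧸ D) ∈ ⁅N, N⁆) : ¬ ℓ ∣ orderOf y := by
  have : Fact ℓ.Prime := ⟨hℓ⟩
  set q : B →* B ⧸ D := QuotientGroup.mk' D with hq
  have hqs : Function.Surjective q := QuotientGroup.mk'_surjective D
  set f : N.comap q →* N := q.subgroupComap N with hf
  have hfs : Function.Surjective f := MonoidHom.subgroupComap_surjective_of_surjective q N hqs
  obtain ⟨P⟩ := (inferInstance : Nonempty (Sylow ℓ (N.comap q)))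
  have hP : ∀ a ∈ (P : Subgroup (N.comap q)), ∀ b ∈ (P : Subgroup (N.comap q)),
      a * b = b * a := by
    intro a ha b hb
    have h1 : IsPGroup ℓ ((P : Subgroup (N.comap q)).map (N.comap q).subtype) :=
      P.isPGroup'.map _
    have h2 := hab _ h1 (a : B) (Subgroup.mem_map_of_mem _ ha) (b : B)
      (Subgroup.mem_map_of_mem _ hb)
    exact Subtype.ext h2
  set S : Sylow ℓ N := P.mapSurjective hfs with hS
  have hS' : ∀ a ∈ (S : Subgroup N), ∀ b ∈ (S : Subgroup N), a * b = b * a := by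
    intro a ha b hb
    rw [hS, Sylow.coe_mapSurjective] at ha hb
    obtain ⟨a', ha', rfl⟩ := ha
    obtain ⟨b', hb', rfl⟩ := hb
    rw [← map_mul, hP a' ha' b' hb', map_mul]
  have hyN : (y : B ⧸ D) ∈ N := Subgroup.commutator_le_self N hy
  have hc : (⟨(y : B ⧸ D), hyN⟩ : N) ∈ commutator N := by
    have h3 : ⁅N, N⁆ = (commutator N).map N.subtype := (Subgroup.map_subtype_commutator N).symm
    rw [h3] at hy
    obtain ⟨z, hz, hz'⟩ := hy
    have : z = ⟨(y : B ⧸ D), hyN⟩ := Subtype.ext hz'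
    rwa [← this]
  have ho := not_dvd_orderOf_of_mem_commutator S hS' _ hc
  rw [Subgroup.orderOf_mk] at ho
  intro hd
  have h4 : y ^ (orderOf (y : B ⧸ D)) ∈ D := by
    rw [← QuotientGroup.eq_one_iff]
    exact pow_orderOf_eq_one (y : B ⧸ D)
  have h5 : y ^ (orderOf (y : B ⧸ D) * Nat.card D) = 1 := by
    rw [pow_mul]
    have h6 : (⟨y ^ (orderOf (y : B ⧸ D)), h4⟩ : D) ^ Nat.card D = 1 := pow_card_eq_one'
    exact congrArg Subtype.val h6
  have h7 := hd.trans (orderOf_dvd_of_pow_eq_one h5)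
  rcases (hℓ.dvd_mul).1 h7 with h | h
  · exact ho h
  · exact hD h

end Pool.Agent.PHI
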