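import Pool.Agent.PHI.Elem
import Pool.Agent.PHI.FinA
import Pool.Agent.PHI.PhiN

/-!
# FinB: orders modulo `p`

`θ : G → Out π`, `σ : Aut π → GL_n(ZMod p)`, `x ∈ [Φ_f(G), Φ_f(G)]`, `φ` an automorphism with class `θ x`.
For every prime `ℓ > C ≥ n, |σ(Inn π)|`, `ℓ ≠ p`: `ℓ ∤ orderOf (σ φ)`.

PROOF.  `B = σ.range` (finite).  `D =` image of `Inn π = MulAut.conj.range` under `σ.rangeRestrict : MulAut π → B`,
normal since `Inn` is normal and `rangeRestrict` is surjective (`Subgroup.Normal.map`).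
The hom `MulAut π → B ⧸ D` kills `Inn π`, so it factors through `Out π` (`QuotientGroup.map` or
`QuotientGroup.lift`): `τ : Out π →* B ⧸ D`.  Put `f = τ.comp θ : G →* B ⧸ D` (finite target) and
`N = (PhiF G).map f`, nilpotent by `map_phiF_isNilpotent`.  For `y = σ.rangeRestrict φ ∈ B` the class of `y` is
`τ [φ] = τ (θ x) = f x ∈ ⁅N, N⁆` (`Subgroup.map_commutator`).
`D` is the image of `σ.comp MulAut.conj`, so `Nat.card D ≤ C < ℓ` and `Nat.card D > 0`: `ℓ ∤ Nat.card D`
(the cardinality of `D` equals the one of `(σ.comp MulAut.conj).range`: `D` maps isomorphically under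
`σ.range.subtype`).  `ℓ`-subgroups `P` of `B`: their images in `GL (Fin n) (ZMod p)` are commutative by
`comm_of_isPGroup` (`(ℓ : ZMod p) ≠ 0` since `ℓ ≠ p` are primes).
Apply `not_dvd_orderOf_of_quotient`; `orderOf y = orderOf (σ φ)` (`Subgroup.orderOf_coe`).
-/

namespace Pool.Agent.PHI

open Matrix

theorem not_dvd_orderOf_rep {π G : Type*} [Group π] [Group G] (θ : G →* Out π) {n p : ℕ}
    [Fact p.Prime] (σ : MulAut π →* GL (Fin n) (ZMod p)) (C : ℕ)
    (hC : Nat.card (σ.comp (MulAut.conj : π →* MulAut π)).range ≤ C) (hn : n ≤ C)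
    (x : G) (hx : x ∈ ⁅PhiF G, PhiF G⁆) (φ : MulAut π) (hφ : (φ : Out π) = θ x)
    {ℓ : ℕ} (hℓ : ℓ.Prime) (hℓC : C < ℓ) (hne : ℓ ≠ p) : ¬ ℓ ∣ orderOf (σ φ) := by
  classical
  have hp : p.Prime := Fact.out
  have hfin : Finite (GL (Fin n) (ZMod p)) := inferInstance
  have hs : Function.Surjective σ.rangeRestrict := σ.rangeRestrict_surjective
  have hDn : (((MulAut.conj : π →* MulAut π).range).map σ.rangeRestrict).Normal :=
    Subgroup.Normal.map (innNormal π) σ.rangeRestrict hs
  obtain ⟨D, hD⟩ : ∃ D : Subgroup σ.range,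
    D = ((MulAut.conj : π →* MulAut π).range).map σ.rangeRestrict := ⟨_, rfl⟩
  rw [← hD] at hDn
  have hle : (MulAut.conj : π →* MulAut π).range ≤ D.comap σ.rangeRestrict := by
    rw [hD]; exact Subgroup.le_comap_map _ _
  let τ : Out π →* σ.range ⧸ D :=
    QuotientGroup.map (MulAut.conj : π →* MulAut π).range D σ.rangeRestrict hle
  let f : G →* σ.range ⧸ D := τ.comp θ
  have hN : Group.IsNilpotent ((PhiF G).map f) := map_phiF_isNilpotent f
  have hy : ((σ.rangeRestrict φ : σ.range) : σ.range ⧸ D) ∈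
      ⁅(PhiF G).map f, (PhiF G).map f⁆ := by
    have h1 : ((σ.rangeRestrict φ : σ.range) : σ.range ⧸ D) = f x := by
      change _ = τ (θ x)
      rw [← hφ]
      rfl
    rw [h1, ← Subgroup.map_commutator]
    exact Subgroup.mem_map_of_mem f hx
  have hcard : Nat.card D = Nat.card (σ.comp (MulAut.conj : π →* MulAut π)).range := by
    have h1 : D.map σ.range.subtype = (σ.comp (MulAut.conj : π →* MulAut π)).range := by
      rw [hD, Subgroup.map_map, MonoidHom.range_comp]
      congr 1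
    rw [← h1]
    exact Nat.card_congr (D.equivMapOfInjective σ.range.subtype σ.range.subtype_injective).toEquiv
  have hDl : ¬ ℓ ∣ Nat.card D := by
    intro h
    have h1 : 0 < Nat.card D := Nat.card_pos
    have h2 := Nat.le_of_dvd h1 h
    omega
  have hF : (ℓ : ZMod p) ≠ 0 := by
    intro h
    rw [ZMod.natCast_eq_zero_iff] at h
    exact hne ((Nat.prime_dvd_prime_iff_eq hp hℓ).mp h).symm
  have hab : ∀ P : Subgroup σ.range, IsPGroup ℓ P → ∀ x ∈ P, ∀ y ∈ P, x * y = y * x := by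
    intro P hP x hx y hy
    have h1 : IsPGroup ℓ (P.map σ.range.subtype) := hP.map σ.range.subtype
    have h2 := comm_of_isPGroup hℓ (lt_of_le_of_lt hn hℓC) hF (P.map σ.range.subtype) h1
      (x : GL (Fin n) (ZMod p)) (y : GL (Fin n) (ZMod p))
      (Subgroup.mem_map_of_mem σ.range.subtype hx) (Subgroup.mem_map_of_mem σ.range.subtype hy)
    exact Subtype.ext h2
  have h := not_dvd_orderOf_of_quotient D hℓ hDl hab ((PhiF G).map f) hN (σ.rangeRestrict φ) hy
  rw [← Subgroup.orderOf_coe] at h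
  exact h

end Pool.Agent.PHI
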