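import Pool.Agent.PHI.DefsE

/-!
# FreeNice: free groups of finite rank at least two are nice
-/

namespace Pool.Agent.PHI

theorem FreeNice_ne {α : Type*} (i j : α) (hij : i ≠ j) :
    (FreeGroup.of i * FreeGroup.of j : FreeGroup α) ≠ FreeGroup.of j * FreeGroup.of i := by
  classical
  intro h
  have h1 := congrArg (FreeGroup.lift (fun k : α => if k = i then (Equiv.swap 0 1 : Equiv.Perm (Fin 3))
    else Equiv.swap 1 2)) h
  simp only [map_mul, FreeGroup.lift_apply_of, if_true, if_neg hij.symm] at h1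
  exact absurd h1 (by decide)

theorem FreeNice_cyclic_of_comm {A : Type*} [Group A] [IsFreeGroup A]
    (h : ∀ x y : A, x * y = y * x) : ∃ a : A, ∀ x : A, x ∈ Subgroup.zpowers a := by
  classical
  have hsub : ∀ i j : IsFreeGroup.Generators A, i = j := by
    intro i j
    by_contra hij
    apply FreeNice_ne i j hij
    apply (IsFreeGroup.toFreeGroup A).symm.injective
    rw [map_mul, map_mul]
    exact h _ _
  have hgen : ∃ b : FreeGroup (IsFreeGroup.Generators A), ∀ x, x ∈ Subgroup.zpowers b := by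
    rcases isEmpty_or_nonempty (IsFreeGroup.Generators A) with he | ⟨⟨i⟩⟩
    · refine ⟨1, fun x => ?_⟩
      have : x = 1 := Subsingleton.elim _ _
      rw [this]
      exact Subgroup.one_mem _
    · refine ⟨FreeGroup.of i, fun x => ?_⟩
      have h1 : Subgroup.closure (Set.range (FreeGroup.of : IsFreeGroup.Generators A → _)) ≤
          Subgroup.zpowers (FreeGroup.of i) := by
        rw [Subgroup.closure_le]
        rintro _ ⟨j, rfl⟩
        rw [hsub j i]
        exact Subgroup.mem_zpowers _
      rw [FreeGroup.closure_range_of] at h1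
      exact h1 (Subgroup.mem_top x)
  obtain ⟨b, hb⟩ := hgen
  refine ⟨(IsFreeGroup.toFreeGroup A).symm b, fun x => ?_⟩
  obtain ⟨k, hk⟩ := hb (IsFreeGroup.toFreeGroup A x)
  refine ⟨k, ?_⟩
  simp only at hk ⊢
  rw [← map_zpow, hk]
  simp

theorem FreeNice_cyclic {α : Type*} (A : Subgroup (FreeGroup α))
    (h : ∀ x ∈ A, ∀ y ∈ A, x * y = y * x) : ∃ a : FreeGroup α, A = Subgroup.zpowers a := by
  obtain ⟨a, ha⟩ := FreeNice_cyclic_of_comm (A := A)
    (fun x y => Subtype.ext (h x x.2 y y.2))
  refine ⟨a, le_antisymm ?_ ?_⟩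
  · intro x hx
    obtain ⟨k, hk⟩ := ha ⟨x, hx⟩
    exact ⟨k, by
      have := congrArg Subtype.val hk
      simpa using this⟩
  · rw [Subgroup.zpowers_le]
    exact a.2

theorem nice_freeGroup (n : ℕ) (hn : 2 ≤ n) : Nice (FreeGroup (Fin n)) := by
  classical
  refine ⟨?_, ?_, ?_, fun A hA => FreeNice_cyclic A hA⟩
  · rw [Group.fg_iff]
    exact ⟨Set.range FreeGroup.of, FreeGroup.closure_range_of _, Set.finite_range _⟩
  · intro x hx
    refine ⟨FreeGroup.map (fun i : Fin n => (i : ℕ)), fun h => hx ?_⟩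
    have hn0 : 0 < n := by omega
    have h1 := congrArg (FreeGroup.map (fun k : ℕ => (⟨k % n, Nat.mod_lt _ hn0⟩ : Fin n))) h
    rw [map_one, FreeGroup.map.comp] at h1
    have h2 : ((fun k : ℕ => (⟨k % n, Nat.mod_lt _ hn0⟩ : Fin n)) ∘ fun i : Fin n => (i : ℕ)) = id := by
      funext i
      apply Fin.ext
      simp [Nat.mod_eq_of_lt i.2]
    rw [h2, FreeGroup.map.id] at h1
    exact h1
  · intro x hx
    by_contra hne
    have key : ∀ z : FreeGroup (Fin n), ∃ u : FreeGroup (Fin n), ∃ a b : ℤ, x = u ^ a ∧ z = u ^ b := by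
      intro z
      obtain ⟨u, hu⟩ := FreeNice_cyclic (Subgroup.closure {x, z}) (by
        intro p hp q hq
        have h1 : ∀ p ∈ ({x, z} : Set (FreeGroup (Fin n))), ∀ q ∈ ({x, z} : Set (FreeGroup (Fin n))),
            p * q = q * p := by
          rintro p (rfl | rfl) q (rfl | rfl)
          · rfl
          · exact hx _
          · exact (hx _).symm
          · rfl
        have h2 := Subgroup.isMulCommutative_closure h1
        have h3 := h2.is_comm.comm (⟨p, hp⟩ : Subgroup.closure {x, z}) ⟨q, hq⟩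
        exact congrArg Subtype.val h3)
      have hxu : x ∈ Subgroup.zpowers u := by
        rw [← hu]; exact Subgroup.subset_closure (by simp)
      have hzu : z ∈ Subgroup.zpowers u := by
        rw [← hu]; exact Subgroup.subset_closure (by simp)
      obtain ⟨a, ha⟩ := hxu
      obtain ⟨b, hb⟩ := hzu
      exact ⟨u, a, b, ha.symm, hb.symm⟩
    obtain ⟨u, a, b, hxa, hib⟩ := key (FreeGroup.of ⟨0, by omega⟩)
    obtain ⟨v, c, d, hxc, hjd⟩ := key (FreeGroup.of ⟨1, by omega⟩)
    have ha : a ≠ 0 := by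
      rintro rfl
      exact hne (by rw [hxa, zpow_zero])
    have h4 : v * u * v⁻¹ = u := by
      apply zpow_left_injective ha
      show (v * u * v⁻¹) ^ a = u ^ a
      rw [conj_zpow, ← hxa, hxc]
      group
    have h5 : Commute v u := mul_inv_eq_iff_eq_mul.1 h4
    have h6 : Commute (u ^ b) (v ^ d) := (h5.symm.zpow_left b).zpow_right d
    refine FreeNice_ne (⟨0, by omega⟩ : Fin n) ⟨1, by omega⟩ (by simp) ?_
    rw [hib, hjd]
    exact h6.eq

end Pool.Agent.PHI
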