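import Pool.Agent.PHI.ClsMain

/-!
# Good: closure properties of the class of groups with the strong nilpotency property
-/

namespace Pool.Agent.PHI

universe u

/-- The smallest class of groups which contains the trivial groups and is closed under extensions with `Nice`
kernel, central extensions which are virtually residually `p` for every prime `p`, direct products of two groups,
passing to finite index overgroups and passing to subgroups. -/
inductive Tower : (Γ : Type u) → [Group Γ] → Prop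
  | triv (Γ : Type u) [Group Γ] (h : ∀ x : Γ, x = 1) : Tower Γ
  | nice (Γ : Type u) [Group Γ] (P : Subgroup Γ) [P.Normal] (hP : Nice P)
      (h : Tower (Γ ⧸ P)) : Tower Γ
  | central (Γ : Type u) [Group Γ] (Z : Subgroup Γ) [Z.Normal] (hZ : Z ≤ Subgroup.center Γ)
      (hres : ∀ p : ℕ, p.Prime → VirtResP p Γ) (h : Tower (Γ ⧸ Z)) : Tower Γ
  | prod (Γ Γ' : Type u) [Group Γ] [Group Γ'] (h : Tower Γ) (h' : Tower Γ') : Tower (Γ × Γ')
  | fin (Γ : Type u) [Group Γ] (Γ₀ : Subgroup Γ) [Γ₀.FiniteIndex] (h : Tower Γ₀) : Tower Γ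
  | sub (Γ Γ' : Type u) [Group Γ] [Group Γ'] (f : Γ →* Γ') (hf : Function.Injective f)
      (h : Tower Γ') : Tower Γ

theorem isNilpotent_of_central_image {Γ : Type u} [Group Γ] (Z : Subgroup Γ) [Z.Normal]
    (hZ : Z ≤ Subgroup.center Γ) (G : Subgroup Γ) (N : Subgroup G)
    (h1 : Group.IsNilpotent ((N.map G.subtype).map (QuotientGroup.mk' Z))) :
    Group.IsNilpotent N := by
  rw [Subgroup.map_map] at h1
  set f : G →* Γ ⧸ Z := (QuotientGroup.mk' Z).comp G.subtype with hf
  refine Subgroup.isNilpotent_of_ker_le_center (f.subgroupMap N) ?_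
  intro x hx
  rw [MonoidHom.mem_ker] at hx
  have h2 : f (x : G) = 1 := congrArg Subtype.val hx
  have h3 : ((x : G) : Γ) ∈ Z := by
    have : (QuotientGroup.mk' Z) ((x : G) : Γ) = 1 := h2
    rwa [← MonoidHom.mem_ker, QuotientGroup.ker_mk'] at this
  rw [Subgroup.mem_center_iff]
  intro y
  apply Subtype.ext
  apply Subtype.ext
  have h4 := (Subgroup.mem_center_iff.1 (hZ h3)) ((y : G) : Γ)
  exact h4

theorem strong_of_central {Γ : Type u} [Group Γ] (Z : Subgroup Γ) [Z.Normal]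
    (hZ : Z ≤ Subgroup.center Γ) (h : Strong (Γ ⧸ Z)) : Strong Γ :=
  fun G N hN => isNilpotent_of_central_image Z hZ G N
    (strong_image (QuotientGroup.mk' Z) h G N hN)

theorem strong_prod {Γ Γ' : Type u} [Group Γ] [Group Γ'] (h : Strong Γ) (h' : Strong Γ') :
    Strong (Γ × Γ') := by
  intro G N hN
  have h1 := strong_image (MonoidHom.fst Γ Γ') h G N hN
  have h2 := strong_image (MonoidHom.snd Γ Γ') h' G N hN
  set A := (N.map G.subtype).map (MonoidHom.fst Γ Γ') with hA
  set B := (N.map G.subtype).map (MonoidHom.snd Γ Γ') with hB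
  have h3 : Group.IsNilpotent (A × B) := inferInstance
  let f : N →* A × B :=
    { toFun := fun x => (⟨((x : G) : Γ × Γ').1, ⟨((x : G) : Γ × Γ'), ⟨x, x.2, rfl⟩, rfl⟩⟩,
        ⟨((x : G) : Γ × Γ').2, ⟨((x : G) : Γ × Γ'), ⟨x, x.2, rfl⟩, rfl⟩⟩)
      map_one' := rfl
      map_mul' := fun _ _ => rfl }
  refine Subgroup.isNilpotent_of_ker_le_center f ?_
  intro x hx
  rw [MonoidHom.mem_ker] at hx
  have e1 : ((x : G) : Γ × Γ').1 = 1 := congrArg (fun z : A × B => (z.1 : Γ)) hx
  have e2 : ((x : G) : Γ × Γ').2 = 1 := congrArg (fun z : A × B => (z.2 : Γ')) hx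
  have e3 : x = 1 := by
    apply Subtype.ext
    apply Subtype.ext
    exact Prod.ext e1 e2
  rw [e3]
  exact Subgroup.one_mem _

theorem Tower.main {Γ : Type u} [Group Γ] (h : Tower Γ) :
    Strong Γ ∧ ∀ p : ℕ, p.Prime → VirtResP p Γ := by
  induction h with
  | triv Γ h => exact ⟨strong_of_trivial h, fun p _ => virtResP_of_trivial p h⟩
  | nice Γ P hP _ ih =>
    exact ⟨strong_of_nice P hP ih.1, fun p hp => VirtResP.of_nice hp P hP (ih.2 p hp)⟩
  | central Γ Z hZ hres _ ih => exact ⟨strong_of_central Z hZ ih.1, hres⟩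
  | prod Γ Γ' _ _ ih ih' =>
    exact ⟨strong_prod ih.1 ih'.1, fun p hp => VirtResP.prod hp (ih.2 p hp) (ih'.2 p hp)⟩
  | fin Γ Γ₀ _ ih =>
    have h1 : ∀ p : ℕ, p.Prime → VirtResP p Γ := fun p hp => VirtResP.of_finiteIndex Γ₀ (ih.2 p hp)
    exact ⟨strong_of_finiteIndex Γ₀ ih.1 h1, h1⟩
  | sub Γ Γ' f hf _ ih =>
    exact ⟨strong_of_injective f hf ih.1, fun p hp => VirtResP.of_injective hp f hf (ih.2 p hp)⟩

theorem mainTower {Γ : Type u} [Group Γ] (Z : Subgroup Γ) [Z.Normal]
    (hZ : Z ≤ Subgroup.center Γ) (h : Tower (Γ ⧸ Z)) (G : Subgroup Γ) :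
    Group.IsNilpotent (PhiF G) :=
  strong_of_central Z hZ h.main.1 G (PhiF G) (fn_phiF G)

end Pool.Agent.PHI
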