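import Mathlib

/-!
# LinA: the determinant trick

Let `F` be a field with `ℓ ≠ 0` in `F`, `n < ℓ`, `x, y` invertible `n × n` matrices with
`x y = z (y x)`, `z` commuting with `x` and `y`, and `z^(ℓ^k) = 1`.  Then `z = 1`.

PROOF.  Pass to `E = AlgebraicClosure F` and to linear maps `X, Y, Z` of `V = Fin n → E`.
Put `N = ℓ^k`, `G = Σ_{i<N} Z^i`, so `G (Z - 1) = 0`.  If `Z ≠ 1` then `ker G ≠ 0`, so `ker G`
contains an eigenvector of `Z` with eigenvalue `ζ`, `Σ_{i<N} ζ^i = 0`, so `ζ ≠ 1`, `ζ^N = 1`.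
Let `W` be the eigenspace of `Z` for `ζ`, `d = finrank E W`, `0 < d ≤ n < ℓ`.  `W` is invariant
under `X` and `Y`.  On `W` we have `X_W Y_W = ζ • (Y_W X_W)`.  Determinants give `ζ^d = 1`, and since
`gcd(d, ℓ^k) = 1` we get `ζ = 1`, a contradiction.
-/

namespace Pool.Agent.PHI

theorem LinA_eigen {E V : Type*} [Field E] [AddCommGroup V] [Module E V] [FiniteDimensional E V]
    {ℓ k : ℕ} (hℓ : ℓ.Prime) (hn : Module.finrank E V < ℓ) (X Y Z : Module.End E V)
    (hX : IsUnit X) (hY : IsUnit Y) (hXY : X * Y = Z * (Y * X)) (hZX : Z * X = X * Z)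
    (hZY : Z * Y = Y * Z) (ζ : E) (v : V) (hv : v ≠ 0) (hZv : Z v = ζ • v)
    (hζ : ζ ^ (ℓ ^ k) = 1) : ζ = 1 := by
  classical
  set W := Module.End.eigenspace Z ζ with hW
  have hmem : ∀ w, w ∈ W ↔ Z w = ζ • w := fun w => Module.End.mem_eigenspace_iff
  have hXW : ∀ w ∈ W, X w ∈ W := by
    intro w hw
    rw [hmem] at hw ⊢
    have : Z (X w) = X (Z w) := by
      have := LinearMap.congr_fun hZX w
      simpa using this
    rw [this, hw, map_smul]
  have hYW : ∀ w ∈ W, Y w ∈ W := by
    intro w hw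
    rw [hmem] at hw ⊢
    have : Z (Y w) = Y (Z w) := by
      have := LinearMap.congr_fun hZY w
      simpa using this
    rw [this, hw, map_smul]
  have hXi : Function.Injective X := ((Module.End.isUnit_iff X).1 hX).1
  have hYi : Function.Injective Y := ((Module.End.isUnit_iff Y).1 hY).1
  have hdX : LinearMap.det (X.restrict hXW) ≠ 0 := by
    intro h0
    have h1 := LinearMap.bot_lt_ker_of_det_eq_zero h0
    apply h1.ne'
    rw [LinearMap.ker_eq_bot]
    intro a b hab
    apply Subtype.ext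
    apply hXi
    exact congrArg Subtype.val hab
  have hdY : LinearMap.det (Y.restrict hYW) ≠ 0 := by
    intro h0
    have h1 := LinearMap.bot_lt_ker_of_det_eq_zero h0
    apply h1.ne'
    rw [LinearMap.ker_eq_bot]
    intro a b hab
    apply Subtype.ext
    apply hYi
    exact congrArg Subtype.val hab
  have hcomp : (X.restrict hXW) ∘ₗ (Y.restrict hYW) = ζ • ((Y.restrict hYW) ∘ₗ (X.restrict hXW)) := by
    ext w
    have h1 := LinearMap.congr_fun hXY w.1
    have h2 := (hmem _).1 (hYW _ (hXW _ w.2))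
    simp only [Module.End.mul_apply] at h1
    rw [h2] at h1
    simpa using h1
  have hdet := congrArg LinearMap.det hcomp
  rw [LinearMap.det_comp, LinearMap.det_smul, LinearMap.det_comp] at hdet
  have hζd : ζ ^ (Module.finrank E W) = 1 := by
    have h1 : (ζ ^ (Module.finrank E W) - 1) *
        (LinearMap.det (X.restrict hXW) * LinearMap.det (Y.restrict hYW)) = 0 := by
      linear_combination -hdet
    rcases mul_eq_zero.1 h1 with h2 | h2
    · exact sub_eq_zero.1 h2
    · exact absurd h2 (mul_ne_zero hdX hdY)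
  have hd0 : 0 < Module.finrank E W := by
    rw [Module.finrank_pos_iff]
    exact ⟨⟨⟨v, (hmem v).2 hZv⟩, 0, fun h => hv (congrArg Subtype.val h)⟩⟩
  have hdℓ : Module.finrank E W < ℓ := lt_of_le_of_lt (Submodule.finrank_le W) hn
  have hcop : Nat.Coprime (Module.finrank E W) (ℓ ^ k) := by
    apply Nat.Coprime.pow_right
    rw [Nat.coprime_comm, Nat.Prime.coprime_iff_not_dvd hℓ]
    intro hdvd
    exact absurd (Nat.le_of_dvd hd0 hdvd) (not_le.2 hdℓ)
  have h1 : orderOf ζ ∣ Nat.gcd (Module.finrank E W) (ℓ ^ k) :=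
    Nat.dvd_gcd (orderOf_dvd_of_pow_eq_one hζd) (orderOf_dvd_of_pow_eq_one hζ)
  rw [hcop] at h1
  exact orderOf_eq_one_iff.1 (Nat.dvd_one.1 h1)

theorem LinA_end {E V : Type*} [Field E] [IsAlgClosed E] [AddCommGroup V] [Module E V]
    [FiniteDimensional E V] {ℓ k : ℕ} (hℓ : ℓ.Prime) (hn : Module.finrank E V < ℓ)
    (hE : (ℓ : E) ≠ 0) (X Y Z : Module.End E V)
    (hX : IsUnit X) (hY : IsUnit Y) (hXY : X * Y = Z * (Y * X)) (hZX : Z * X = X * Z)
    (hZY : Z * Y = Y * Z) (hZ : Z ^ (ℓ ^ k) = 1) : Z = 1 := by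
  classical
  by_contra hne
  set G : Module.End E V := ∑ i ∈ Finset.range (ℓ ^ k), Z ^ i with hG
  have hGZ : G * (Z - 1) = 0 := by
    rw [hG, geom_sum_mul, hZ, sub_self]
  have hcomm : G * Z = Z * G := by
    rw [hG, Finset.sum_mul, Finset.mul_sum]
    exact Finset.sum_congr rfl fun i _ => by rw [← pow_succ, ← pow_succ']
  have hker : LinearMap.ker G ≠ ⊥ := by
    intro h0
    apply hne
    rw [LinearMap.ker_eq_bot] at h0
    ext v
    have h1 := LinearMap.congr_fun hGZ v
    have h2 : G ((Z - 1) v) = G 0 := by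
      rw [map_zero]
      exact h1
    have h3 := h0 h2
    rw [LinearMap.sub_apply, sub_eq_zero] at h3
    exact h3
  have hinv : ∀ w ∈ LinearMap.ker G, Z w ∈ LinearMap.ker G := by
    intro w hw
    rw [LinearMap.mem_ker] at hw ⊢
    have h1 := LinearMap.congr_fun hcomm w
    simp only [Module.End.mul_apply] at h1
    rw [h1, hw, map_zero]
  have : Nontrivial (LinearMap.ker G) := Submodule.nontrivial_iff_ne_bot.2 hker
  obtain ⟨ζ, hζ⟩ := Module.End.exists_eigenvalue (K := E) (Z.restrict hinv)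
  obtain ⟨w, hw⟩ := hζ.exists_hasEigenvector
  have hw1 : Z w.1 = ζ • w.1 := by
    have := congrArg Subtype.val hw.apply_eq_smul
    simpa using this
  have hw0 : w.1 ≠ 0 := fun h => hw.2 (Subtype.ext h)
  have hpow : ∀ i : ℕ, (Z ^ i) w.1 = ζ ^ i • w.1 := by
    intro i
    induction i with
    | zero => simp
    | succ i ih =>
      rw [pow_succ', Module.End.mul_apply, ih, map_smul, hw1, smul_smul, pow_succ]
  have hsum : ∑ i ∈ Finset.range (ℓ ^ k), ζ ^ i = 0 := by
    have h1 : (∑ i ∈ Finset.range (ℓ ^ k), (Z ^ i) w.1) = 0 := by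
      rw [← LinearMap.sum_apply]
      exact w.2
    rw [Finset.sum_congr rfl (fun i _ => hpow i), ← Finset.sum_smul] at h1
    exact (smul_eq_zero.1 h1).resolve_right hw0
  have hζN : ζ ^ (ℓ ^ k) = 1 := by
    have h1 := hpow (ℓ ^ k)
    rw [hZ] at h1
    have h2 : (ζ ^ (ℓ ^ k) - 1) • w.1 = 0 := by
      rw [sub_smul, one_smul, ← h1]
      simp
    exact sub_eq_zero.1 ((smul_eq_zero.1 h2).resolve_right hw0)
  have h1 := LinA_eigen hℓ hn X Y Z hX hY hXY hZX hZY ζ w.1 hw0 hw1 hζN
  rw [h1] at hsum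
  simp only [one_pow, Finset.sum_const, Finset.card_range, nsmul_eq_mul, mul_one] at hsum
  push_cast at hsum
  exact pow_ne_zero k hE hsum

theorem eq_one_of_twist {F : Type*} [Field F] {n ℓ k : ℕ} (hℓ : ℓ.Prime) (hn : n < ℓ)
    (hF : (ℓ : F) ≠ 0) (x y z : Matrix (Fin n) (Fin n) F) (hx : IsUnit x.det) (hy : IsUnit y.det)
    (hxy : x * y = z * (y * x)) (hzx : z * x = x * z) (hzy : z * y = y * z)
    (hz : z ^ (ℓ ^ k) = 1) : z = 1 := by
  classical
  set φ : F →+* AlgebraicClosure F := algebraMap F (AlgebraicClosure F) with hφ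
  have hinj : Function.Injective φ := φ.injective
  set T : Matrix (Fin n) (Fin n) F →+* Module.End (AlgebraicClosure F) (Fin n → AlgebraicClosure F) :=
    (Matrix.toLinAlgEquiv' : Matrix (Fin n) (Fin n) (AlgebraicClosure F) ≃ₐ[AlgebraicClosure F] _
      ).toRingEquiv.toRingHom.comp φ.mapMatrix with hT
  have hTinj : Function.Injective T := by
    have h1 : Function.Injective (φ.mapMatrix : Matrix (Fin n) (Fin n) F →+* _) := by
      intro a b hab
      exact Matrix.map_injective hinj hab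
    exact (Matrix.toLinAlgEquiv' (R := AlgebraicClosure F) (n := Fin n)).injective.comp h1
  have h := LinA_end (k := k) hℓ (by simpa using hn) (by
      intro h0
      apply hF
      apply hinj
      rw [map_natCast, map_zero]
      exact h0) (T x) (T y) (T z)
      (((Matrix.isUnit_iff_isUnit_det x).2 hx).map T) (((Matrix.isUnit_iff_isUnit_det y).2 hy).map T)
      (by rw [← map_mul, ← map_mul, ← map_mul, hxy]) (by rw [← map_mul, ← map_mul, hzx])
      (by rw [← map_mul, ← map_mul, hzy]) (by rw [← map_pow, hz, map_one])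
  apply hTinj
  rw [h, map_one]

end Pool.Agent.PHI
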