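import Mathlib

/-!
# RepA: the integral matrix representation of the automorphism group of a f.g. abelian group

PROOF.  `V = A ⧸ Submodule.torsion ℤ A` is a finitely generated torsion-free, hence free `ℤ`-module
(`Module.free_of_finite_type_torsion_free'`, instance), with a basis `b` indexed by `Fin n`
(`Module.finBasis ℤ V`).  A `ℤ`-linear automorphism `e` of `A` preserves the torsion and induces a linear
automorphism of `V` (`Submodule.mapQ`), functorially; `σ e` is its matrix (`LinearMap.toMatrixAlgEquiv b`), a unit since `e` is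
invertible: build the monoid hom `(A ≃ₗ[ℤ] A) →* Matrix (Fin n) (Fin n) ℤ` and use `MonoidHom.toHomUnits`.
Eigenvalues: let `e_ℂ` = base change of `e`.  The surjection `p : A → V` gives
`p_ℂ : ℂ ⊗ A → ℂ ⊗ V`, which is injective: the kernel is the image of `ℂ ⊗ torsion` (right exactness of
the tensor product, `lTensor_exact`) and every `c ⊗ t` with `k t = 0`, `k ≠ 0` equals `(c/k) ⊗ (k t) = 0`.  It intertwines
`e_ℂ` and `(e_V)_ℂ`.  So an eigenvector of `e_ℂ` for `μ` gives one of `(e_V)_ℂ`, and `μ` is a root of the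
characteristic polynomial of `(e_V)_ℂ` (`Module.End.hasEigenvalue_iff_isRoot_charpoly` or similar), which is
`(e_V).charpoly` mapped to `ℂ` (`LinearMap.charpoly_baseChange`) `= (σ e).charpoly` mapped
(`LinearMap.charpoly_toMatrix`, `Matrix.charpoly_map`).
-/

namespace Pool.Agent.PHI

open scoped TensorProduct
open Matrix

theorem RepA_tors_le {A : Type*} [AddCommGroup A] (e : A →ₗ[ℤ] A) :
    Submodule.torsion ℤ A ≤ (Submodule.torsion ℤ A).comap e := by
  intro x hx
  obtain ⟨a, ha⟩ := hx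
  refine ⟨a, ?_⟩
  have h := congrArg e ha
  rw [map_zero] at h
  rw [← h]
  exact (e.map_smul (a : ℤ) x).symm

/-- the induced endomorphism of the quotient by the torsion -/
noncomputable def RepA_q {A : Type*} [AddCommGroup A] (e : A →ₗ[ℤ] A) :
    (A ⧸ Submodule.torsion ℤ A) →ₗ[ℤ] (A ⧸ Submodule.torsion ℤ A) :=
  (Submodule.torsion ℤ A).mapQ (Submodule.torsion ℤ A) e (RepA_tors_le e)

/-- the action on the quotient by the torsion as a monoid hom -/
noncomputable def RepA_hom (A : Type*) [AddCommGroup A] :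
    (A ≃ₗ[ℤ] A) →* Module.End ℤ (A ⧸ Submodule.torsion ℤ A) where
  toFun e := RepA_q (e : A →ₗ[ℤ] A)
  map_one' := by
    ext x
    rfl
  map_mul' e e' := by
    ext x
    rfl

theorem RepA_tors_zero {A : Type*} [AddCommGroup A]
    (y : ℂ ⊗[ℤ] (Submodule.torsion ℤ A)) : y = 0 := by
  induction y using TensorProduct.induction_on with
  | zero => rfl
  | tmul c t =>
    obtain ⟨a, ha⟩ := t.2
    have ha0 : ((a : ℤ) : ℂ) ≠ 0 := by
      have := nonZeroDivisors.ne_zero a.2
      exact_mod_cast this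
    have h1 : (a : ℤ) • t = 0 := Subtype.ext ha
    have h2 : c = (a : ℤ) • (c / ((a : ℤ) : ℂ)) := by
      rw [zsmul_eq_mul, mul_div_cancel₀ _ ha0]
    rw [h2, TensorProduct.smul_tmul, h1, TensorProduct.tmul_zero]
  | add x y hx hy => rw [hx, hy, add_zero]

theorem RepA_inj {A : Type*} [AddCommGroup A] (v : ℂ ⊗[ℤ] A)
    (hv : ((Submodule.torsion ℤ A).mkQ.baseChange ℂ) v = 0) : v = 0 := by
  have hex : Function.Exact (Submodule.torsion ℤ A).subtype (Submodule.torsion ℤ A).mkQ := by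
    intro x
    simp
  have h := lTensor_exact ℂ hex (Submodule.mkQ_surjective _)
  have h1 : ((Submodule.torsion ℤ A).mkQ.lTensor ℂ) v = 0 := hv
  obtain ⟨y, hy⟩ := (h v).1 h1
  rw [← hy, RepA_tors_zero y, map_zero]

theorem exists_matrix_rep (A : Type*) [AddCommGroup A] [Module.Finite ℤ A] :
    ∃ (n : ℕ) (σ : (A ≃ₗ[ℤ] A) →* GL (Fin n) ℤ), ∀ (e : A ≃ₗ[ℤ] A) (μ : ℂ),
      Module.End.HasEigenvalue
        ((e : A →ₗ[ℤ] A).baseChange ℂ : (ℂ ⊗[ℤ] A) →ₗ[ℂ] (ℂ ⊗[ℤ] A)) μ →
      ((σ e).val.map (Int.castRingHom ℂ)).charpoly.IsRoot μ := by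
  let V := A ⧸ Submodule.torsion ℤ A
  have : Module.Free ℤ V := Module.free_of_finite_type_torsion_free'
  let b := Module.finBasis ℤ V
  refine ⟨Module.finrank ℤ V, (((LinearMap.toMatrixAlgEquiv b).toAlgHom : _ →* _).comp
    (RepA_hom A)).toHomUnits, ?_⟩
  intro e μ he
  obtain ⟨v, hv⟩ := he.exists_hasEigenvector
  have h1 := hv.apply_eq_smul
  have h2 : ((RepA_q (e : A →ₗ[ℤ] A)).baseChange ℂ) (((Submodule.torsion ℤ A).mkQ.baseChange ℂ) v)
      = μ • (((Submodule.torsion ℤ A).mkQ.baseChange ℂ) v) := by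
    rw [← LinearMap.map_smul, ← h1]
    have h3 : (RepA_q (e : A →ₗ[ℤ] A)).comp (Submodule.torsion ℤ A).mkQ =
        (Submodule.torsion ℤ A).mkQ.comp (e : A →ₗ[ℤ] A) := by
      ext x
      rfl
    have h4 := congrArg (LinearMap.baseChange ℂ) h3
    rw [LinearMap.baseChange_comp, LinearMap.baseChange_comp] at h4
    exact LinearMap.congr_fun h4 v
  have h3 : Module.End.HasEigenvalue ((RepA_q (e : A →ₗ[ℤ] A)).baseChange ℂ) μ := by
    refine Module.End.hasEigenvalue_of_hasEigenvector (x := ((Submodule.torsion ℤ A).mkQ.baseChange ℂ) v) ?_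
    refine ⟨Module.End.mem_eigenspace_iff.2 h2, ?_⟩
    intro h0
    exact hv.2 (RepA_inj v h0)
  rw [Module.End.hasEigenvalue_iff_isRoot_charpoly, LinearMap.charpoly_baseChange] at h3
  have h5 : (((((LinearMap.toMatrixAlgEquiv b).toAlgHom : _ →* _).comp
    (RepA_hom A)).toHomUnits e).val : Matrix _ _ ℤ) = LinearMap.toMatrix b b (RepA_q (e : A →ₗ[ℤ] A)) := rfl
  rw [h5, Matrix.charpoly_map, LinearMap.charpoly_toMatrix]
  exact h3

end Pool.Agent.PHI
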