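import Pool.Agent.PHI.Defs
import Pool.Agent.PHI.RepA

/-!
# RepB: the representation of `Aut π` on `H_1(L)` for a characteristic subgroup `L`

PROOF.  `L` is finitely generated (`Subgroup.fg_of_index_ne_zero`), so `A = Additive (Abelianization L)` is a
finite `ℤ`-module.  For `φ : MulAut π`, `φ` restricts to an automorphism of `L` (`L` is characteristic:
`Subgroup.Characteristic`, e.g. `MulEquiv.subgroupMap` plus `Subgroup.characteristic_iff_map_eq`, or take the restrictions
`restr φ L _` and `restr φ⁻¹ L _` as mutually inverse homs) and so induces an automorphism of `A`; this gives a monoid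
hom `α : MulAut π →* (A ≃ₗ[ℤ] A)` with `(α φ) (ofMul (of x)) = ofMul (of ⟨φ x, _⟩)`.  Let `σ` be the hom of `exists_matrix_rep` and
`ρ = σ.comp α`.  For `g ∈ L`, conjugation by `g` acts trivially on the abelianization of `L`, so `α (conj g) = 1`.
`((α φ : A →ₗ[ℤ] A)).baseChange ℂ = H1 φ L h` (both are the base change of the same map:
check on generators `Abelianization.of x`).
-/

namespace Pool.Agent.PHI

open Matrix

theorem RepB_finite {π : Type*} [Group π] [Group.FG π] (K : Subgroup π) [K.FiniteIndex] :
    Module.Finite ℤ (Additive (Abelianization K)) := by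
  have h2 : Group.FG (Abelianization K) := inferInstanceAs (Group.FG (K ⧸ commutator K))
  rw [Module.Finite.iff_addGroup_fg]
  exact inferInstance

theorem RepB_char {π : Type*} [Group π] (L : Subgroup π) [hL : L.Characteristic] (φ : MulAut π) :
    ∀ x ∈ L, φ x ∈ L := by
  intro x hx
  have h1 := hL.fixed φ
  rw [← h1] at hx
  exact hx

/-- the action of an automorphism on the abelianization of `L` -/
noncomputable def RepB_act {π : Type*} [Group π] (L : Subgroup π) [L.Characteristic] (φ : MulAut π) :
    Additive (Abelianization L) →ₗ[ℤ] Additive (Abelianization L) :=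
  (MonoidHom.toAdditive (Abelianization.map (restr φ L (RepB_char L φ)))).toIntLinearMap

theorem RepB_act_of {π : Type*} [Group π] (L : Subgroup π) [L.Characteristic] (φ : MulAut π)
    (x : L) : RepB_act L φ (Additive.ofMul (Abelianization.of x)) =
      Additive.ofMul (Abelianization.of (⟨φ x.1, RepB_char L φ x.1 x.2⟩ : L)) := rfl

theorem RepB_ext {π : Type*} [Group π] (L : Subgroup π)
    (f g : Additive (Abelianization L) →ₗ[ℤ] Additive (Abelianization L))
    (h : ∀ x : L, f (Additive.ofMul (Abelianization.of x)) =
      g (Additive.ofMul (Abelianization.of x))) : f = g := by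
  apply LinearMap.ext
  intro a
  obtain ⟨x, hx⟩ : ∃ x : L, Additive.ofMul (Abelianization.of x) = a := by
    obtain ⟨x, hx⟩ := QuotientGroup.mk_surjective (Additive.toMul a)
    exact ⟨x, congrArg Additive.ofMul hx⟩
  rw [← hx]
  exact h x

/-- the action as a homomorphism -/
noncomputable def RepB_hom {π : Type*} [Group π] (L : Subgroup π) [L.Characteristic] :
    MulAut π →* Module.End ℤ (Additive (Abelianization L)) where
  toFun := RepB_act L
  map_one' := by
    apply RepB_ext
    intro x
    rfl
  map_mul' := by
    intro φ ψ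
    apply RepB_ext
    intro x
    rfl

/-- the action as a homomorphism to the group of linear automorphisms -/
noncomputable def RepB_equiv {π : Type*} [Group π] (L : Subgroup π) [L.Characteristic] :
    MulAut π →* (Additive (Abelianization L) ≃ₗ[ℤ] Additive (Abelianization L)) :=
  (LinearMap.GeneralLinearGroup.generalLinearEquiv ℤ (Additive (Abelianization L))).toMonoidHom.comp
    (MonoidHom.toHomUnits (RepB_hom L))

theorem RepB_equiv_coe {π : Type*} [Group π] (L : Subgroup π) [L.Characteristic] (φ : MulAut π) :
    ((RepB_equiv L φ : Additive (Abelianization L) ≃ₗ[ℤ] Additive (Abelianization L)) :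
      Additive (Abelianization L) →ₗ[ℤ] Additive (Abelianization L)) = RepB_act L φ := by
  apply RepB_ext
  intro x
  rfl

theorem exists_rep {π : Type*} [Group π] [Group.FG π] (L : Subgroup π) [L.Characteristic]
    [L.FiniteIndex] : ∃ (n : ℕ) (ρ : MulAut π →* GL (Fin n) ℤ),
      (∀ g ∈ L, ρ (MulAut.conj g) = 1) ∧
      ∀ (φ : MulAut π) (h : ∀ x ∈ L, φ x ∈ L) (μ : ℂ),
        Module.End.HasEigenvalue (H1 φ L h) μ →
        ((ρ φ).val.map (Int.castRingHom ℂ)).charpoly.IsRoot μ := by
  have hfin := RepB_finite L
  obtain ⟨n, σ, hσ⟩ := exists_matrix_rep (Additive (Abelianization L))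
  refine ⟨n, σ.comp (RepB_equiv L), ?_, ?_⟩
  · intro g hg
    have h1 : RepB_equiv L (MulAut.conj g) = 1 := by
      apply LinearEquiv.toLinearMap_injective
      rw [RepB_equiv_coe]
      apply RepB_ext
      intro x
      rw [RepB_act_of]
      show Additive.ofMul (Abelianization.of _) = Additive.ofMul (Abelianization.of x)
      congr 1
      have h2 : (⟨(MulAut.conj g) x.1, RepB_char L (MulAut.conj g) x.1 x.2⟩ : L) =
          ⟨g, hg⟩ * x * ⟨g, hg⟩⁻¹ := by
        apply Subtype.ext
        simp
      rw [h2, map_mul, map_mul, map_inv, mul_comm (Abelianization.of (⟨g, hg⟩ : L)),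
        mul_inv_cancel_right]
    rw [MonoidHom.comp_apply, h1, map_one]
  · intro φ h μ hμ
    apply hσ (RepB_equiv L φ) μ
    have h3 : ((RepB_equiv L φ : Additive (Abelianization L) →ₗ[ℤ] Additive (Abelianization L)).baseChange ℂ) =
        H1 φ L h := by
      rw [RepB_equiv_coe]
      rfl
    rw [h3]
    exact hμ

end Pool.Agent.PHI
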