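import Pool.Agent.PHI.Defs

/-!
# Trans: eigenvalues on `H_1(K)` are eigenvalues on `H_1(L)` for `L ≤ K` of finite index

PROOF.  Let `j : Abelianization L → Abelianization K` be induced by the inclusion (`Subgroup.inclusion`,
`Abelianization.map`) and `J : ℂ ⊗ L^ab → ℂ ⊗ K^ab` its base change.
(1) `J` is surjective: let `m = L.index > 0`; `L` is normal so `x^m ∈ L` for `x : π` (`Subgroup.pow_index_mem`).
For `x ∈ K`: `c ⊗ [x] = (c/m) ⊗ [x^m] = J ((c/m) ⊗ [x^m])`.
(2) `J ∘ H1 φ L = H1 φ K ∘ J` (check on generators; `TensorProduct.AlgebraTensorModule.ext` / `LinearMap.baseChange_comp` and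
equality of the group homs).
(3) `ℂ ⊗ L^ab` and `ℂ ⊗ K^ab` are finite dimensional (`L`, `K` are finitely generated by Schreier:
`Subgroup.fg_of_index_ne_zero`; `Module.Finite ℤ (Additive (Abelianization L))`, `Module.Finite.base_change`).
If `μ` is not an eigenvalue of `H1 φ L`, then `H1 φ L - μ` is injective, hence surjective (finite dimension,
`LinearMap.injective_iff_surjective`), so
`(H1 φ K - μ) ∘ J = J ∘ (H1 φ L - μ)` is surjective, `H1 φ K - μ` is surjective, hence injective, and `μ` is not
an eigenvalue of `H1 φ K`.  (`Module.End.hasEigenvalue_iff`, eigenspace = kernel of `f - μ`.)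
-/

namespace Pool.Agent.PHI

open scoped TensorProduct

theorem Trans_finite {π : Type*} [Group π] [Group.FG π] (K : Subgroup π) [K.FiniteIndex] :
    Module.Finite ℤ (Additive (Abelianization K)) := by
  have h2 : Group.FG (Abelianization K) := inferInstanceAs (Group.FG (K ⧸ commutator K))
  rw [Module.Finite.iff_addGroup_fg]
  exact inferInstance

theorem Trans_surj {π : Type*} [Group π] (K L : Subgroup π)
    (hLK : L ≤ K) [L.Normal] [L.FiniteIndex] :
    Function.Surjective ((MonoidHom.toAdditive (Abelianization.map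
      (Subgroup.inclusion hLK))).toIntLinearMap.baseChange ℂ) := by
  intro z
  induction z using TensorProduct.induction_on with
  | zero => exact ⟨0, by simp⟩
  | tmul c a =>
    obtain ⟨x, hx⟩ : ∃ x : K, Additive.ofMul (Abelianization.of x) = a := by
      obtain ⟨x, hx⟩ := QuotientGroup.mk_surjective (Additive.toMul a)
      exact ⟨x, congrArg Additive.ofMul hx⟩
    have hm : (L.index : ℂ) ≠ 0 := by
      exact_mod_cast Subgroup.FiniteIndex.index_ne_zero
    refine ⟨(c / L.index) ⊗ₜ Additive.ofMul (Abelianization.of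
      ⟨(x : π) ^ L.index, L.pow_index_mem x.1⟩), ?_⟩
    rw [LinearMap.baseChange_tmul]
    have h1 : (MonoidHom.toAdditive (Abelianization.map (Subgroup.inclusion hLK))).toIntLinearMap
        (Additive.ofMul (Abelianization.of (⟨(x : π) ^ L.index, L.pow_index_mem x.1⟩ : L))) =
        (L.index : ℤ) • a := by
      rw [← hx]
      show Additive.ofMul (Abelianization.map (Subgroup.inclusion hLK)
        (Abelianization.of (⟨(x : π) ^ L.index, L.pow_index_mem x.1⟩ : L))) = _
      rw [Abelianization.map_of]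
      have h2 : Subgroup.inclusion hLK (⟨(x : π) ^ L.index, L.pow_index_mem x.1⟩ : L) =
          x ^ L.index := by
        apply Subtype.ext
        simp
      rw [h2, map_pow, ofMul_pow]
      simp
    rw [h1, TensorProduct.tmul_smul, TensorProduct.smul_tmul']
    congr 1
    rw [zsmul_eq_mul]
    push_cast
    field_simp
  | add y z hy hz =>
    obtain ⟨a, ha⟩ := hy
    obtain ⟨b, hb⟩ := hz
    exact ⟨a + b, by rw [map_add, ha, hb]⟩

theorem Trans_comm {π : Type*} [Group π] (φ : MulAut π) (K L : Subgroup π)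
    (hLK : L ≤ K) (hK : ∀ x ∈ K, φ x ∈ K)
    (hL : ∀ x ∈ L, φ x ∈ L) :
    (H1 φ K hK) ∘ₗ ((MonoidHom.toAdditive (Abelianization.map
      (Subgroup.inclusion hLK))).toIntLinearMap.baseChange ℂ) =
    ((MonoidHom.toAdditive (Abelianization.map
      (Subgroup.inclusion hLK))).toIntLinearMap.baseChange ℂ) ∘ₗ (H1 φ L hL) := by
  unfold H1
  rw [← LinearMap.baseChange_comp, ← LinearMap.baseChange_comp]
  congr 1
  apply LinearMap.ext
  intro a
  obtain ⟨x, hx⟩ : ∃ x : L, Additive.ofMul (Abelianization.of x) = a := by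
    obtain ⟨x, hx⟩ := QuotientGroup.mk_surjective (Additive.toMul a)
    exact ⟨x, congrArg Additive.ofMul hx⟩
  rw [← hx]
  rfl

theorem hasEigenvalue_of_le {π : Type*} [Group π] [Group.FG π] (φ : MulAut π) (K L : Subgroup π)
    (hLK : L ≤ K) [L.Normal] [L.FiniteIndex] [K.FiniteIndex] (hK : ∀ x ∈ K, φ x ∈ K)
    (hL : ∀ x ∈ L, φ x ∈ L) (μ : ℂ) (h : Module.End.HasEigenvalue (H1 φ K hK) μ) :
    Module.End.HasEigenvalue (H1 φ L hL) μ := by
  have hfK := Trans_finite K
  have hfL := Trans_finite L
  have hJ := Trans_surj K L hLK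
  have hcomm := Trans_comm φ K L hLK hK hL
  set J := ((MonoidHom.toAdditive (Abelianization.map
      (Subgroup.inclusion hLK))).toIntLinearMap.baseChange ℂ) with hJdef
  rw [Module.End.hasEigenvalue_iff, Module.End.eigenspace_def] at h ⊢
  intro hcon
  apply h
  rw [LinearMap.ker_eq_bot] at hcon ⊢
  have h1 := LinearMap.injective_iff_surjective.1 hcon
  rw [LinearMap.injective_iff_surjective]
  intro z
  obtain ⟨y, hy⟩ := hJ z
  obtain ⟨x, hx⟩ := h1 y
  refine ⟨J x, ?_⟩
  have h2 : (H1 φ K hK) (J x) = J (H1 φ L hL x) := LinearMap.congr_fun hcomm x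
  rw [← hy, ← hx]
  simp only [LinearMap.sub_apply, LinearMap.smul_apply, Module.End.one_apply, map_sub, map_smul]
  rw [h2]

end Pool.Agent.PHI
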