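import Pool.Agent.PHI.FinB
import Pool.Agent.PHI.LemZ
import Pool.Agent.PHI.Core
import Pool.Agent.PHI.RepB
import Pool.Agent.PHI.Trans

/-!
# Main: elements of `[Φ_f(G), Φ_f(G)]` act on the homology of finite index subgroups with eigenvalues
roots of unity
-/

namespace Pool.Agent.PHI

open Matrix

theorem main {π G : Type*} [Group π] [Group.FG π] [Group G] (θ : G →* Out π)
    (x : G) (hx : x ∈ ⁅PhiF G, PhiF G⁆) (φ : MulAut π) (hφ : (φ : Out π) = θ x)
    (K : Subgroup π) [K.FiniteIndex] (hK : ∀ y ∈ K, φ y ∈ K) (μ : ℂ)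
    (hμ : Module.End.HasEigenvalue (H1 φ K hK) μ) : ∃ m : ℕ, 0 < m ∧ μ ^ m = 1 := by
  obtain ⟨L, hLK, hLc, hLf⟩ := exists_characteristic_le K
  have := hLc
  have := hLf
  have : L.Normal := Subgroup.normal_of_characteristic L
  have hL : ∀ y ∈ L, φ y ∈ L := by
    intro y hy
    have := Subgroup.characteristic_iff_comap_eq.1 hLc φ
    rw [← this] at hy
    exact hy
  have hμL := hasEigenvalue_of_le φ K L hLK hK hL μ hμ
  obtain ⟨n, ρ, hρ1, hρ⟩ := exists_rep L
  have hroot := hρ φ hL μ hμL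
  -- bound
  set C := max n L.index with hC
  refine exists_pow_eq_one_of_ordSmooth (ρ φ).val ?_ C ?_ hroot
  · have h1 : IsUnit (ρ φ).val.det := by
      rw [← Matrix.isUnit_iff_isUnit_det]
      exact (ρ φ).isUnit
    exact h1.ne_zero
  · intro p hp
    have : Fact p.Prime := ⟨hp⟩
    let σ : MulAut π →* GL (Fin n) (ZMod p) :=
      (Matrix.GeneralLinearGroup.map (Int.castRingHom (ZMod p))).comp ρ
    have hker : L ≤ (σ.comp (MulAut.conj : π →* MulAut π)).ker := by
      intro g hg
      rw [MonoidHom.mem_ker]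
      simp only [MonoidHom.comp_apply, σ, hρ1 g hg, map_one]
    have hcard : Nat.card (σ.comp (MulAut.conj : π →* MulAut π)).range ≤ C := by
      rw [← Subgroup.index_ker]
      exact le_trans (Nat.le_of_dvd (Nat.pos_of_ne_zero hLf.index_ne_zero)
        (Subgroup.index_dvd_of_le hker)) (le_max_right _ _)
    refine ⟨orderOf (σ φ), ?_, ?_⟩
    · have h1 : (σ φ) ^ orderOf (σ φ) = 1 := pow_orderOf_eq_one _
      have h2 := congrArg (fun u : GL (Fin n) (ZMod p) => (u : Matrix (Fin n) (Fin n) (ZMod p))) h1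
      simp only [Units.val_pow_eq_pow_val, Units.val_one] at h2
      exact h2
    · intro ℓ hℓ hℓC hne
      exact not_dvd_orderOf_rep θ σ C hcard (le_max_left _ _) x hx φ hφ hℓ hℓC hne

end Pool.Agent.PHI
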