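import Pool.Agent.PHI.Ext

/-!
# MainE: the extension theorem for chains of normal subgroups

PROOF.  Induction on `k`.  `k = 0`: `N 0 = ⊥`, `Γ ⧸ N 0 ≃* Γ`, and `PhiF` is transported by isomorphisms.
Step: let `Q = Γ ⧸ N k`, `P = (N (k+1)).map (mk' (N k))`, normal in `Q`, and `H = G.map (mk' (N k)) ≤ Q`.
`H.map (mk' P)` in `Q ⧸ P ≃* Γ ⧸ N (k+1)` (third isomorphism theorem) corresponds to `G.map (mk' (N (k+1)))`.  So
`PhiF (H.map (mk' P))` is nilpotent, `PhiF H` is nilpotent by `isNilpotent_of_nice` / `isNilpotent_of_central`, and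
the induction hypothesis applies.
-/

namespace Pool.Agent.PHI

/-- Nilpotency of `PhiF` is invariant under isomorphisms. -/
theorem MainE_transport {G Q : Type*} [Group G] [Group Q] (e : G ≃* Q)
    (h : Group.IsNilpotent (PhiF Q)) : Group.IsNilpotent (PhiF G) := by
  have hmem : ∀ x : PhiF G, (e.toMonoidHom.comp (PhiF G).subtype) x ∈ PhiF Q := fun x =>
    map_phiF_le e.toMonoidHom e.surjective ⟨x.1, x.2, rfl⟩
  let f : PhiF G →* PhiF Q := (e.toMonoidHom.comp (PhiF G).subtype).codRestrict (PhiF Q) hmem
  have hker : f.ker ≤ Subgroup.center (PhiF G) := by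
    intro x hx
    have h1 : f x = 1 := hx
    have h2 : e x.1 = 1 := congrArg Subtype.val h1
    have h3 : x = 1 := Subtype.ext (by simpa using h2)
    rw [h3]
    exact Subgroup.one_mem _
  exact Subgroup.isNilpotent_of_ker_le_center f hker

theorem mainE {Γ : Type*} [Group Γ] (N : ℕ → Subgroup Γ) [∀ i, (N i).Normal] (h0 : N 0 = ⊥)
    (hmono : Monotone N) (k : ℕ)
    (hstep : ∀ i < k, Nice ((N (i + 1)).map (QuotientGroup.mk' (N i))) ∨
      (N (i + 1)).map (QuotientGroup.mk' (N i)) ≤ Subgroup.center (Γ ⧸ N i))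
    (G : Subgroup Γ) (hG : Group.IsNilpotent (PhiF (G.map (QuotientGroup.mk' (N k))))) :
    Group.IsNilpotent (PhiF G) := by
  induction k with
  | zero =>
    have hinj : Function.Injective (QuotientGroup.mk' (N 0)) := by
      rw [← MonoidHom.ker_eq_bot_iff, QuotientGroup.ker_mk', h0]
    exact MainE_transport (G.equivMapOfInjective _ hinj) hG
  | succ k ih =>
    apply ih (fun i hi => hstep i (Nat.lt_succ_of_lt hi))
    have hle : N k ≤ N (k + 1) := hmono (Nat.le_succ k)
    let e := QuotientGroup.quotientQuotientEquivQuotient (N k) (N (k + 1)) hle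
    have heq : ((G.map (QuotientGroup.mk' (N k))).map
        (QuotientGroup.mk' ((N (k + 1)).map (QuotientGroup.mk' (N k))))).map e.toMonoidHom =
        G.map (QuotientGroup.mk' (N (k + 1))) := by
      rw [Subgroup.map_map, Subgroup.map_map]
      congr 1
    have hG' : Group.IsNilpotent (PhiF ((G.map (QuotientGroup.mk' (N k))).map
        (QuotientGroup.mk' ((N (k + 1)).map (QuotientGroup.mk' (N k)))))) := by
      refine MainE_transport (((G.map (QuotientGroup.mk' (N k))).map
        (QuotientGroup.mk' ((N (k + 1)).map (QuotientGroup.mk' (N k))))).equivMapOfInjective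
        e.toMonoidHom e.injective) ?_
      rw [heq]
      exact hG
    rcases hstep k (Nat.lt_succ_self k) with h | h
    · exact isNilpotent_of_nice _ h _ hG'
    · exact isNilpotent_of_central _ h _ hG'

end Pool.Agent.PHI
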