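import Pool.Agent.PHI.NilpM
import Pool.Agent.PHI.Elem
import Pool.Agent.PHI.NSyl
import Pool.Agent.PHI.LemZ

/-!
# QU: integral representations of `P` are quasi-unipotent on `[M, M]`, `M = Φ_f(G) ∩ P`
-/

namespace Pool.Agent.PHI

open Matrix

/-- Integral representations of `P` are quasi-unipotent on `⁅MM P G, MM P G⁆`. -/
theorem exists_pow_eq_one_of_mem_commutator {Γ : Type*} [Group Γ] (P : Subgroup Γ) [P.Normal]
    [Group.FG P] (G : Subgroup Γ) {n : ℕ} (η : P →* GL (Fin n) ℤ)
    (h : P) (hh : h ∈ ⁅MM P G, MM P G⁆) {μ : ℂ}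
    (hμ : ((η h).val.map (Int.castRingHom ℂ)).charpoly.IsRoot μ) :
    ∃ m : ℕ, 0 < m ∧ μ ^ m = 1 := by
  classical
  refine exists_pow_eq_one_of_ordSmooth (η h).val ?_ n ?_ hμ
  · have h1 : IsUnit (η h).val.det := by
      rw [← Matrix.isUnit_iff_isUnit_det]
      exact (η h).isUnit
    exact h1.ne_zero
  · intro p hp
    have : Fact p.Prime := ⟨hp⟩
    set ηp : P →* GL (Fin n) (ZMod p) :=
      (Matrix.GeneralLinearGroup.map (Int.castRingHom (ZMod p))).comp η with hηp
    refine ⟨orderOf (ηp h), ?_, ?_⟩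
    · have h1 : (ηp h) ^ orderOf (ηp h) = 1 := pow_orderOf_eq_one _
      have h2 := congrArg (fun u : GL (Fin n) (ZMod p) => (u : Matrix (Fin n) (Fin n) (ZMod p))) h1
      simp only [Units.val_pow_eq_pow_val, Units.val_one] at h2
      exact h2
    · intro ℓ hℓ hℓn hne
      have : Fact ℓ.Prime := ⟨hℓ⟩
      have hfin : Finite (GL (Fin n) (ZMod p)) := inferInstance
      have hnil : Group.IsNilpotent ((MM P G).map ηp) := map_MM_isNilpotent P G ηp
      set X := (MM P G).map ηp with hX
      obtain ⟨S⟩ : Nonempty (Sylow ℓ X) := inferInstance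
      have hSc : ∀ x ∈ (S : Subgroup X), ∀ y ∈ (S : Subgroup X), x * y = y * x := by
        intro x hx y hy
        have hF : (ℓ : ZMod p) ≠ 0 := by
          intro h0
          rw [ZMod.natCast_eq_zero_iff] at h0
          exact hne ((Nat.prime_dvd_prime_iff_eq hp hℓ).1 h0).symm
        have hmap : IsPGroup ℓ ((S : Subgroup X).map X.subtype) := S.isPGroup'.map _
        have h1 := comm_of_isPGroup hℓ hℓn hF ((S : Subgroup X).map X.subtype) hmap
          (x : GL (Fin n) (ZMod p)) y ⟨x, hx, rfl⟩ ⟨y, hy, rfl⟩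
        exact Subtype.ext h1
      have hmem : ηp h ∈ ⁅X, X⁆ := by
        rw [hX, ← Subgroup.map_commutator]
        exact ⟨h, hh, rfl⟩
      have h2 : ⁅X, X⁆ = (commutator X).map X.subtype := by
        rw [commutator_def, Subgroup.map_commutator, ← MonoidHom.range_eq_map, Subgroup.range_subtype]
      rw [h2] at hmem
      obtain ⟨z, hz, hzh⟩ := hmem
      have h3 := not_dvd_orderOf_of_mem_commutator S hSc z hz
      have h4 : orderOf z = orderOf (ηp h) := by
        rw [← hzh]
        exact (Subgroup.orderOf_coe z).symm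
      rwa [h4] at h3

end Pool.Agent.PHI
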