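import Pool.Agent.PHI.DefsF

/-!
# ResCl: closure properties of `VirtResP`

PROOFS.
`of_injective`: `R' ≤ Γ'` as in `VirtResP p Γ'`; `R = R'.comap f` has finite index; for `a ∈ R`, `a ≠ 1`, `f a ≠ 1`; take
`L' ≤ R'` normal of index `p^k`, `f a ∉ L'`; `L` = preimage of `L'` under `R → R'`: normal, its index is the cardinality of
a subgroup of the `p`-group `R' ⧸ L'`, a power of `p`.
`of_finiteIndex`: if `R ≤ Γ₀` has finite index, then its image in `Γ` (`R.map Γ₀.subtype`, isomorphic to `R`) has finite index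
in `Γ`; transport.
`prod`: `R₁ × R₂`; a nontrivial element `(a, b)` has a nontrivial coordinate, say `a`; take `L₁ × R₂`, i.e. the preimage of
`L₁` under the projection `R₁ × R₂ → R₁`; the index is the index of `L₁`.
-/

namespace Pool.Agent.PHI

/-- Pulling back a normal subgroup of `p`-power index along a homomorphism. -/
theorem ResCl.comap_index {A B : Type*} [Group A] [Group B] {p : ℕ} (hp : p.Prime) (g : A →* B)
    (L : Subgroup B) (k : ℕ) (hL : L.index = p ^ k) [L.Normal] :
    ∃ m : ℕ, (L.comap g).index = p ^ m := by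
  have h1 : (L.comap g).index ∣ L.index := by
    rw [Subgroup.index_comap]
    exact Subgroup.relIndex_dvd_index_of_normal L g.range
  rw [hL] at h1
  obtain ⟨m, _, hm⟩ := (Nat.dvd_prime_pow hp).mp h1
  exact ⟨m, hm⟩

theorem VirtResP.of_injective {Γ Γ' : Type*} [Group Γ] [Group Γ'] {p : ℕ} (hp : p.Prime)
    (f : Γ →* Γ') (hf : Function.Injective f) (h : VirtResP p Γ') : VirtResP p Γ := by
  obtain ⟨R', hR', h'⟩ := h
  refine ⟨R'.comap f, ?_, ?_⟩
  · constructor
    rw [Subgroup.index_comap]
    intro h0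
    have h1 := Subgroup.relIndex_mul_index (H := R' ⊓ f.range) (K := f.range) inf_le_right
    rw [Subgroup.inf_relIndex_right, h0, zero_mul] at h1
    have h2 : R'.relIndex ⊤ ≠ 0 := by
      rw [Subgroup.relIndex_top_right]; exact hR'.index_ne_zero
    exact h2 (Subgroup.relIndex_eq_zero_of_le_right (le_top) h0)
  · intro a ha
    let g : R'.comap f →* R' := f.subgroupComap R'
    have hga : g a ≠ 1 := by
      intro h1
      apply ha
      have h2 : f (a : Γ) = 1 := congrArg Subtype.val h1
      apply Subtype.ext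
      exact hf (by rw [h2]; simp)
    obtain ⟨L', hn, ⟨k, hk⟩, haL⟩ := h' (g a) hga
    have := hn
    refine ⟨L'.comap g, inferInstance, ResCl.comap_index hp g L' k hk, ?_⟩
    intro h3
    exact haL h3

theorem VirtResP.of_finiteIndex {Γ : Type*} [Group Γ] {p : ℕ} (Γ₀ : Subgroup Γ)
    [Γ₀.FiniteIndex] (h : VirtResP p Γ₀) : VirtResP p Γ := by
  obtain ⟨R, hR, h'⟩ := h
  have := hR
  have hinj : Function.Injective Γ₀.subtype := Γ₀.subtype_injective
  refine ⟨R.map Γ₀.subtype, ?_, ?_⟩
  · constructor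
    rw [Subgroup.index_map_subtype]
    exact mul_ne_zero Subgroup.FiniteIndex.index_ne_zero Subgroup.FiniteIndex.index_ne_zero
  · intro a ha
    let e : R ≃* R.map Γ₀.subtype := R.equivMapOfInjective Γ₀.subtype hinj
    have hea : e.symm a ≠ 1 := by
      intro h1
      apply ha
      have := congrArg e h1
      simpa using this
    obtain ⟨L, hn, ⟨k, hk⟩, haL⟩ := h' (e.symm a) hea
    have := hn
    refine ⟨L.comap e.symm.toMonoidHom, inferInstance, ⟨k, ?_⟩, fun h3 => haL h3⟩
    rw [Subgroup.index_comap_of_surjective _ e.symm.surjective]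
    exact hk

theorem VirtResP.prod {Γ Γ' : Type*} [Group Γ] [Group Γ'] {p : ℕ} (hp : p.Prime)
    (h : VirtResP p Γ) (h' : VirtResP p Γ') : VirtResP p (Γ × Γ') := by
  obtain ⟨R, hR, hR2⟩ := h
  obtain ⟨R', hR', hR2'⟩ := h'
  refine ⟨R.prod R', ?_, ?_⟩
  · have := hR
    have := hR'
    constructor
    rw [Subgroup.index_prod]
    exact mul_ne_zero Subgroup.FiniteIndex.index_ne_zero Subgroup.FiniteIndex.index_ne_zero
  · intro a ha
    let g : R.prod R' →* R :=
      (MonoidHom.fst R R').comp (R.prodEquiv R').toMonoidHom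
    let g' : R.prod R' →* R' :=
      (MonoidHom.snd R R').comp (R.prodEquiv R').toMonoidHom
    have hga : g a ≠ 1 ∨ g' a ≠ 1 := by
      by_contra hcon
      push Not at hcon
      apply ha
      have h1 : (R.prodEquiv R') a = 1 := Prod.ext hcon.1 hcon.2
      exact (MulEquiv.map_eq_one_iff _).mp h1
    rcases hga with hga | hga
    · obtain ⟨L, hn, ⟨k, hk⟩, haL⟩ := hR2 (g a) hga
      have := hn
      exact ⟨L.comap g, inferInstance, ResCl.comap_index hp g L k hk, fun h3 => haL h3⟩
    · obtain ⟨L, hn, ⟨k, hk⟩, haL⟩ := hR2' (g' a) hga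
      have := hn
      exact ⟨L.comap g', inferInstance, ResCl.comap_index hp g' L k hk, fun h3 => haL h3⟩

end Pool.Agent.PHI
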