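import Pool.Agent.PHI.QU
import Pool.Agent.PHI.Ping
import Pool.Agent.PHI.Mat2

/-!
# ResF: `Φ_f(G) ∩ P` is commutative for residually free `P`

PROOF.  Let `x, y ∈ M = MM P G` and suppose `h = x y x⁻¹ y⁻¹ ≠ 1`.  Take `ξ : P → FreeGroup ℕ` with `ξ h ≠ 1` and
`η₀` from `exists_free_embedding`, `ζ = η₀.comp ξ : P →* SL(2, ℤ)`, `B = M.map ζ`.  `B` is torsion-free: an element
`ζ m` with `(ζ m)^k = 1`, `k > 0`, gives `(ξ m)^k = 1` (injectivity) so `ξ m = 1` (`IsMulTorsionFree (FreeGroup ℕ)`,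
Mathlib/GroupTheory/FreeGroup/CyclicallyReduced.lean).  For `c ∈ ⁅B, B⁆ = ⁅M, M⁆.map ζ` (`Subgroup.map_commutator`),
`c = ζ h'` with `h' ∈ ⁅M, M⁆`; apply `exists_pow_eq_one_of_mem_commutator` to
`η = (SL(2,ℤ) → GL (Fin 2) ℤ).comp ζ`.  So `comm_of_quasiunipotent` applies: `ζ x` and `ζ y` commute, `ζ h = 1`, and
`ξ h = 1` by injectivity, contradiction.
-/

namespace Pool.Agent.PHI

open Matrix MatrixGroups

theorem MM_comm {Γ : Type*} [Group Γ] (P : Subgroup Γ) [P.Normal] (hP : Nice P)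
    (G : Subgroup Γ) (x y : P) (hx : x ∈ MM P G) (hy : y ∈ MM P G) : x * y = y * x := by
  have := hP.fg
  by_contra hne
  have hh : x * y * x⁻¹ * y⁻¹ ≠ 1 := by
    intro h1
    apply hne
    have h2 : x * y * x⁻¹ * y⁻¹ * (y * x) = 1 * (y * x) := by rw [h1]
    rw [one_mul] at h2
    rw [← h2]
    group
  obtain ⟨ξ, hξ⟩ := hP.resFree _ hh
  obtain ⟨η₀, hinj, -⟩ := exists_free_embedding
  obtain ⟨ζ, hζ⟩ : ∃ ζ : P →* SL(2, ℤ), ζ = η₀.comp ξ := ⟨_, rfl⟩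
  have key : ζ x * ζ y = ζ y * ζ x := by
    refine comm_of_quasiunipotent ((MM P G).map ζ) ?_ ?_ (ζ x) (ζ y) ⟨x, hx, rfl⟩ ⟨y, hy, rfl⟩
    · rintro _ ⟨m, hm, rfl⟩ k hk hpow
      have h1 : η₀ (ξ m ^ k) = η₀ 1 := by
        rw [map_pow, map_one]
        simpa [hζ] using hpow
      have h2 : ξ m ^ k = 1 := hinj h1
      have h3 : ξ m = 1 := (pow_eq_one_iff_left hk.ne').mp h2
      simp [hζ, h3]
    · intro c hc μ hμ
      rw [← Subgroup.map_commutator] at hc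
      obtain ⟨h', hh', rfl⟩ := hc
      exact exists_pow_eq_one_of_mem_commutator P G
        ((Matrix.SpecialLinearGroup.toGL).comp ζ) h' hh' (μ := μ) hμ
  apply hξ
  apply hinj
  have h4 : ζ (x * y * x⁻¹ * y⁻¹) = 1 := by
    rw [map_mul, map_mul, map_mul, key, map_inv, map_inv]
    group
  rw [hζ] at h4
  rw [map_one]
  exact h4

end Pool.Agent.PHI
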