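import Pool.Agent.PHI.CentI

/-!
# VirtN: a nilpotency criterion for virtually nilpotent groups

PROOF.  Let `k` be the nilpotency class of `N₀`, so `upperCentralSeries N₀ k = ⊤`, and `Z i` as in module `CentI`.
By `commutator_mem` and induction `Z i ≤ upperCentralSeries N i` (`mem_upperCentralSeries_succ_iff`), so
`N₀ ≤ upperCentralSeries N k`.  Let `s = N₀.index`.  If `L` is normal in `N` with `X = N ⧸ L` nilpotent, then the image of
`N₀` is contained in `upperCentralSeries X k` (`upperCentralSeries.map`), so `X ⧸ upperCentralSeries X k` is a nilpotent group of order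
`≤ s`, hence of class `≤ s` (strictly increasing upper central series; or `lowerCentralSeries` strictly decreasing;
`Group.nilpotencyClass ≤ card` in any form), and so `lowerCentralSeries X (k + s) = ⊥`
(e.g. `lowerCentralSeries X s ≤ upperCentralSeries X k`, and commutating `k` more times kills it).  Therefore
`C = lowerCentralSeries N (k+s) ≤ L` (`lowerCentralSeries.map`).
Apply this with the `R` of `h 2` (`N ⧸ R` is nilpotent): `C ≤ R`; and if `a ∈ C`, `a ≠ 1`, then there is `L` with
`a ∉ L`, `N ⧸ L` nilpotent, contradiction with `C ≤ L`.  So `C = ⊥` and `N` is nilpotent.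
-/

namespace Pool.Agent.PHI

theorem VirtN_fin {Q : Type*} [Group Q] [Finite Q] (hQ : Group.IsNilpotent Q) :
    (⊤ : Subgroup Q).lowerCentralSeries (Nat.card Q) = ⊥ := by
  have hstep : ∀ n : ℕ, (⊤ : Subgroup Q).lowerCentralSeries n = ⊥ ∨
      Nat.card ((⊤ : Subgroup Q).lowerCentralSeries n) + n ≤ Nat.card Q := by
    intro n
    induction n with
    | zero =>
      right
      rw [add_zero]
      exact Subgroup.card_le_card_group _
    | succ n ih =>
      have hle : (⊤ : Subgroup Q).lowerCentralSeries (n + 1) ≤
          (⊤ : Subgroup Q).lowerCentralSeries n :=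
        Subgroup.lowerCentralSeries_antitone _ (Nat.le_succ n)
      rcases ih with h1 | h1
      · left
        rw [h1, le_bot_iff] at hle
        exact hle
      · by_cases heq : (⊤ : Subgroup Q).lowerCentralSeries (n + 1) =
            (⊤ : Subgroup Q).lowerCentralSeries n
        · left
          have hconst : ∀ j : ℕ, (⊤ : Subgroup Q).lowerCentralSeries (n + j) =
              (⊤ : Subgroup Q).lowerCentralSeries n := by
            intro j
            induction j with
            | zero => rfl
            | succ j ihj =>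
              rw [← add_assoc, Subgroup.lowerCentralSeries_succ, ihj,
                ← Subgroup.lowerCentralSeries_succ, heq]
          obtain ⟨c, hc⟩ := Subgroup.nilpotent_iff_lowerCentralSeries.mp hQ
          have h2 := Subgroup.lowerCentralSeries_antitone (⊤ : Subgroup Q) (Nat.le_add_left c n)
          rw [hc, hconst c, le_bot_iff] at h2
          rw [heq, h2]
        · right
          have hlt : (⊤ : Subgroup Q).lowerCentralSeries (n + 1) <
              (⊤ : Subgroup Q).lowerCentralSeries n := lt_of_le_of_ne hle heq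
          have hcard : Nat.card ((⊤ : Subgroup Q).lowerCentralSeries (n + 1)) <
              Nat.card ((⊤ : Subgroup Q).lowerCentralSeries n) := by
            apply Set.ncard_lt_ncard hlt (Set.toFinite _)
          omega
  rcases hstep (Nat.card Q) with h | h
  · exact h
  · have h3 : 0 < Nat.card ((⊤ : Subgroup Q).lowerCentralSeries (Nat.card Q)) := Nat.card_pos
    omega

theorem VirtN_lcs {X : Type*} [Group X] (hX : Group.IsNilpotent X) (k s : ℕ)
    (hs : s ≠ 0) (hk : (Subgroup.upperCentralSeries X k).index ∣ s) :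
    (⊤ : Subgroup X).lowerCentralSeries (s + k) = ⊥ := by
  set U := Subgroup.upperCentralSeries X k with hU
  have hUi : U.index ≠ 0 := fun h0 => hs (by rw [h0, zero_dvd_iff] at hk; exact hk)
  have hUf : U.FiniteIndex := ⟨hUi⟩
  have hfin : Finite (X ⧸ U) := Subgroup.finite_quotient_of_finiteIndex
  have hQ : Group.IsNilpotent (X ⧸ U) := inferInstance
  have hcard : Nat.card (X ⧸ U) ≤ s := Nat.le_of_dvd (Nat.pos_of_ne_zero hs) hk
  have h1 : (⊤ : Subgroup (X ⧸ U)).lowerCentralSeries s = ⊥ := by
    have h2 := Subgroup.lowerCentralSeries_antitone (⊤ : Subgroup (X ⧸ U)) hcard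
    rw [VirtN_fin hQ, le_bot_iff] at h2
    exact h2
  have h3 : (⊤ : Subgroup X).lowerCentralSeries s ≤ U := by
    have h4 : ((⊤ : Subgroup X).lowerCentralSeries s).map (QuotientGroup.mk' U) ≤ ⊥ := by
      rw [← h1, Subgroup.map_lowerCentralSeries]
      exact Subgroup.lowerCentralSeries_mono s le_top
    rw [Subgroup.map_le_iff_le_comap, MonoidHom.comap_bot, QuotientGroup.ker_mk'] at h4
    exact h4
  have h5 : ∀ j : ℕ, j ≤ k → (⊤ : Subgroup X).lowerCentralSeries (s + j) ≤
      Subgroup.upperCentralSeries X (k - j) := by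
    intro j
    induction j with
    | zero => intro _; exact h3
    | succ j ih =>
      intro hj
      have h6 := ih (by omega)
      rw [← add_assoc, Subgroup.lowerCentralSeries_succ]
      have h7 : k - j = (k - (j + 1)) + 1 := by omega
      rw [h7] at h6
      exact (Subgroup.commutator_mono h6 le_rfl).trans
        (Subgroup.commutator_upperCentralSeries_top_le _ _)
  have h8 := h5 k le_rfl
  rw [Nat.sub_self, Subgroup.upperCentralSeries_zero, le_bot_iff] at h8
  exact h8

theorem isNilpotent_of_virt {N : Type*} [Group N] (N₀ : Subgroup N) [N₀.Normal] [N₀.FiniteIndex]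
    (hnil : Group.IsNilpotent N₀)
    (htf : ∀ x ∈ N₀, ∀ m : ℕ, 0 < m → x ^ m = 1 → x = 1)
    (h : ∀ p : ℕ, p.Prime → ∃ R : Subgroup N, Res p R) : Group.IsNilpotent N := by
  obtain ⟨k, hk⟩ := hnil.nilpotent'
  have hs : N₀.index ≠ 0 := Subgroup.FiniteIndex.index_ne_zero
  have hZ : ∀ i : ℕ, (Subgroup.upperCentralSeries N₀ i).map N₀.subtype ≤
      Subgroup.upperCentralSeries N i := by
    intro i
    induction i with
    | zero =>
      rw [Subgroup.upperCentralSeries_zero, Subgroup.map_bot]
      exact bot_le
    | succ i ih =>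
      intro b hb
      rw [Subgroup.mem_upperCentralSeries_succ_iff]
      intro y
      have h1 := ih (commutator_mem N₀ htf h i y b hb)
      have h2 := Subgroup.inv_mem _ h1
      rw [commutatorElement_def]
      have h3 : (y * b * y⁻¹ * b⁻¹)⁻¹ = b * y * b⁻¹ * y⁻¹ := by group
      rw [h3] at h2
      exact h2
  have hN₀ : N₀ ≤ Subgroup.upperCentralSeries N k := by
    intro x hx
    apply hZ k
    rw [hk]
    exact ⟨⟨x, hx⟩, Subgroup.mem_top _, rfl⟩
  have hC : ∀ L : Subgroup N, ∀ _ : L.Normal, Group.IsNilpotent (N ⧸ L) →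
      (⊤ : Subgroup N).lowerCentralSeries (N₀.index + k) ≤ L := by
    intro L hLn hL
    have hsurj : Function.Surjective (QuotientGroup.mk' L) := QuotientGroup.mk'_surjective L
    have h1 : (⊤ : Subgroup (N ⧸ L)).lowerCentralSeries (N₀.index + k) = ⊥ := by
      refine VirtN_lcs hL k N₀.index hs ?_
      rw [← Subgroup.index_comap_of_surjective _ hsurj]
      apply Subgroup.index_dvd_of_le
      rw [← Subgroup.map_le_iff_le_comap]
      exact (Subgroup.map_mono hN₀).trans (Subgroup.upperCentralSeries.map hsurj k)
    have h4 : ((⊤ : Subgroup N).lowerCentralSeries (N₀.index + k)).map (QuotientGroup.mk' L) ≤ ⊥ := by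
      rw [← h1, Subgroup.map_lowerCentralSeries]
      exact Subgroup.lowerCentralSeries_mono _ le_top
    rw [Subgroup.map_le_iff_le_comap, MonoidHom.comap_bot, QuotientGroup.ker_mk'] at h4
    exact h4
  obtain ⟨R, ⟨hRn, -, hRnil⟩, hR⟩ := h 2 Nat.prime_two
  rw [Subgroup.nilpotent_iff_lowerCentralSeries]
  refine ⟨N₀.index + k, ?_⟩
  rw [Subgroup.eq_bot_iff_forall]
  intro a ha
  by_contra hne
  obtain ⟨L, hLn, -, haL, -, hL⟩ := hR a (hC R hRn hRnil ha) hne
  exact haL (hC L hLn hL ha)

end Pool.Agent.PHI
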